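import Pool.Agent.Helper74.Clique.Graph

/-!
The determinant of the matrix of exponents.
-/
namespace Clique
open Finset Matrix Kronecker

theorem ex_matrix (m : ℕ) (A : Type) [Fintype A] [DecidableEq A] :
    (Matrix.of fun κ x : Y m A × Y m A => (ex κ x : ℤ)) =
      (TM m ⊗ₖ (1 : Matrix A A ℤ)) ⊗ₖ (TM m ⊗ₖ (1 : Matrix A A ℤ)) := by
  ext κ x
  rw [Matrix.of_apply, Matrix.kroneckerMap_apply, Matrix.kroneckerMap_apply, Matrix.kroneckerMap_apply]
  simp only [ex, TM, Matrix.of_apply, Matrix.one_apply]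
  push_cast
  congr 1
  · split_ifs <;> simp
  · split_ifs <;> simp

theorem det_ex (m : ℕ) (A : Type) [Fintype A] [DecidableEq A] :
    (Matrix.of fun κ x : Y m A × Y m A => (ex κ x : ℤ)).det.natAbs * 4 ^ (Fintype.card (Y m A × Y m A)) =
      4 ^ (2 ^ m * (Fintype.card A) ^ 2) * (2 ^ m) ^ (Fintype.card (Y m A × Y m A)) := by
  rw [ex_matrix, Matrix.det_kronecker, Matrix.det_kronecker]
  simp only [Matrix.det_one, one_pow, mul_one, Fintype.card_prod, Fintype.card_fun, Fintype.card_fin,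
    Fintype.card_bool]
  set q := Fintype.card A
  rw [← pow_mul, ← pow_add, Int.natAbs_pow]
  have h := natAbs_det_TM m
  set t := (TM m).det.natAbs
  have e1 : q * (2 ^ m * q) + q * (2 ^ m * q) = 2 * (2 ^ m * q ^ 2) := by ring
  have e2 : 2 ^ m * q * (2 ^ m * q) = 2 ^ m * (2 ^ m * q ^ 2) := by ring
  rw [e1, e2, pow_mul t, pow_mul 4, pow_mul (2 ^ m), ← mul_pow, h, mul_pow]

end Clique
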