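import Pool.Agent.Helper74.Clique.TorB

/-!
The counting inequality for determinants, for an arbitrary finite set of nondegenerate zeros.
-/
namespace Clique
open Finset MvPolynomial Pool.Agent.Helper24.SQ Circ TorU

/-- **The counting inequality for determinants.** -/
theorem many_le {σ X : Type} [Fintype σ] [Fintype X] [DecidableEq X] [Nonempty X] (p : MvPolynomial σ ℂ) (M : ℕ)
    (h : ∀ ε : ℝ, 0 < ε → ∃ P : MvPolynomial σ ℂ, DetRep P M ∧ ∀ s, ‖P.coeff s - p.coeff s‖ < ε)
    (f : σ → MvPolynomial X ℂ) (hf : ∀ s, (f s).totalDegree ≤ 1) (v : X → ℂ) (hv0 : ∀ i, v i ≠ 0)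
    (Z : Finset (X ⊕ Bool → ℂ)) (hZ : ∀ z ∈ Z, NonDeg (fun j => LT (aeval f p) j + FT v j) z) :
    (Z.card : ℝ) ≤
      (2 * Real.exp 1 * (2 * M + Fintype.card X + 1) / (Fintype.card X + 1 : ℕ)) ^ (Fintype.card X + 1) := by
  obtain ⟨P, Z', hP, hZ', h2⟩ := exists_near_sys (τ := X ⊕ Bool) rfl p (fun P => DetRep P M) M
    (fun P hP => hP.totalDegree_le) h (LT.comp (aeval f).toLinearMap) (FT v) Z (by
      intro z hz
      simp only [LinearMap.comp_apply, AlgHom.toLinearMap_apply]
      exact hZ z hz)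
  rw [← hZ']
  obtain ⟨A₀, L, hdet⟩ := hP.subst f hf
  have hT : ∀ z ∈ Z', TCrit (aeval f P) v fun i => z (Sum.inl i) := fun z hz => tcrit_of_nonDeg _ _ _ (h2 z hz)
  have hinj2 : Function.Injective fun (z : Z') (i : X) => (z : X ⊕ Bool → ℂ) (Sum.inl i) := by
    rintro ⟨z, hz⟩ ⟨z', hz'⟩ he
    have he' : ∀ i, z (Sum.inl i) = z' (Sum.inl i) := fun i => congrFun he i
    have he2 : (fun i => z (Sum.inl i)) = fun i => z' (Sum.inl i) := he
    obtain ⟨⟨h1, _, h3⟩, _⟩ := (nonDeg_iff _ v z).1 (h2 z hz)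
    obtain ⟨⟨h1', _, h3'⟩, _⟩ := (nonDeg_iff _ v z').1 (h2 z' hz')
    have i0 : X := Classical.arbitrary X
    have e1 : z (Sum.inr false) = z' (Sum.inr false) := by
      have e2 := h1 i0
      have e3 := h1' i0
      rw [he2, he' i0, e3] at e2
      exact (mul_left_cancel₀ (hv0 i0) e2).symm
    have hne : z (Sum.inr false) ≠ 0 := by
      intro h0
      rw [h0, zero_mul] at h3
      exact zero_ne_one h3
    have e2 : z (Sum.inr true) = z' (Sum.inr true) := by
      rw [← e1] at h3'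
      exact mul_left_cancel₀ hne (h3.trans h3'.symm)
    ext j
    rcases j with i | _ | _
    · exact he' i
    · exact e1
    · exact e2
  have hb := tcrit_card A₀ L (aeval f P) (fun x => (hdet x).symm) v hv0
    (fun (z : Z') (i : X) => (z : X ⊕ Bool → ℂ) (Sum.inl i)) hinj2 (fun z => hT z z.2)
  have hn := tnum (Fintype.card Z') M (Fintype.card X) (by
    intro α β
    have := hb α β
    rwa [Fintype.card_fin] at this)
  rwa [Fintype.card_coe] at hn

end Clique
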