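import Pool.Agent.Helper74.Clique.DegC
import Pool.Agent.Helper74.Clique.TorC
import Pool.Agent.Helper74.Clique.Det

/-!
The inequality for determinantal complexity.
-/
namespace Clique
open Finset MvPolynomial Matrix Kronecker Pool.Agent.Helper24.SQ Circ

/-- the exponents of the left side -/
def SB (m q : ℕ) (ρ x : B m × Fin q) : ℕ := if ρ.2 = x.2 then tt m ρ.1 x.1 else 0

theorem det_SB (m q : ℕ) : (Matrix.of fun a b => (SB m q a b : ℤ)).det.natAbs = (TM m).det.natAbs ^ q := by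
  have h : (Matrix.of fun a b => (SB m q a b : ℤ)) = TM m ⊗ₖ (1 : Matrix (Fin q) (Fin q) ℤ) := by
    ext κ x
    rw [Matrix.of_apply, Matrix.kroneckerMap_apply]
    simp only [SB, TM, Matrix.of_apply, Matrix.one_apply]
    split_ifs <;> simp
  rw [h, Matrix.det_kronecker, Matrix.det_one, one_pow, mul_one, Int.natAbs_pow, Fintype.card_fin]

theorem det_TM_ne_zero (m : ℕ) : (TM m).det ≠ 0 := by
  intro h
  have h1 := natAbs_det_TM m
  rw [h] at h1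
  simp at h1

/-- the inequality for determinants -/
theorem dc_ineq {σ : Type} [Fintype σ] (m q M : ℕ) (hq : 1 ≤ q) (f : MvPolynomial σ ℂ)
    (h : ∀ ε : ℝ, 0 < ε → ∃ P : MvPolynomial σ ℂ, DetRep P M ∧ ∀ s, ‖P.coeff s - f.coeff s‖ < ε)
    (c : (B m × Fin q) → (B m → Bool) → ℂ) (hc : ∀ ρ v, c ρ v ≠ 0) (hc1 : ∀ ρ, c ρ (fun _ => false) = 1)
    (hφ : ∀ t : ℂ, ∃ φ : σ → MvPolynomial ((B m × Fin q) × B m) ℂ, (∀ e, (φ e).totalDegree ≤ 1) ∧
      aeval φ f = PP (SB m q) c t) :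
    ∃ t0 : ℕ, t0 ^ 2 * 4 ^ (2 ^ m) = 4 * (2 ^ m) ^ (2 ^ m) ∧
        (((2 ^ m).factorial : ℝ) ^ (2 ^ m * q)) * (t0 : ℝ) ^ (2 ^ m * q) ≤
        (2 * Real.exp 1 * (2 * M + (((2 ^ m) ^ 2 * q : ℕ) : ℝ) + 1) / ((((2 ^ m) ^ 2 * q : ℕ) : ℝ) + 1)) ^
          ((2 ^ m) ^ 2 * q + 1) := by
  refine ⟨(TM m).det.natAbs, natAbs_det_TM m, ?_⟩
  have : Nonempty (Fin q) := ⟨⟨0, hq⟩⟩
  have hS : (Matrix.of fun a b => (SB m q a b : ℤ)).det ≠ 0 := by
    rw [← Int.natAbs_ne_zero, det_SB]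
    exact pow_ne_zero _ (Int.natAbs_ne_zero.2 (det_TM_ne_zero m))
  obtain ⟨t, Z, hZc, hZ⟩ := exists_many (SB m q) hS c hc hc1
  obtain ⟨φ, hφ1, hφ2⟩ := hφ t
  have h1 := many_le f M h φ hφ1 (vv (SB m q)) (vv_ne_zero (SB m q) hS) Z (by
    intro z hz
    rw [hφ2]
    exact hZ z hz)
  have hJ : Fintype.card (B m) = 2 ^ m := by
    rw [Fintype.card_fun, Fintype.card_bool, Fintype.card_fin]
  have hX : Fintype.card ((B m × Fin q) × B m) = (2 ^ m) ^ 2 * q := by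
    rw [Fintype.card_prod, Fintype.card_prod, hJ, Fintype.card_fin]
    ring
  have hR : Fintype.card (B m × Fin q) = 2 ^ m * q := by
    rw [Fintype.card_prod, hJ, Fintype.card_fin]
  rw [hZc, hX, hJ, hR, det_SB, ← pow_mul, mul_comm q] at h1
  push_cast at h1 ⊢
  exact h1

end Clique
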