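import Pool.Agent.Helper74.Clique.CSys
import Pool.Agent.Helper74.Clique.Det

/-!
Lower bound for circuits computing a polynomial whose monomials are the `k`-cliques.
-/
namespace Clique
open Finset MvPolynomial Circ

theorem vr_none {m : ℕ} {A U : Type} (v w : V m A U) : vr v w = none ∨ vr w v = none := by
  rcases v with ⟨_ | _, y | ⟨g, _ | α⟩⟩ | u <;> rcases w with ⟨_ | _, y' | ⟨g', _ | β⟩⟩ | u' <;> simp [vr]

theorem psi_totalDegree {m : ℕ} {A U : Type} (e : Sym2 (V m A U)) : (psi e).totalDegree ≤ 1 := by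
  induction e using Sym2.ind with
  | _ v w =>
    unfold psi
    rw [Sym2.lift_mk]
    simp only [pw]
    split_ifs
    · simp
    · have h1 : ∀ v w : V m A U, (ve v w).totalDegree ≤ 1 := by
        intro v w
        unfold ve
        rcases vr v w with _ | x
        · simp
        · simp [totalDegree_X]
      rcases vr_none v w with h | h
      · have h2 : ve v w = 1 := by
          unfold ve
          rw [h]
        rw [h2, one_mul]
        exact h1 w v
      · have h2 : ve w v = 1 := by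
          unfold ve
          rw [h]
        rw [h2, mul_one]
        exact h1 v w

theorem ext_totalDegree {m : ℕ} {A U Ω : Type} (ι : V m A U ↪ Ω) (e : Sym2 Ω) :
    (ext ι psi e).totalDegree ≤ 1 := by
  unfold ext
  split_ifs
  · exact psi_totalDegree _
  · simp

theorem card_V (m : ℕ) (A U : Type) [Fintype A] [Fintype U] :
    Fintype.card (V m A U) = 4 * (2 ^ m * Fintype.card A) + 2 * 2 ^ m + Fintype.card U := by
  simp only [Fintype.card_sum, Fintype.card_prod, Fintype.card_bool, Fintype.card_fun, Fintype.card_fin,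
    Fintype.card_option]
  ring

theorem card_Gp (m : ℕ) (U : Type) [Fintype U] : Fintype.card (Gp m U) = 2 * 2 ^ m + 2 + Fintype.card U := by
  simp only [Fintype.card_sum, Fintype.card_prod, Fintype.card_bool, Fintype.card_fun, Fintype.card_fin,
    Fintype.card_option]
  ring

/-- the inequality for `n = 4 p q + 2 p + u` or more vertices, `k = 2 p + 2 + u`, `p = 2 ^ m` -/
theorem ineq {Ω : Type} [Fintype Ω] [DecidableEq Ω] (m q u : ℕ)
    (hn : 4 * (2 ^ m * q) + 2 * 2 ^ m + u ≤ Fintype.card Ω) (f : MvPolynomial (Sym2 Ω) ℂ)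
    (hf : CliqueSupport (2 * 2 ^ m + 2 + u) f) (r : ℕ)
    (h : ∀ ε : ℝ, 0 < ε → ∃ P : MvPolynomial (Sym2 Ω) ℂ, MulRep P r ∧ ∀ s, ‖P.coeff s - f.coeff s‖ < ε) :
    m * (2 ^ m * q) ^ 2 ≤ 3 * r + 3 * (2 ^ m * q) ^ 2 := by
  classical
  have hV : Fintype.card (V m (Fin q) (Fin u)) ≤ Fintype.card Ω := by
    rw [card_V, Fintype.card_fin, Fintype.card_fin]
    exact hn
  obtain ⟨ι⟩ := Function.Embedding.nonempty_of_card_le hV
  have hk : 2 * 2 ^ m + 2 + u = Fintype.card (Gp m (Fin u)) := by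
    rw [card_Gp, Fintype.card_fin]
  have h1 := aeval_graph hk (by omega) hf ι
  have h2 := det_le f r h (ext ι psi) (ext_totalDegree ι) (fun κ x : Y m (Fin q) × Y m (Fin q) => ex κ x)
    (fun κ => coeff (mon ((DD (Fin u) κ).map ι)) f) (fun κ => (hf _).2 ⟨_, by rw [card_map, card_DD, hk], rfl⟩) h1
  have h3 := det_ex m (Fin q)
  have hN : Fintype.card (Y m (Fin q) × Y m (Fin q)) = (2 ^ m * q) ^ 2 := by
    simp only [Fintype.card_prod, Fintype.card_fun, Fintype.card_fin, Fintype.card_bool]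
    ring
  rw [hN] at h2 h3
  have h4 : 2 ^ (m * (2 ^ m * q) ^ 2) ≤ 2 ^ (3 * r + 3 * (2 ^ m * q) ^ 2) := by
    calc 2 ^ (m * (2 ^ m * q) ^ 2) = 1 * (2 ^ m) ^ ((2 ^ m * q) ^ 2) := by rw [one_mul, pow_mul]
      _ ≤ 4 ^ (2 ^ m * (Fintype.card (Fin q)) ^ 2) * (2 ^ m) ^ ((2 ^ m * q) ^ 2) :=
          Nat.mul_le_mul_right _ (Nat.one_le_pow _ _ (by norm_num))
      _ = _ := h3.symm
      _ ≤ 2 ^ (3 * r + (2 ^ m * q) ^ 2) * 4 ^ ((2 ^ m * q) ^ 2) := Nat.mul_le_mul_right _ h2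
      _ = 2 ^ (3 * r + 3 * (2 ^ m * q) ^ 2) := by
          rw [show (4 : ℕ) = 2 ^ 2 by norm_num, ← pow_mul, ← pow_add]
          congr 1
          ring
  exact (Nat.pow_le_pow_iff_right (by norm_num)).1 h4

/-- the choice of the parameters -/
theorem numeric (n k r : ℕ) (hk : 4096 ≤ k) (hkn : k + 4096 ≤ n)
    (H : ∀ m q u : ℕ, 4 * (2 ^ m * q) + 2 * 2 ^ m + u ≤ n → 2 * 2 ^ m + 2 + u = k →
      m * (2 ^ m * q) ^ 2 ≤ 3 * r + 3 * (2 ^ m * q) ^ 2) :
    ((n - k : ℕ) : ℝ) ^ 2 * Real.log (min k (n - k) : ℕ) ≤ 384 * r := by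
  set t := min k (n - k) with ht
  have ht1 : 4096 ≤ t := by rw [ht]; exact le_min hk (by omega)
  have htk : t ≤ k := min_le_left _ _
  have htn : t ≤ n - k := min_le_right _ _
  set m := Nat.log 2 (t / 4) with hm
  have hp1 : 2 ^ m ≤ t / 4 := Nat.pow_log_le_self 2 (by omega)
  have hp2 : t / 4 < 2 ^ (m + 1) := Nat.lt_pow_succ_log_self (by norm_num) _
  have hp0 : 0 < 2 ^ m := by positivity
  set q := (n - k) / (4 * 2 ^ m) with hq
  have hq1 : q * (4 * 2 ^ m) ≤ n - k := Nat.div_mul_le_self _ _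
  have hq2 : n - k < (q + 1) * (4 * 2 ^ m) := by
    have := Nat.lt_div_mul_add (a := n - k) (b := 4 * 2 ^ m) (by positivity)
    rw [add_mul, one_mul]
    exact this
  have hq0 : 1 ≤ q := (Nat.one_le_div_iff (by positivity)).2 (by omega)
  have h1 := H m q (k - 2 - 2 * 2 ^ m) (by
    have e1 : 4 * (2 ^ m * q) = q * (4 * 2 ^ m) := by ring
    rw [e1]
    omega) (by omega)
  -- `n - k ≤ 8 p q`
  have h2 : n - k ≤ 8 * (2 ^ m * q) := by
    have : (q + 1) * (4 * 2 ^ m) ≤ 8 * (2 ^ m * q) := by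
      calc (q + 1) * (4 * 2 ^ m) ≤ (q + q) * (4 * 2 ^ m) := Nat.mul_le_mul_right _ (by omega)
        _ = 8 * (2 ^ m * q) := by ring
    omega
  -- `log t ≤ 2 (m - 3)`
  have h3 : Real.log t ≤ 2 * ((m : ℝ) - 3) := by
    have h4 : t < 2 ^ (m + 4) := by
      have : t < 4 * (t / 4 + 1) := by omega
      calc t < 4 * (t / 4 + 1) := this
        _ ≤ 4 * 2 ^ (m + 1) := Nat.mul_le_mul_left _ hp2
        _ ≤ 2 ^ (m + 4) := by
            rw [show m + 4 = (m + 1) + 3 by ring, pow_add 2 (m + 1) 3]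
            omega
    have h5 : Real.log t ≤ (m + 4) * Real.log 2 := by
      have h6 : (t : ℝ) ≤ 2 ^ (m + 4) := by exact_mod_cast h4.le
      have h7 := Real.log_le_log (by positivity) h6
      rw [Real.log_pow] at h7
      push_cast at h7
      exact h7
    have h8 := Real.log_two_lt_d9
    have hm9 : 9 ≤ m := by
      by_contra hcon
      push Not at hcon
      have : 2 ^ (m + 1) ≤ 2 ^ 9 := Nat.pow_le_pow_right (by norm_num) (by omega)
      have h9 : 1024 ≤ t / 4 := by omega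
      norm_num at this
      omega
    have hmR : (9 : ℝ) ≤ m := by exact_mod_cast hm9
    nlinarith
  have h1R : (m : ℝ) * ((2 ^ m * q : ℕ) : ℝ) ^ 2 ≤ 3 * r + 3 * ((2 ^ m * q : ℕ) : ℝ) ^ 2 := by exact_mod_cast h1
  have h2R : ((n - k : ℕ) : ℝ) ≤ 8 * ((2 ^ m * q : ℕ) : ℝ) := by exact_mod_cast h2
  set w : ℝ := ((2 ^ m * q : ℕ) : ℝ) with hw
  have hm3 : 0 ≤ (m : ℝ) - 3 := by
    have h10 : 0 ≤ Real.log t := Real.log_nonneg (by exact_mod_cast (by omega : 1 ≤ t))
    linarith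
  calc ((n - k : ℕ) : ℝ) ^ 2 * Real.log t ≤ (8 * w) ^ 2 * (2 * ((m : ℝ) - 3)) := by
        gcongr
    _ = 128 * (m * w ^ 2 - 3 * w ^ 2) := by ring
    _ ≤ 128 * (3 * r) := by
        have : (m : ℝ) * w ^ 2 - 3 * w ^ 2 ≤ 3 * r := by linarith
        linarith
    _ = 384 * r := by ring

/-- **Circuits and cliques.** -/
theorem circ_main (n k r : ℕ) (hk : 4096 ≤ k) (hkn : k + 4096 ≤ n) (f : MvPolynomial (Sym2 (Fin n)) ℂ)
    (hf : CliqueSupport k f)
    (h : ∀ ε : ℝ, 0 < ε → ∃ P : MvPolynomial (Sym2 (Fin n)) ℂ, MulRep P r ∧ ∀ s, ‖P.coeff s - f.coeff s‖ < ε) :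
    ((n - k : ℕ) : ℝ) ^ 2 * Real.log (min k (n - k) : ℕ) ≤ 384 * r := by
  refine numeric n k r hk hkn fun m q u h1 h2 => ?_
  subst h2
  exact ineq m q u (by rw [Fintype.card_fin]; exact h1) f hf r h

end Clique
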