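import Mathlib

/-!
The system of binomial equations `∏ i, z i ^ a k i = 1` (`k` in `X`, `a` a square matrix with nonzero determinant) has
`|det a|` solutions in the torus.
-/
namespace Clique
open Finset Matrix

theorem addChar_sum {G : Type*} [AddCommGroup G] {ι : Type*} (ψ : AddChar G ℂ) (s : Finset ι) (g : ι → G) :
    ψ (∑ i ∈ s, g i) = ∏ i ∈ s, ψ (g i) := by
  classical
  induction s using Finset.induction_on with
  | empty => simp
  | insert a s ha ih => rw [Finset.sum_insert ha, Finset.prod_insert ha, AddChar.map_add_eq_mul, ih]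

theorem exists_tors {X : Type} [Fintype X] [DecidableEq X] (a : X → X → ℕ)
    (hA : (Matrix.of fun k i => (a k i : ℤ)).det ≠ 0) :
    ∃ Z : Finset (X → ℂ), Z.card = (Matrix.of fun k i => (a k i : ℤ)).det.natAbs ∧
      ∀ z ∈ Z, (∀ i, z i ≠ 0) ∧ ∀ k, ∏ i, z i ^ a k i = 1 := by
  classical
  set A : Matrix X X ℤ := Matrix.of fun k i => (a k i : ℤ) with hAdef
  set f : (X → ℤ) →ₗ[ℤ] (X → ℤ) := Matrix.toLin' Aᵀ with hf
  have hdet : LinearMap.det f = A.det := by
    rw [hf, LinearMap.det_toLin', Matrix.det_transpose]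
  have hinj : Function.Injective f := by
    rw [← LinearMap.ker_eq_bot]
    by_contra hne
    exact hA (hdet ▸ LinearMap.det_eq_zero_iff_ker_ne_bot.2 hne)
  set N : Submodule ℤ (X → ℤ) := LinearMap.range f with hN
  have hcard : Nat.card ((X → ℤ) ⧸ N) = A.det.natAbs := by
    have h := Submodule.natAbs_det_equiv N (LinearEquiv.ofInjective f hinj)
    rw [← h, ← hdet]
    congr 2
  have hfin : Finite ((X → ℤ) ⧸ N) := by
    apply Nat.finite_of_card_ne_zero
    rw [hcard]
    exact Int.natAbs_ne_zero.2 hA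
  have : Fintype ((X → ℤ) ⧸ N) := Fintype.ofFinite _
  set F : AddChar ((X → ℤ) ⧸ N) ℂ → X → ℂ := fun ψ j => ψ (N.mkQ (Pi.single j 1)) with hF
  have key : ∀ (ψ : AddChar ((X → ℤ) ⧸ N) ℂ) (u : X → ℤ), ψ (N.mkQ u) = ∏ j, F ψ j ^ u j := by
    intro ψ u
    have hu : u = ∑ j, u j • (Pi.single j 1 : X → ℤ) := by
      conv_lhs => rw [← Finset.univ_sum_single u]
      refine Finset.sum_congr rfl fun j _ => ?_
      ext i
      by_cases h : i = j
      · subst h; simp
      · simp [Pi.single_eq_of_ne h]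
    conv_lhs => rw [hu]
    rw [map_sum, addChar_sum]
    refine Finset.prod_congr rfl fun j _ => ?_
    rw [map_zsmul, AddChar.map_zsmul_eq_zpow]
  have hFinj : Function.Injective F := by
    intro ψ ψ' h
    ext q
    obtain ⟨u, rfl⟩ := N.mkQ_surjective q
    rw [key, key, h]
  refine ⟨univ.image F, ?_, ?_⟩
  · rw [Finset.card_image_of_injective _ hFinj, Finset.card_univ, AddChar.card_eq, ← hcard,
      Nat.card_eq_fintype_card]
  · intro z hz
    obtain ⟨ψ, _, rfl⟩ := Finset.mem_image.1 hz
    refine ⟨fun i => ?_, fun k => ?_⟩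
    · intro h0
      have h1 := AddChar.map_add_eq_mul ψ (N.mkQ (Pi.single i 1)) (-N.mkQ (Pi.single i 1))
      rw [add_neg_cancel, AddChar.map_zero_eq_one] at h1
      have h2 : ψ (N.mkQ (Pi.single i 1)) = 0 := h0
      rw [h2, zero_mul] at h1
      exact one_ne_zero h1
    · have h1 : N.mkQ (fun i => (a k i : ℤ)) = 0 := by
        rw [Submodule.mkQ_apply, Submodule.Quotient.mk_eq_zero]
        refine ⟨Pi.single k 1, ?_⟩
        rw [hf, Matrix.toLin'_apply]
        ext i
        simp [hAdef, Matrix.mulVec_single]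
      have h2 := key ψ (fun i => (a k i : ℤ))
      rw [h1, AddChar.map_zero_eq_one] at h2
      rw [h2]
      exact Finset.prod_congr rfl fun i _ => (zpow_natCast _ _).symm

end Clique
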