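import Pool.Agent.Helper74.Circ.Near
import Pool.Agent.Helper74.Clique.Tors

/-!
The torus system of a polynomial with `|X|` monomials in `|X|` variables, and circuits.
-/
namespace Clique
open Finset MvPolynomial Pool.Agent.Helper24.SQ Circ

/-- Limits of polynomials with a given property: nondegenerate zeros of a system depending linearly on the polynomial
persist. -/
theorem exists_near_sys {σ σ' τ : Type} [Fintype σ] [Fintype σ'] [Fintype τ]
    (hcard : Fintype.card τ = Fintype.card σ') (p : MvPolynomial σ ℂ) (Q : MvPolynomial σ ℂ → Prop)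
    (D₀ : ℕ) (hQ : ∀ P, Q P → P.totalDegree ≤ D₀)
    (h : ∀ ε : ℝ, 0 < ε → ∃ P, Q P ∧ ∀ s, ‖P.coeff s - p.coeff s‖ < ε)
    (L : MvPolynomial σ ℂ →ₗ[ℂ] (τ → MvPolynomial σ' ℂ)) (F₀ : τ → MvPolynomial σ' ℂ)
    (Z : Finset (σ' → ℂ)) (hZ : ∀ z ∈ Z, NonDeg (fun j => L p j + F₀ j) z) :
    ∃ (P : MvPolynomial σ ℂ) (Z' : Finset (σ' → ℂ)), Q P ∧ Z'.card = Z.card ∧
      ∀ z ∈ Z', NonDeg (fun j => L P j + F₀ j) z := by
  classical
  set D := max D₀ p.totalDegree with hD
  have hfin : {s : σ →₀ ℕ | (s.sum fun _ e => e) ≤ D}.Finite := by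
    have : {s : σ →₀ ℕ | (s.sum fun _ e => e) ≤ D} ⊆
        ↑(Finset.Iic (Finsupp.equivFunOnFinite.symm fun _ : σ => D)) := by
      intro s hs
      rw [Finset.mem_coe, Finset.mem_Iic]
      intro q
      show s q ≤ D
      refine le_trans ?_ hs
      by_cases hq : q ∈ s.support
      · exact Finset.single_le_sum (f := fun q => s q) (fun _ _ => Nat.zero_le _) hq
      · rw [Finsupp.notMem_support_iff.1 hq]; exact Nat.zero_le _
    exact Set.Finite.subset (Finset.finite_toSet _) this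
  set κ : Finset (σ →₀ ℕ) := hfin.toFinset with hκ
  obtain ⟨ε, hε, hpers⟩ := persist hcard (fun j => L p j + F₀ j)
    (fun k : κ => L (monomial (k : σ →₀ ℕ) (1 : ℂ))) Z hZ
  obtain ⟨P, hP, hPc⟩ := h ε hε
  obtain ⟨Z', hZ', hcrit⟩ := hpers (fun k => P.coeff k - p.coeff k) fun k => hPc _
  refine ⟨P, Z', hP, hZ', fun z hz => ?_⟩
  have hexp : ∀ Q : MvPolynomial σ ℂ, Q.totalDegree ≤ D →
      Q = ∑ k : κ, Q.coeff k • monomial (k : σ →₀ ℕ) (1 : ℂ) := by
    intro Q hQ
    rw [Finset.sum_coe_sort κ (fun k => Q.coeff k • monomial k (1 : ℂ))]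
    conv_lhs => rw [Q.as_sum]
    rw [Finset.sum_subset (s₂ := κ)]
    · refine Finset.sum_congr rfl fun k _ => ?_
      rw [smul_monomial, smul_eq_mul, mul_one]
    · intro k hk
      rw [hκ, Set.Finite.mem_toFinset]
      exact (le_totalDegree hk).trans hQ
    · intro k _ hk
      rw [notMem_support_iff.1 hk, monomial_zero]
  have h1 : L P = L p + ∑ k : κ, (P.coeff k - p.coeff k) • L (monomial (k : σ →₀ ℕ) (1 : ℂ)) := by
    have hPd := hexp P ((hQ P hP).trans (le_max_left _ _))
    have hpd := hexp p (le_max_right _ _)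
    have e : P = p + ∑ k : κ, (P.coeff k - p.coeff k) • monomial (k : σ →₀ ℕ) (1 : ℂ) := by
      simp only [sub_smul]
      rw [Finset.sum_sub_distrib, ← hPd, ← hpd]
      ring
    conv_lhs => rw [e]
    rw [map_add, map_sum]
    simp only [map_smul]
  have h2 := hcrit z hz
  rw [h1]
  convert h2 using 2 with j
  simp only [Pi.add_apply, Finset.sum_apply, Pi.smul_apply]
  ring

section

variable {X : Type} [Fintype X] [DecidableEq X]

/-- The operator `P ↦ (X_i ∂_i P)_i`. -/
noncomputable def TT : MvPolynomial X ℂ →ₗ[ℂ] (X → MvPolynomial X ℂ) :=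
  LinearMap.pi fun i => (LinearMap.mulLeft ℂ (MvPolynomial.X i)).comp (pderiv i).toLinearMap

omit [Fintype X] [DecidableEq X] in
theorem TT_apply (P : MvPolynomial X ℂ) (i : X) : TT P i = MvPolynomial.X i * pderiv i P := rfl

/-- the polynomial -/
noncomputable def spoly (a : X → X → ℕ) (c : X → ℂ) : MvPolynomial X ℂ :=
  ∑ k, C (c k) * ∏ i, MvPolynomial.X i ^ a k i

omit [DecidableEq X] in
theorem spoly_eq (a : X → X → ℕ) (c : X → ℂ) :
    spoly a c = ∑ k, monomial (Finsupp.equivFunOnFinite.symm (a k)) (c k) := by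
  unfold spoly
  refine Finset.sum_congr rfl fun k _ => ?_
  rw [monomial_eq, Finsupp.prod_fintype]
  · rfl
  · intro i
    rw [pow_zero]

theorem TT_spoly (a : X → X → ℕ) (c : X → ℂ) (i : X) :
    TT (spoly a c) i = ∑ k, monomial (Finsupp.equivFunOnFinite.symm (a k)) ((a k i : ℂ) * c k) := by
  rw [TT_apply, spoly_eq, map_sum, Finset.mul_sum]
  refine Finset.sum_congr rfl fun k _ => ?_
  rw [X_mul_pderiv_monomial, smul_monomial, nsmul_eq_mul]
  rfl

omit [DecidableEq X] in
/-- the value of the monomials -/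
theorem eval_mono (a : X → ℕ) (c : ℂ) (z : X → ℂ) (h : ∏ i, z i ^ a i = 1) :
    eval z (monomial (Finsupp.equivFunOnFinite.symm a) c) = c := by
  rw [eval_monomial, Finsupp.prod_fintype _ _ (fun i => pow_zero _)]
  simp only [Finsupp.equivFunOnFinite_symm_apply_apply, h, mul_one]

theorem eval_pderiv_mono (a : X → ℕ) (c : ℂ) (z : X → ℂ) (hz : ∀ i, z i ≠ 0) (h : ∏ i, z i ^ a i = 1) (j : X) :
    eval z (pderiv j (monomial (Finsupp.equivFunOnFinite.symm a) c)) = a j * c / z j := by
  rw [eq_div_iff (hz j), mul_comm]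
  have h1 := congrArg (eval z) (X_mul_pderiv_monomial (m := Finsupp.equivFunOnFinite.symm a) (r := c) (i := j))
  rw [map_mul, eval_X, map_nsmul, eval_mono a c z h] at h1
  rw [h1]
  simp

/-- **Nondegenerate zeros.** -/
theorem nonDeg_TT (a : X → X → ℕ) (hA : (Matrix.of fun k i => (a k i : ℤ)).det ≠ 0) (c : X → ℂ)
    (hc : ∀ k, c k ≠ 0) (z : X → ℂ) (hz : ∀ i, z i ≠ 0) (h : ∀ k, ∏ i, z i ^ a k i = 1) :
    NonDeg (fun i => TT (spoly a c) i + C (-∑ k, (a k i : ℂ) * c k)) z := by
  have hdet : (Matrix.of fun k i => (a k i : ℂ)).det ≠ 0 := by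
    have h1 : (Matrix.of fun k i => (a k i : ℂ)) = (Matrix.of fun k i => (a k i : ℤ)).map (Int.castRingHom ℂ) := by
      ext k i
      simp
    rw [h1, ← RingHom.mapMatrix_apply, ← RingHom.map_det]
    simpa using hA
  constructor
  · intro i
    dsimp only
    rw [TT_spoly, map_add, map_sum, eval_C]
    rw [Finset.sum_congr rfl fun k _ => eval_mono (a k) _ z (h k)]
    ring
  · intro w hw
    set η : X → ℂ := fun j => w j / z j with hη
    have h1 : ∀ i, ∑ k, (a k i : ℂ) * (c k * ∑ j, (a k j : ℂ) * η j) = 0 := by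
      intro i
      have e := hw i
      simp only [TT_spoly, map_add, map_sum, pderiv_C, add_zero] at e
      rw [← e]
      simp only [Finset.sum_mul]
      rw [Finset.sum_comm]
      refine Finset.sum_congr rfl fun k _ => ?_
      rw [Finset.mul_sum, Finset.mul_sum]
      refine Finset.sum_congr rfl fun j _ => ?_
      rw [eval_pderiv_mono (a k) _ z hz (h k), hη]
      ring
    have h2 : (fun k => c k * ∑ j, (a k j : ℂ) * η j) = 0 := by
      have hT : (Matrix.of fun k i => (a k i : ℂ)).transpose.det ≠ 0 := by rwa [Matrix.det_transpose]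
      apply Matrix.eq_zero_of_mulVec_eq_zero hT
      funext i
      exact h1 i
    have h3 : η = 0 := by
      apply Matrix.eq_zero_of_mulVec_eq_zero hdet
      funext k
      exact (mul_eq_zero.1 (congrFun h2 k)).resolve_left (hc k)
    funext j
    have h4 : w j / z j = 0 := congrFun h3 j
    exact (div_eq_zero_iff.1 h4).resolve_right (hz j)

omit [DecidableEq X] in
/-- a family of additional multiplications -/
theorem extend_family {y : ℕ → MvPolynomial X ℂ} {r : ℕ} (hy : IsProg y r) {κ : Type*} (s : Finset κ)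
    (f g : κ → MvPolynomial X ℂ) (hf : ∀ i ∈ s, LinComb y r (f i)) (hg : ∀ i ∈ s, LinComb y r (g i)) :
    ∃ y' : ℕ → MvPolynomial X ℂ, IsProg y' (r + s.card) ∧ (∀ j < r, y' j = y j) ∧
      ∀ i ∈ s, LinComb y' (r + s.card) (f i * g i) := by
  classical
  induction s using Finset.induction_on with
  | empty => exact ⟨y, hy, fun _ _ => rfl, fun i hi => absurd hi (Finset.notMem_empty i)⟩
  | insert a s ha ih =>
    obtain ⟨y₁, hy₁, h1, h2⟩ := ih (fun i hi => hf i (Finset.mem_insert_of_mem hi))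
      fun i hi => hg i (Finset.mem_insert_of_mem hi)
    obtain ⟨y₂, hy₂, h3, h4⟩ := hy₁.extend
      ((hf a (Finset.mem_insert_self a s)).mono (Nat.le_add_right _ _) h1)
      ((hg a (Finset.mem_insert_self a s)).mono (Nat.le_add_right _ _) h1)
    rw [Finset.card_insert_of_notMem ha, ← add_assoc]
    refine ⟨y₂, hy₂, fun j hj => ?_, fun i hi => ?_⟩
    · rw [h3 j (by omega), h1 j hj]
    · rcases Finset.mem_insert.1 hi with rfl | hi'
      · rw [← h4]
        exact LinComb.gate (Nat.lt_succ_self _)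
      · exact (h2 i hi').mono (Nat.le_succ _) h3

/-- circuits: at most `2 ^ (3 r + |X|)` zeros -/
theorem TT_card (P : MvPolynomial X ℂ) (r : ℕ) (hP : MulRep P r) (v : X → ℂ) (Z : Finset (X → ℂ))
    (hZ : ∀ z ∈ Z, NonDeg (fun i => TT P i + C (v i)) z) : Z.card ≤ 2 ^ (3 * r + Fintype.card X) := by
  classical
  obtain ⟨y, hy, _, hd⟩ := baur_strassen P r hP
  obtain ⟨y', hy', _, h1⟩ := extend_family hy (univ : Finset X) (fun i => MvPolynomial.X i) (fun i => pderiv i P)
    (fun i _ => LinComb.var i) (fun i _ => hd i)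
  rw [Finset.card_univ] at hy' h1
  have hb := strassen y' _ hy' (fun i => TT P i + C (v i))
    (fun i => (h1 i (mem_univ i)).add (LinComb.const _)) rfl (fun z : Z => (z : X → ℂ)) Subtype.val_injective
    (fun z i => (hZ z z.2).1 i) (fun z w hw => (hZ z z.2).2 w hw)
  rwa [Fintype.card_coe] at hb

end

/-- **The counting inequality.** If `p` is a limit of polynomials computed with `r` multiplications and an affine
substitution of `p` is `∑ c_k x ^ (a k)` with all `c_k ≠ 0`, then `|det a| ≤ 2 ^ (3 r + |X|)`. -/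
theorem det_le {σ X : Type} [Fintype σ] [Fintype X] [DecidableEq X] (p : MvPolynomial σ ℂ) (r : ℕ)
    (h : ∀ ε : ℝ, 0 < ε → ∃ P : MvPolynomial σ ℂ, MulRep P r ∧ ∀ s, ‖P.coeff s - p.coeff s‖ < ε)
    (f : σ → MvPolynomial X ℂ) (hf : ∀ s, (f s).totalDegree ≤ 1) (a : X → X → ℕ) (c : X → ℂ)
    (hc : ∀ k, c k ≠ 0) (hp : aeval f p = spoly a c) :
    (Matrix.of fun k i => (a k i : ℤ)).det.natAbs ≤ 2 ^ (3 * r + Fintype.card X) := by
  by_cases hA : (Matrix.of fun k i => (a k i : ℤ)).det = 0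
  · rw [hA]
    exact Nat.zero_le _
  obtain ⟨Z, hZc, hZ⟩ := exists_tors a hA
  obtain ⟨P, Z', hP, hZ', h2⟩ := exists_near_sys (τ := X) rfl p (fun P => MulRep P r) (2 ^ r)
    (fun P hP => hP.totalDegree_le) h (TT.comp (aeval f).toLinearMap)
    (fun i => C (-∑ k, (a k i : ℂ) * c k)) Z (by
      intro z hz
      have := nonDeg_TT a hA c hc z (hZ z hz).1 (hZ z hz).2
      simp only [LinearMap.comp_apply, AlgHom.toLinearMap_apply, hp]
      exact this)
  rw [← hZc, ← hZ']
  exact TT_card (aeval f P) r (hP.aeval f hf) _ Z' h2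

end Clique
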