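import Mathlib

/-!
Combinatorics of prefixes: the deficit of a subset with respect to an order.
-/
namespace Clique
open Finset

theorem sum_sub_ge (A : Finset ℕ) :
    ((A \ range A.card).card : ℤ) ≤ ∑ a ∈ A, (a : ℤ) - ∑ a ∈ range A.card, (a : ℤ) := by
  set s := A.card with hs
  set B := range s with hB
  have h1 : ∑ a ∈ A, (a : ℤ) = ∑ a ∈ A \ B, (a : ℤ) + ∑ a ∈ A ∩ B, (a : ℤ) := by
    rw [← Finset.sum_union (Finset.disjoint_sdiff_inter A B), Finset.sdiff_union_inter]
  have h2 : ∑ a ∈ B, (a : ℤ) = ∑ a ∈ B \ A, (a : ℤ) + ∑ a ∈ A ∩ B, (a : ℤ) := by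
    rw [Finset.inter_comm, ← Finset.sum_union (Finset.disjoint_sdiff_inter B A), Finset.sdiff_union_inter]
  have h3 : (A \ B).card = (B \ A).card := by
    have e1 := Finset.card_sdiff_add_card_inter A B
    have e2 := Finset.card_sdiff_add_card_inter B A
    rw [Finset.inter_comm] at e2
    have e3 : B.card = s := by rw [hB, card_range]
    omega
  have h4 : (s : ℤ) * (A \ B).card ≤ ∑ a ∈ A \ B, (a : ℤ) := by
    rw [mul_comm, ← nsmul_eq_mul]
    refine Finset.card_nsmul_le_sum _ _ _ fun a ha => ?_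
    have := (mem_sdiff.1 ha).2
    rw [hB, mem_range, not_lt] at this
    exact_mod_cast this
  have h5 : ∑ a ∈ B \ A, (a : ℤ) ≤ ((s : ℤ) - 1) * (B \ A).card := by
    rw [mul_comm, ← nsmul_eq_mul]
    refine Finset.sum_le_card_nsmul _ _ _ fun a ha => ?_
    have := (mem_sdiff.1 ha).1
    rw [hB, mem_range] at this
    have : (a : ℤ) < s := by exact_mod_cast this
    omega
  rw [h1, h2, ← h3] at *
  nlinarith

section

variable {J : Type} [Fintype J]

/-- number of elements -/
def nt (v : J → Bool) : ℕ := (univ.filter fun h => v h = true).card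

/-- size of the complement -/
def nf (v : J → Bool) : ℕ := (univ.filter fun h => v h = false).card

theorem nt_add_nf (v : J → Bool) : nt v + nf v = Fintype.card J := by
  have h : (univ.filter fun h => v h = false) = univ.filter fun h => ¬ (v h = true) := by
    ext h
    simp
  unfold nt nf
  rw [h, ← Finset.card_univ]
  exact Finset.card_filter_add_card_filter_not _

/-- the weight of a position -/
def wt (σ : J ≃ Fin (Fintype.card J)) (h : J) : ℤ := (Fintype.card J : ℤ) - 1 - 2 * ((σ h : ℕ) : ℤ)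

/-- the deficit -/
def dfc (σ : J ≃ Fin (Fintype.card J)) (v : J → Bool) : ℤ :=
  (nt v : ℤ) * nf v - ∑ h, if v h = true then wt σ h else 0

/-- the set of positions -/
noncomputable def pos (σ : J ≃ Fin (Fintype.card J)) (v : J → Bool) : Finset ℕ :=
  (univ.filter fun h => v h = true).map (σ.toEmbedding.trans Fin.valEmbedding)

theorem card_pos' (σ : J ≃ Fin (Fintype.card J)) (v : J → Bool) : (pos σ v).card = nt v := by
  unfold pos
  rw [card_map]
  rfl

theorem dfc_eq (σ : J ≃ Fin (Fintype.card J)) (v : J → Bool) :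
    dfc σ v = 2 * (∑ a ∈ pos σ v, (a : ℤ) - ∑ a ∈ range (pos σ v).card, (a : ℤ)) := by
  have h1 : ∑ a ∈ pos σ v, (a : ℤ) = ∑ h ∈ univ.filter (fun h => v h = true), ((σ h : ℕ) : ℤ) := by
    unfold pos
    rw [Finset.sum_map]
    rfl
  have h2 : 2 * ∑ a ∈ range (pos σ v).card, (a : ℤ) = (nt v : ℤ) * (nt v - 1) := by
    rw [card_pos']
    have h3 := Finset.sum_range_id_mul_two (nt v)
    have h4 : ((∑ i ∈ range (nt v), i : ℕ) : ℤ) * 2 = ((nt v * (nt v - 1) : ℕ) : ℤ) := by exact_mod_cast h3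
    push_cast at h4
    rw [mul_comm] at h4
    rw [h4]
    rcases Nat.eq_zero_or_pos (nt v) with h0 | h0
    · rw [h0]
      simp
    · rw [Nat.cast_sub h0]
      push_cast
      ring
  have h5 : (Fintype.card J : ℤ) = nt v + nf v := by
    rw [← nt_add_nf v]
    push_cast
    ring
  unfold dfc
  rw [← Finset.sum_filter]
  unfold wt
  rw [Finset.sum_sub_distrib, ← Finset.mul_sum, ← h1, Finset.sum_const, nsmul_eq_mul]
  have h6 : (((univ.filter fun h => v h = true).card : ℕ) : ℤ) = nt v := rfl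
  rw [h6]
  linear_combination h2 - (nt v : ℤ) * h5

theorem dfc_nonneg (σ : J ≃ Fin (Fintype.card J)) (v : J → Bool) : 0 ≤ dfc σ v := by
  rw [dfc_eq]
  have h1 := sum_sub_ge (pos σ v)
  have h2 : (0 : ℤ) ≤ ((pos σ v \ range (pos σ v).card).card : ℤ) := Int.natCast_nonneg _
  linarith

theorem dfc_eq_zero (σ : J ≃ Fin (Fintype.card J)) (v : J → Bool) (h : dfc σ v = 0) (h' : J) :
    v h' = true ↔ (σ h' : ℕ) < nt v := by
  rw [dfc_eq] at h
  have h1 := sum_sub_ge (pos σ v)
  have h2 : ((pos σ v \ range (pos σ v).card).card : ℤ) ≤ 0 := by linarith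
  have h3 : pos σ v \ range (pos σ v).card = ∅ := by
    rw [← Finset.card_eq_zero]
    exact_mod_cast le_antisymm h2 (Int.natCast_nonneg _)
  have h4 : pos σ v = range (pos σ v).card :=
    Finset.eq_of_subset_of_card_le (Finset.sdiff_eq_empty_iff_subset.1 h3) (by rw [card_range])
  rw [card_pos'] at h4
  rw [← mem_range, ← h4]
  unfold pos
  rw [mem_map]
  constructor
  · intro hv
    exact ⟨h', mem_filter.2 ⟨mem_univ _, hv⟩, rfl⟩
  · rintro ⟨h'', hv, e⟩
    have : h'' = h' := σ.injective (Fin.ext e)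
    rw [← this]
    exact (mem_filter.1 hv).2

/-- a prefix -/
def pfx (σ : J ≃ Fin (Fintype.card J)) (j : ℕ) (h : J) : Bool := decide ((σ h : ℕ) < j)

theorem pfx_eq_true (σ : J ≃ Fin (Fintype.card J)) (j : ℕ) (h : J) : pfx σ j h = true ↔ (σ h : ℕ) < j := by
  unfold pfx
  rw [decide_eq_true_iff]

theorem nt_pfx (σ : J ≃ Fin (Fintype.card J)) (j : ℕ) (hj : j ≤ Fintype.card J) : nt (pfx σ j) = j := by
  rw [← card_pos' σ]
  have h : pos σ (pfx σ j) = range j := by
    ext a
    unfold pos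
    rw [mem_map, mem_range]
    constructor
    · rintro ⟨h, hh, rfl⟩
      exact (pfx_eq_true σ j h).1 (mem_filter.1 hh).2
    · intro ha
      refine ⟨σ.symm ⟨a, ha.trans_le hj⟩, mem_filter.2 ⟨mem_univ _, ?_⟩, ?_⟩
      · rw [pfx_eq_true, Equiv.apply_symm_apply]
        exact ha
      · change ((σ (σ.symm ⟨a, ha.trans_le hj⟩) : Fin _) : ℕ) = a
        rw [Equiv.apply_symm_apply]
  rw [h, card_range]

theorem dfc_pfx (σ : J ≃ Fin (Fintype.card J)) (j : ℕ) (hj : j ≤ Fintype.card J) : dfc σ (pfx σ j) = 0 := by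
  rw [dfc_eq]
  have h : pos σ (pfx σ j) = range (pos σ (pfx σ j)).card := by
    rw [card_pos', nt_pfx σ j hj]
    ext a
    unfold pos
    rw [mem_map, mem_range]
    constructor
    · rintro ⟨h, hh, rfl⟩
      exact (pfx_eq_true σ j h).1 (mem_filter.1 hh).2
    · intro ha
      refine ⟨σ.symm ⟨a, ha.trans_le hj⟩, mem_filter.2 ⟨mem_univ _, ?_⟩, ?_⟩
      · rw [pfx_eq_true, Equiv.apply_symm_apply]
        exact ha
      · change ((σ (σ.symm ⟨a, ha.trans_le hj⟩) : Fin _) : ℕ) = a
        rw [Equiv.apply_symm_apply]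
  rw [← h, sub_self, mul_zero]

theorem dfc_eq_zero_iff (σ : J ≃ Fin (Fintype.card J)) (v : J → Bool) :
    dfc σ v = 0 ↔ ∃ j ≤ Fintype.card J, v = pfx σ j := by
  constructor
  · intro h
    refine ⟨nt v, ?_, ?_⟩
    · have := nt_add_nf v
      omega
    · funext h'
      have := dfc_eq_zero σ v h h'
      rw [← pfx_eq_true] at this
      exact Bool.eq_iff_iff.2 this
  · rintro ⟨j, hj, rfl⟩
    exact dfc_pfx σ j hj

end

end Clique
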