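import Pool.Agent.Helper74.Clique.TorB
import Pool.Agent.Helper74.Clique.Persist

/-!
Torus systems: general right hand sides, nondegeneracy, scaling of the variables.
-/
namespace Clique
open Finset MvPolynomial Pool.Agent.Helper24.SQ Circ TorU

section

variable {X : Type} [Fintype X] [DecidableEq X]

theorem prod_zpow0 {ι : Type*} (s : Finset ι) (β : ℂ) (hβ : β ≠ 0) (f : ι → ℤ) :
    ∏ i ∈ s, β ^ f i = β ^ ∑ i ∈ s, f i := by
  classical
  induction s using Finset.induction_on with
  | empty => simp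
  | insert a s ha ih => rw [Finset.prod_insert ha, Finset.sum_insert ha, ih, zpow_add₀ hβ]

/-- an integral multiple of the inverse -/
theorem exists_inv (A : Matrix X X ℤ) (hA : A.det ≠ 0) :
    ∃ (W : Matrix X X ℤ) (D : ℕ), 0 < D ∧ A * W = (D : ℤ) • (1 : Matrix X X ℤ) ∧
      W * A = (D : ℤ) • (1 : Matrix X X ℤ) := by
  refine ⟨A.det.sign • A.adjugate, A.det.natAbs, Int.natAbs_pos.2 hA, ?_, ?_⟩
  · rw [Matrix.mul_smul, Matrix.mul_adjugate, smul_smul, Int.sign_mul_self_eq_natAbs]
  · rw [Matrix.smul_mul, Matrix.adjugate_mul, smul_smul, Int.sign_mul_self_eq_natAbs]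

/-- binomial systems with arbitrary right hand sides -/
theorem exists_tors_b (a : X → X → ℕ) (hA : (Matrix.of fun k i => (a k i : ℤ)).det ≠ 0) (b : X → ℂ)
    (hb : ∀ k, b k ≠ 0) :
    ∃ Z : Finset (X → ℂ), Z.card = (Matrix.of fun k i => (a k i : ℤ)).det.natAbs ∧
      ∀ z ∈ Z, (∀ i, z i ≠ 0) ∧ ∀ k, ∏ i, z i ^ a k i = b k := by
  classical
  obtain ⟨W, D, hD, hAW, _⟩ := exists_inv _ hA
  have hroot : ∀ k, ∃ β : ℂ, β ^ D = b k := fun k => IsAlgClosed.exists_pow_nat_eq (b k) hD
  choose β hβ using hroot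
  have hβ0 : ∀ k, β k ≠ 0 := by
    intro k h
    apply hb k
    rw [← hβ k, h, zero_pow hD.ne']
  set z₀ : X → ℂ := fun i => ∏ k, β k ^ W i k with hz₀
  have hz0 : ∀ i, z₀ i ≠ 0 := fun i => Finset.prod_ne_zero_iff.2 fun k _ => zpow_ne_zero _ (hβ0 k)
  have hsol : ∀ k, ∏ i, z₀ i ^ a k i = b k := by
    intro k
    have h1 : ∏ i, z₀ i ^ a k i = ∏ l, β l ^ (∑ i, (a k i : ℤ) * W i l) := by
      have h2 : ∀ i, z₀ i ^ a k i = ∏ l, β l ^ ((a k i : ℤ) * W i l) := by
        intro i
        rw [hz₀]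
        simp only
        rw [← Finset.prod_pow]
        refine Finset.prod_congr rfl fun l _ => ?_
        rw [← zpow_natCast, ← zpow_mul, mul_comm]
      simp_rw [h2]
      rw [Finset.prod_comm]
      refine Finset.prod_congr rfl fun l _ => ?_
      exact prod_zpow0 _ _ (hβ0 l) _
    rw [h1]
    have h3 : ∀ l, ∑ i, (a k i : ℤ) * W i l = if k = l then (D : ℤ) else 0 := by
      intro l
      have := congrFun (congrFun hAW k) l
      rw [Matrix.mul_apply] at this
      simp only [Matrix.of_apply, Matrix.smul_apply, Matrix.one_apply, smul_eq_mul, mul_ite, mul_one,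
        mul_zero] at this
      exact this
    simp_rw [h3]
    rw [Finset.prod_eq_single k]
    · rw [if_pos rfl, zpow_natCast, hβ]
    · intro l _ hl
      rw [if_neg (Ne.symm hl), zpow_zero]
    · simp
  obtain ⟨Z, hZc, hZ⟩ := exists_tors a hA
  have hinj : Function.Injective fun (z : X → ℂ) (i : X) => z₀ i * z i := by
    intro z z' h
    funext i
    exact mul_left_cancel₀ (hz0 i) (congrFun h i)
  refine ⟨Z.map ⟨_, hinj⟩, by rw [Finset.card_map, hZc], fun z hz => ?_⟩
  obtain ⟨z', hz', rfl⟩ := Finset.mem_map.1 hz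
  refine ⟨fun i => mul_ne_zero (hz0 i) ((hZ z' hz').1 i), fun k => ?_⟩
  simp only [Function.Embedding.coeFn_mk, mul_pow, Finset.prod_mul_distrib, hsol, (hZ z' hz').2, mul_one]

omit [DecidableEq X] in
/-- the monomials at a point -/
theorem eval_mono' (a : X → ℕ) (c : ℂ) (z : X → ℂ) :
    eval z (monomial (Finsupp.equivFunOnFinite.symm a) c) = c * ∏ i, z i ^ a i := by
  rw [eval_monomial, Finsupp.prod_fintype _ _ (fun i => pow_zero _)]
  simp only [Finsupp.equivFunOnFinite_symm_apply_apply]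

theorem eval_pderiv_mono' (a : X → ℕ) (c : ℂ) (z : X → ℂ) (hz : ∀ i, z i ≠ 0) (j : X) :
    eval z (pderiv j (monomial (Finsupp.equivFunOnFinite.symm a) c)) = a j * (c * ∏ i, z i ^ a i) / z j := by
  rw [eq_div_iff (hz j), mul_comm]
  have h1 := congrArg (eval z) (X_mul_pderiv_monomial (m := Finsupp.equivFunOnFinite.symm a) (r := c) (i := j))
  rw [map_mul, eval_X, map_nsmul, eval_mono' a c z] at h1
  rw [h1]
  simp

/-- nondegenerate zeros of the system of `c₀ + ∑ c_k x ^ (a k)` -/
theorem nonDeg_gen [Nonempty X] (a : X → X → ℕ) (hA : (Matrix.of fun k i => (a k i : ℤ)).det ≠ 0) (c : X → ℂ)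
    (c₀ : ℂ) (hc₀ : c₀ ≠ 0) (v : X → ℂ) (z : X → ℂ) (hz : ∀ i, z i ≠ 0) (m : X → ℂ) (hm0 : ∀ k, m k ≠ 0)
    (hm : ∀ k, c k * ∏ i, z i ^ a k i = m k) (l : ℂ) (hl : l ≠ 0) (hv : ∀ i, ∑ k, (a k i : ℂ) * m k = l * v i)
    (hs : c₀ + ∑ k, m k = 0) :
    NonDeg (fun j => LT (spoly a c + C c₀) j + FT v j) (Sum.elim z fun b => if b then l⁻¹ else l) := by
  have hdet : (Matrix.of fun k i => (a k i : ℂ)).det ≠ 0 := by
    have h1 : (Matrix.of fun k i => (a k i : ℂ)) = (Matrix.of fun k i => (a k i : ℤ)).map (Int.castRingHom ℂ) := by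
      ext k i
      simp
    rw [h1, ← RingHom.mapMatrix_apply, ← RingHom.map_det]
    simpa using hA
  have hpd : ∀ i, pderiv i (spoly a c + C c₀) = pderiv i (spoly a c) := by
    intro i
    rw [map_add, pderiv_C, add_zero]
  have hX : ∀ i, z i * eval z (pderiv i (spoly a c + C c₀)) = ∑ k, (a k i : ℂ) * m k := by
    intro i
    rw [hpd]
    have h1 : z i * eval z (pderiv i (spoly a c)) = eval z (TT (spoly a c) i) := by
      rw [TT_apply, map_mul, eval_X]
    rw [h1, TT_spoly, map_sum]
    refine Finset.sum_congr rfl fun k _ => ?_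
    rw [eval_mono', mul_assoc, hm]
  have hD : ∀ (u : X → ℂ) (i : X), u i * eval z (pderiv i (spoly a c + C c₀)) +
      z i * ∑ j, eval z (pderiv j (pderiv i (spoly a c + C c₀))) * u j =
        ∑ k, (a k i : ℂ) * (m k * ∑ j, (a k j : ℂ) * (u j / z j)) := by
    intro u i
    have h1 : u i * eval z (pderiv i (spoly a c + C c₀)) +
        z i * ∑ j, eval z (pderiv j (pderiv i (spoly a c + C c₀))) * u j =
        dl z u (TT (spoly a c) i) := by
      rw [TT_apply, dl_mul, dl_X, eval_X, dl_eq, hpd]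
    rw [h1, TT_spoly, dl_sum]
    refine Finset.sum_congr rfl fun k _ => ?_
    rw [dl_eq, Finset.mul_sum, Finset.mul_sum]
    refine Finset.sum_congr rfl fun j _ => ?_
    rw [eval_pderiv_mono' (a k) _ z hz, mul_assoc, hm]
    ring
  rw [nonDeg_iff]
  simp only [Sum.elim_inl, Sum.elim_inr, Bool.false_eq_true, if_false, if_true]
  refine ⟨⟨fun i => by rw [hX i, hv i, mul_comm], ?_, mul_inv_cancel₀ hl⟩, ?_⟩
  · rw [map_add, eval_C, spoly_eq, map_sum]
    have h1 : ∀ k, eval z (monomial (Finsupp.equivFunOnFinite.symm (a k)) (c k)) = m k := fun k => by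
      rw [eval_mono', hm]
    simp_rw [h1]
    rw [add_comm]
    exact hs
  · intro w hw1 hw2 hw3
    set δ := w (Sum.inr false) with hδ
    have hw4 : ∀ i, ∑ k, (a k i : ℂ) * (m k * ((∑ j, (a k j : ℂ) * (w (Sum.inl j) / z j)) - δ / l)) = 0 := by
      intro i
      have e := hw1 i
      rw [hD (fun j => w (Sum.inl j)) i] at e
      simp only [mul_sub, Finset.sum_sub_distrib, e]
      have e2 : ∑ k, (a k i : ℂ) * (m k * (δ / l)) = (∑ k, (a k i : ℂ) * m k) * (δ / l) := by
        rw [Finset.sum_mul]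
        exact Finset.sum_congr rfl fun k _ => by ring
      rw [e2, hv i]
      field_simp
      ring
    have h2 : (fun k => m k * ((∑ j, (a k j : ℂ) * (w (Sum.inl j) / z j)) - δ / l)) = 0 := by
      have hT : (Matrix.of fun k i => (a k i : ℂ)).transpose.det ≠ 0 := by rwa [Matrix.det_transpose]
      apply Matrix.eq_zero_of_mulVec_eq_zero hT
      funext i
      exact hw4 i
    have h3 : ∀ k, ∑ j, (a k j : ℂ) * (w (Sum.inl j) / z j) = δ / l := fun k =>
      sub_eq_zero.1 ((mul_eq_zero.1 (congrFun h2 k)).resolve_left (hm0 k))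
    have h4 : δ = 0 := by
      have e : ∑ i, eval z (pderiv i (spoly a c + C c₀)) * w (Sum.inl i) =
          ∑ k, m k * ∑ j, (a k j : ℂ) * (w (Sum.inl j) / z j) := by
        simp_rw [Finset.mul_sum]
        rw [Finset.sum_comm]
        refine Finset.sum_congr rfl fun i _ => ?_
        have e3 : eval z (pderiv i (spoly a c + C c₀)) = (∑ k, (a k i : ℂ) * m k) / z i := by
          rw [← hX i, mul_div_cancel_left₀ _ (hz i)]
        rw [e3, Finset.sum_div, Finset.sum_mul]
        refine Finset.sum_congr rfl fun k _ => ?_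
        ring
      rw [e] at hw2
      simp_rw [h3] at hw2
      rw [← Finset.sum_mul] at hw2
      have h5 : ∑ k, m k ≠ 0 := by
        intro h0
        rw [h0, add_zero] at hs
        exact hc₀ hs
      have h6 := (mul_eq_zero.1 hw2).resolve_left h5
      exact (div_eq_zero_iff.1 h6).resolve_right hl
    have h5 : (fun j => w (Sum.inl j) / z j) = 0 := by
      apply Matrix.eq_zero_of_mulVec_eq_zero hdet
      funext k
      refine (h3 k).trans ?_
      rw [h4, zero_div]
      rfl
    funext j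
    rcases j with i | _ | _
    · exact (div_eq_zero_iff.1 (congrFun h5 i)).resolve_right (hz i)
    · exact h4
    · rw [h4, zero_mul, zero_add] at hw3
      exact (mul_eq_zero.1 hw3).resolve_left hl

/-! ### scaling of the variables -/

/-- the scaling -/
noncomputable def scl (s : X → ℂ) : MvPolynomial X ℂ →ₐ[ℂ] MvPolynomial X ℂ :=
  aeval fun i => C (s i) * MvPolynomial.X i

omit [Fintype X] [DecidableEq X] in
theorem eval_scl (s z : X → ℂ) (P : MvPolynomial X ℂ) : eval z (scl s P) = eval (fun i => s i * z i) P := by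
  have h : ((aeval z : MvPolynomial X ℂ →ₐ[ℂ] ℂ)).comp (scl s) = aeval fun i => s i * z i := by
    ext i
    simp [scl]
  have := DFunLike.congr_fun h P
  simpa [aeval_eq_eval] using this

omit [Fintype X] in
theorem pderiv_scl (s : X → ℂ) (i : X) (P : MvPolynomial X ℂ) :
    pderiv i (scl s P) = C (s i) * scl s (pderiv i P) := by
  induction P using MvPolynomial.induction_on with
  | C a => simp [scl]
  | add p q hp hq => rw [map_add, map_add, hp, hq, map_add, map_add, mul_add]
  | mul_X p j hp =>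
    rw [map_mul, Derivation.leibniz, Derivation.leibniz, hp, map_add, smul_eq_mul, smul_eq_mul, smul_eq_mul,
      smul_eq_mul, map_mul, map_mul]
    have h1 : scl s (MvPolynomial.X j) = C (s j) * MvPolynomial.X j := by simp [scl]
    rw [h1, Derivation.leibniz, pderiv_C, smul_zero, add_zero, smul_eq_mul, pderiv_X]
    by_cases hij : i = j
    · subst hij
      rw [Pi.single_eq_same, map_one]
      ring
    · rw [Pi.single_eq_of_ne (Ne.symm hij), map_zero]
      ring

theorem nonDeg_scl (P : MvPolynomial X ℂ) (v s : X → ℂ) (hs : ∀ i, s i ≠ 0) (Z : X ⊕ Bool → ℂ)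
    (h : NonDeg (fun j => LT (scl s P) j + FT v j) Z) :
    NonDeg (fun j => LT P j + FT v j) (Sum.elim (fun i => s i * Z (Sum.inl i)) fun b => Z (Sum.inr b)) := by
  obtain ⟨⟨h1, h2, h3⟩, h4⟩ := (nonDeg_iff _ v Z).1 h
  rw [nonDeg_iff]
  simp only [Sum.elim_inl, Sum.elim_inr]
  have e1 : ∀ i, eval (fun i => Z (Sum.inl i)) (pderiv i (scl s P)) =
      s i * eval (fun i => s i * Z (Sum.inl i)) (pderiv i P) := by
    intro i
    rw [pderiv_scl, map_mul, eval_C, eval_scl]
  have e2 : ∀ i j, eval (fun i => Z (Sum.inl i)) (pderiv j (pderiv i (scl s P))) =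
      s i * s j * eval (fun i => s i * Z (Sum.inl i)) (pderiv j (pderiv i P)) := by
    intro i j
    rw [pderiv_scl, Derivation.leibniz, pderiv_C, smul_zero, add_zero, pderiv_scl, smul_eq_mul, map_mul, map_mul,
      eval_C, eval_C, eval_scl, mul_assoc]
  refine ⟨⟨fun i => ?_, ?_, h3⟩, ?_⟩
  · rw [← h1 i, e1]
    ring
  · rw [← h2, eval_scl]
  · intro w hw1 hw2 hw3
    have h5 := h4 (Sum.elim (fun i => w (Sum.inl i) / s i) fun b => w (Sum.inr b)) ?_ ?_ ?_
    · funext j
      rcases j with i | b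
      · exact (div_eq_zero_iff.1 (congrFun h5 (Sum.inl i))).resolve_right (hs i)
      · exact congrFun h5 (Sum.inr b)
    · intro i
      simp only [Sum.elim_inl, Sum.elim_inr]
      rw [← hw1 i, e1]
      have e3 : ∑ j, eval (fun i => Z (Sum.inl i)) (pderiv j (pderiv i (scl s P))) * (w (Sum.inl j) / s j) =
          s i * ∑ j, eval (fun i => s i * Z (Sum.inl i)) (pderiv j (pderiv i P)) * w (Sum.inl j) := by
        rw [Finset.mul_sum]
        refine Finset.sum_congr rfl fun j _ => ?_
        rw [e2]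
        have := hs j
        field_simp
      rw [e3]
      have := hs i
      field_simp
    · simp only [Sum.elim_inl]
      rw [← hw2]
      refine Finset.sum_congr rfl fun i _ => ?_
      rw [e1]
      have := hs i
      field_simp
    · simpa only [Sum.elim_inr] using hw3

end

end Clique
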