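import Pool.Agent.Helper74.Clique.Comb
import Pool.Agent.Helper74.Clique.TorGen

/-!
The polynomials `PP`, the exponent matrices of the limits, and their determinants.
-/
namespace Clique
open Finset MvPolynomial Matrix Kronecker

section

variable {R J : Type} [Fintype R] [DecidableEq R] [Fintype J] [DecidableEq J]

/-- the exponents -/
def exq (S : R → R → ℕ) (ρ : R) (v : J → Bool) (x : R × J) : ℕ := S ρ x.1 * (if v x.2 = true then 1 else 0)

/-- the polynomial of the gadget graph -/
noncomputable def PP (S : R → R → ℕ) (c : R → (J → Bool) → ℂ) (t : ℂ) : MvPolynomial (R × J) ℂ :=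
  ∑ ρ, ∑ v : J → Bool, C (c ρ v * t ^ (nt v * nf v)) * ∏ x : R × J, X x ^ (S ρ x.1 * (if v x.2 = true then 1 else 0))

theorem PP_eq (S : R → R → ℕ) (c : R → (J → Bool) → ℂ) (t : ℂ) :
    PP S c t = ∑ ρ, ∑ v : J → Bool, C (c ρ v * t ^ (nt v * nf v)) * ∏ x : R × J, X x ^ exq S ρ v x := rfl

/-- the exponents in the limit -/
def asg (S : R → R → ℕ) (σ : R → (J ≃ Fin (Fintype.card J))) (k x : R × J) : ℕ :=
  exq S k.1 (pfx (σ k.1) (((σ k.1 k.2 : Fin _) : ℕ) + 1)) x

omit [Fintype R] [DecidableEq R] [DecidableEq J] in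
theorem asg_eq (S : R → R → ℕ) (σ : R → (J ≃ Fin (Fintype.card J))) (k x : R × J) :
    asg S σ k x = S k.1 x.1 * (if σ k.1 x.2 ≤ σ k.1 k.2 then 1 else 0) := by
  unfold asg exq
  have h : (pfx (σ k.1) (((σ k.1 k.2 : Fin _) : ℕ) + 1) x.2 = true) ↔ σ k.1 x.2 ≤ σ k.1 k.2 := by
    rw [pfx_eq_true, Nat.lt_succ_iff, Fin.le_def]
  by_cases h1 : σ k.1 x.2 ≤ σ k.1 k.2
  · rw [if_pos (h.2 h1), if_pos h1]
  · rw [if_neg (fun h2 => h1 (h.1 h2)), if_neg h1]

/-- the triangular matrix of an order -/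
def UU (σ : J ≃ Fin (Fintype.card J)) : Matrix J J ℤ := Matrix.of fun h h' => if σ h' ≤ σ h then 1 else 0

theorem det_UU (σ : J ≃ Fin (Fintype.card J)) : (UU σ).det = 1 := by
  have h : UU σ = (Matrix.of fun i j : Fin (Fintype.card J) => if j ≤ i then (1 : ℤ) else 0).submatrix σ σ := by
    ext i j
    rfl
  rw [h, Matrix.det_submatrix_equiv_self, Matrix.det_of_isLowerTriangular]
  · simp
  · intro i j hij
    have : i < j := hij
    rw [Matrix.of_apply, if_neg (not_le.2 this)]

theorem asg_matrix (S : R → R → ℕ) (σ : R → (J ≃ Fin (Fintype.card J))) :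
    (Matrix.of fun k x => (asg S σ k x : ℤ)) =
      ((Matrix.blockDiagonal fun ρ => UU (σ ρ)).submatrix Prod.swap Prod.swap) *
        ((Matrix.of fun a b => (S a b : ℤ)) ⊗ₖ (1 : Matrix J J ℤ)) := by
  ext ⟨ρ, h⟩ ⟨g, h'⟩
  rw [Matrix.mul_apply, Fintype.sum_prod_type]
  simp only [Matrix.submatrix_apply, Prod.swap_prod_mk, Matrix.blockDiagonal_apply, Matrix.kroneckerMap_apply,
    Matrix.of_apply, Matrix.one_apply]
  rw [Finset.sum_eq_single ρ]
  · rw [Finset.sum_eq_single h']
    · simp only [if_true, mul_one]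
      rw [asg_eq, UU, Matrix.of_apply]
      push_cast
      ring
    · intro b _ hb
      rw [if_neg hb, mul_zero, mul_zero]
    · intro h
      exact absurd (mem_univ _) h
  · intro b _ hb
    refine Finset.sum_eq_zero fun x _ => ?_
    rw [if_neg (Ne.symm hb), zero_mul]
  · intro h
    exact absurd (mem_univ _) h

theorem det_asg (S : R → R → ℕ) (σ : R → (J ≃ Fin (Fintype.card J))) :
    (Matrix.of fun k x => (asg S σ k x : ℤ)).det = (Matrix.of fun a b => (S a b : ℤ)).det ^ Fintype.card J := by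
  rw [asg_matrix, Matrix.det_mul, Matrix.det_kronecker, Matrix.det_one, one_pow, mul_one]
  have h : ((Matrix.blockDiagonal fun ρ => UU (σ ρ)).submatrix Prod.swap Prod.swap :
      Matrix (R × J) (R × J) ℤ).det = 1 := by
    have h1 := Matrix.det_submatrix_equiv_self (Equiv.prodComm R J) (Matrix.blockDiagonal fun ρ => UU (σ ρ))
    have h2 : ((Matrix.blockDiagonal fun ρ => UU (σ ρ)).submatrix (Equiv.prodComm R J) (Equiv.prodComm R J) :
      Matrix (R × J) (R × J) ℤ) = (Matrix.blockDiagonal fun ρ => UU (σ ρ)).submatrix Prod.swap Prod.swap := rfl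
    rw [← h2, h1, Matrix.det_blockDiagonal]
    exact Finset.prod_eq_one fun ρ _ => det_UU (σ ρ)
  rw [h, one_mul]

/-- the subsets with deficit zero are the prefixes -/
theorem sum_dfc {M : Type*} [AddCommMonoid M] (σ : J ≃ Fin (Fintype.card J)) (f : (J → Bool) → M) :
    ∑ v, (if dfc σ v = 0 then f v else 0) = f (fun _ => false) + ∑ h, f (pfx σ (((σ h : Fin _) : ℕ) + 1)) := by
  classical
  rw [← Finset.sum_filter]
  have h1 : univ.filter (fun v => dfc σ v = 0) = (range (Fintype.card J + 1)).image (pfx σ) := by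
    ext v
    rw [mem_filter, mem_image, dfc_eq_zero_iff]
    constructor
    · rintro ⟨_, j, hj, rfl⟩
      exact ⟨j, mem_range.2 (by omega), rfl⟩
    · rintro ⟨j, hj, rfl⟩
      exact ⟨mem_univ _, j, by have := mem_range.1 hj; omega, rfl⟩
  rw [h1, Finset.sum_image, Finset.sum_range_succ']
  · have e0 : pfx σ 0 = fun _ => false := by
      funext h
      unfold pfx
      simp
    rw [e0, ← Fin.sum_univ_eq_sum_range (fun j => f (pfx σ (j + 1))), ← Equiv.sum_comp σ]
    exact add_comm _ _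
  · intro a ha b hb hab
    have ha' : a ≤ Fintype.card J := by
      have := mem_range.1 (mem_coe.1 ha)
      omega
    have hb' : b ≤ Fintype.card J := by
      have := mem_range.1 (mem_coe.1 hb)
      omega
    rw [← nt_pfx σ a ha', ← nt_pfx σ b hb', hab]

end

end Clique
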