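import Pool.Agent.Helper74.Clique.DegA

/-!
Nondegenerate zeros of the limits.
-/
namespace Clique
open Finset MvPolynomial Matrix Pool.Agent.Helper24.SQ

theorem tele (y : ℕ → ℂ) (a n : ℕ) (h : a ≤ n) :
    ∑ j ∈ range n, (if a ≤ j then y j - y (j + 1) else 0) = y a - y n := by
  induction n, h using Nat.le_induction with
  | base =>
    rw [sub_self]
    refine Finset.sum_eq_zero fun j hj => ?_
    rw [if_neg (not_le.2 (mem_range.1 hj))]
  | succ n hn ih =>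
    rw [Finset.sum_range_succ, ih, if_pos hn]
    ring

section

variable {R J : Type} [Fintype R] [DecidableEq R] [Fintype J] [DecidableEq J]

/-- distinct positive numbers -/
noncomputable def YJ (h : J) : ℂ := ((Fintype.equivFin J h : Fin _) : ℕ) + 1

omit [DecidableEq J] in
theorem YJ_ne_zero (h : J) : YJ h ≠ 0 := by
  unfold YJ
  exact Nat.cast_add_one_ne_zero _

omit [DecidableEq J] in
theorem YJ_inj : Function.Injective (YJ : J → ℂ) := by
  intro h h' e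
  unfold YJ at e
  have e1 : ((Fintype.equivFin J h : Fin _) : ℕ) = ((Fintype.equivFin J h' : Fin _) : ℕ) := by
    have := add_right_cancel e
    exact_mod_cast this
  exact (Fintype.equivFin J).injective (Fin.ext e1)

/-- the numbers in the given order, and zero -/
noncomputable def yy (σ : J ≃ Fin (Fintype.card J)) (j : ℕ) : ℂ :=
  if hj : j < Fintype.card J then YJ (σ.symm ⟨j, hj⟩) else 0

omit [DecidableEq J] in
theorem yy_apply (σ : J ≃ Fin (Fintype.card J)) (h : J) : yy σ ((σ h : Fin _) : ℕ) = YJ h := by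
  unfold yy
  rw [dif_pos (σ h).2]
  congr 1
  exact (Equiv.symm_apply_eq _).2 (Fin.ext rfl)

omit [DecidableEq J] in
theorem yy_card (σ : J ≃ Fin (Fintype.card J)) : yy σ (Fintype.card J) = 0 := by
  unfold yy
  rw [dif_neg (lt_irrefl _)]

omit [DecidableEq J] in
theorem yy_sub_ne_zero (σ : J ≃ Fin (Fintype.card J)) (h : J) :
    yy σ ((σ h : Fin _) : ℕ) - yy σ (((σ h : Fin _) : ℕ) + 1) ≠ 0 := by
  rw [yy_apply]
  by_cases h1 : ((σ h : Fin _) : ℕ) + 1 < Fintype.card J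
  · unfold yy
    rw [dif_pos h1, sub_ne_zero]
    intro e
    have e1 := YJ_inj e
    have e2 : σ h = ⟨((σ h : Fin _) : ℕ) + 1, h1⟩ := by
      conv_lhs => rw [e1]
      rw [Equiv.apply_symm_apply]
    have e3 := congrArg Fin.val e2
    simp only at e3
    omega
  · unfold yy
    rw [dif_neg h1, sub_zero]
    exact YJ_ne_zero h

/-- the point of the base -/
noncomputable def vv (S : R → R → ℕ) (x : R × J) : ℂ := ((∑ ρ, S ρ x.1 : ℕ) : ℂ) * YJ x.2

omit [DecidableEq J] in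
theorem vv_ne_zero (S : R → R → ℕ) (hS : (Matrix.of fun a b => (S a b : ℤ)).det ≠ 0) (x : R × J) : vv S x ≠ 0 := by
  unfold vv
  refine mul_ne_zero ?_ (YJ_ne_zero _)
  intro h
  apply hS
  refine Matrix.det_eq_zero_of_column_eq_zero x.1 fun k => ?_
  have h1 : ∑ ρ, S ρ x.1 = 0 := by exact_mod_cast h
  rw [Matrix.of_apply]
  exact_mod_cast Finset.sum_eq_zero_iff.1 h1 k (mem_univ k)

/-- the values of the monomials -/
noncomputable def mm (σ : R → (J ≃ Fin (Fintype.card J))) (l : ℂ) (k : R × J) : ℂ :=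
  l * (yy (σ k.1) ((σ k.1 k.2 : Fin _) : ℕ) - yy (σ k.1) (((σ k.1 k.2 : Fin _) : ℕ) + 1))

omit [DecidableEq R] [DecidableEq J] in
theorem sum_mm_aux (σ : R → (J ≃ Fin (Fintype.card J))) (l : ℂ) (ρ : R) (a : ℕ) (ha : a ≤ Fintype.card J) :
    ∑ h, (if a ≤ ((σ ρ h : Fin _) : ℕ) then mm σ l (ρ, h) else 0) = l * yy (σ ρ) a := by
  have h1 : ∑ h, (if a ≤ ((σ ρ h : Fin _) : ℕ) then mm σ l (ρ, h) else 0) =
      ∑ j : Fin (Fintype.card J), (if a ≤ (j : ℕ) then l * (yy (σ ρ) j - yy (σ ρ) (j + 1)) else 0) := by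
    rw [← Equiv.sum_comp (σ ρ)]
    rfl
  rw [h1, Fin.sum_univ_eq_sum_range (fun j => if a ≤ j then l * (yy (σ ρ) j - yy (σ ρ) (j + 1)) else 0)]
  have h2 : ∀ j, (if a ≤ j then l * (yy (σ ρ) j - yy (σ ρ) (j + 1)) else 0) =
      l * (if a ≤ j then yy (σ ρ) j - yy (σ ρ) (j + 1) else 0) := by
    intro j
    split_ifs
    · rfl
    · rw [mul_zero]
  simp_rw [h2]
  rw [← Finset.mul_sum, tele _ _ _ ha, yy_card, sub_zero]

omit [DecidableEq R] [DecidableEq J] in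
theorem sum_mm1 (S : R → R → ℕ) (σ : R → (J ≃ Fin (Fintype.card J))) (l : ℂ) (x : R × J) :
    ∑ k, (asg S σ k x : ℂ) * mm σ l k = l * vv S x := by
  rw [Fintype.sum_prod_type]
  have h1 : ∀ ρ, ∑ h, (asg S σ (ρ, h) x : ℂ) * mm σ l (ρ, h) = (S ρ x.1 : ℂ) * (l * YJ x.2) := by
    intro ρ
    rw [← yy_apply (σ ρ) x.2, ← sum_mm_aux σ l ρ _ (σ ρ x.2).2.le, Finset.mul_sum]
    refine Finset.sum_congr rfl fun h _ => ?_
    rw [asg_eq]
    simp only [Fin.le_def]
    split_ifs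
    · simp
    · simp
  simp_rw [h1]
  rw [← Finset.sum_mul]
  unfold vv
  push_cast
  ring

omit [DecidableEq R] [DecidableEq J] in
theorem sum_mm2 (σ : R → (J ≃ Fin (Fintype.card J))) (l : ℂ) :
    ∑ k, mm σ l k = l * ∑ ρ, yy (σ ρ) 0 := by
  rw [Fintype.sum_prod_type, Finset.mul_sum]
  refine Finset.sum_congr rfl fun ρ _ => ?_
  rw [← sum_mm_aux σ l ρ 0 (Nat.zero_le _)]
  refine Finset.sum_congr rfl fun h _ => ?_
  rw [if_pos (Nat.zero_le _)]

omit [DecidableEq R] [DecidableEq J] in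
theorem sum_yy_ne_zero [Nonempty R] [Nonempty J] (σ : R → (J ≃ Fin (Fintype.card J))) : ∑ ρ, yy (σ ρ) 0 ≠ 0 := by
  have h1 : ∀ ρ, yy (σ ρ) 0 = (((Fintype.equivFin J ((σ ρ).symm ⟨0, Fintype.card_pos⟩) : Fin _) : ℕ) + 1 : ℕ) := by
    intro ρ
    unfold yy
    rw [dif_pos Fintype.card_pos]
    unfold YJ
    push_cast
    rfl
  simp_rw [h1]
  rw [← Nat.cast_sum]
  have h2 : 0 < ∑ ρ, (((Fintype.equivFin J ((σ ρ).symm ⟨0, Fintype.card_pos⟩) : Fin _) : ℕ) + 1) :=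
    Finset.sum_pos (fun ρ _ => Nat.succ_pos _) univ_nonempty
  exact_mod_cast h2.ne'

/-- nondegenerate zeros of the limits -/
theorem nonDeg_G [Nonempty R] [Nonempty J] (S : R → R → ℕ) (hS : (Matrix.of fun a b => (S a b : ℤ)).det ≠ 0)
    (σ : R → (J ≃ Fin (Fintype.card J))) (c : R × J → ℂ) (hc : ∀ k, c k ≠ 0) :
    ∃ Z : Finset ((R × J) ⊕ Bool → ℂ),
      Z.card = (Matrix.of fun a b => (S a b : ℤ)).det.natAbs ^ Fintype.card J ∧
      ∀ z ∈ Z, (∀ i, z (Sum.inl i) ≠ 0) ∧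
        NonDeg (fun j => LT (spoly (asg S σ) c + C (Fintype.card R : ℂ)) j + FT (vv S) j) z := by
  have hA : (Matrix.of fun k x => (asg S σ k x : ℤ)).det ≠ 0 := by
    rw [det_asg]
    exact pow_ne_zero _ hS
  have hR : (Fintype.card R : ℂ) ≠ 0 := by exact_mod_cast Fintype.card_ne_zero
  set l : ℂ := - (Fintype.card R : ℂ) / ∑ ρ, yy (σ ρ) 0 with hl
  have hl0 : l ≠ 0 := div_ne_zero (neg_ne_zero.2 hR) (sum_yy_ne_zero σ)
  have hm0 : ∀ k, mm σ l k ≠ 0 := fun k => mul_ne_zero hl0 (yy_sub_ne_zero _ _)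
  obtain ⟨Z, hZc, hZ⟩ := exists_tors_b (asg S σ) hA (fun k => mm σ l k / c k) fun k => div_ne_zero (hm0 k) (hc k)
  have hinj : Function.Injective fun z : R × J → ℂ => (Sum.elim z fun b : Bool => if b then l⁻¹ else l) := by
    intro z z' h
    funext i
    exact congrFun h (Sum.inl i)
  refine ⟨Z.map ⟨_, hinj⟩, ?_, fun z hz => ?_⟩
  · rw [Finset.card_map, hZc, det_asg, Int.natAbs_pow]
  · obtain ⟨z', hz', rfl⟩ := Finset.mem_map.1 hz
    obtain ⟨hz1, hz2⟩ := hZ z' hz'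
    refine ⟨fun i => hz1 i, ?_⟩
    refine nonDeg_gen (asg S σ) hA c _ hR (vv S) z' hz1 (mm σ l) hm0 (fun k => ?_) l hl0 (sum_mm1 S σ l) ?_
    · rw [hz2 k]
      exact mul_div_cancel₀ _ (hc k)
    · rw [sum_mm2, hl, div_mul_cancel₀ _ (sum_yy_ne_zero σ)]
      ring

end

end Clique
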