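import Pool.Agent.Helper74.Clique.DegB

/-!
The number of nondegenerate zeros for the polynomial of the gadget graph.
-/
namespace Clique
open Finset MvPolynomial Matrix Pool.Agent.Helper24.SQ Filter Topology

section

variable {R J : Type} [Fintype R] [DecidableEq R] [Fintype J] [DecidableEq J]

/-- the linear form -/
def LL (W : Matrix R R ℤ) (σ : R → (J ≃ Fin (Fintype.card J))) (x : R × J) : ℤ := ∑ ρ, W x.1 ρ * wt (σ ρ) x.2

omit [DecidableEq J] in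
theorem sum_LL (S : R → R → ℕ) (W : Matrix R R ℤ) (D : ℕ)
    (hW : (Matrix.of fun a b => (S a b : ℤ)) * W = (D : ℤ) • (1 : Matrix R R ℤ))
    (σ : R → (J ≃ Fin (Fintype.card J))) (ρ : R) (h : J) :
    ∑ g, (S ρ g : ℤ) * LL W σ (g, h) = D * wt (σ ρ) h := by
  unfold LL
  simp_rw [Finset.mul_sum]
  rw [Finset.sum_comm]
  have h1 : ∀ ρ', ∑ g, (S ρ g : ℤ) * (W g ρ' * wt (σ ρ') h) = (if ρ = ρ' then (D : ℤ) else 0) * wt (σ ρ') h := by
    intro ρ'
    have := congrFun (congrFun hW ρ) ρ'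
    rw [Matrix.mul_apply] at this
    simp only [Matrix.of_apply, Matrix.smul_apply, Matrix.one_apply, smul_eq_mul, mul_ite, mul_one,
      mul_zero] at this
    rw [← this, Finset.sum_mul]
    exact Finset.sum_congr rfl fun g _ => by ring
  simp_rw [h1]
  rw [Finset.sum_eq_single ρ]
  · rw [if_pos rfl]
  · intro b _ hb
    rw [if_neg (Ne.symm hb), zero_mul]
  · intro h
    exact absurd (mem_univ _) h

omit [DecidableEq J] in
theorem LL_inj (S : R → R → ℕ) (W : Matrix R R ℤ) (D : ℕ) (hD : 0 < D)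
    (hW : (Matrix.of fun a b => (S a b : ℤ)) * W = (D : ℤ) • (1 : Matrix R R ℤ))
    (σ σ' : R → (J ≃ Fin (Fintype.card J))) (h : LL W σ = LL W σ') : σ = σ' := by
  funext ρ
  ext j
  have h1 := sum_LL S W D hW σ ρ j
  have h2 := sum_LL S W D hW σ' ρ j
  rw [h, h2] at h1
  have hD' : (D : ℤ) ≠ 0 := by exact_mod_cast hD.ne'
  have h3 := mul_left_cancel₀ hD' h1
  unfold wt at h3
  have h4 : (((σ' ρ j : Fin _) : ℕ) : ℤ) = (((σ ρ j : Fin _) : ℕ) : ℤ) := by linarith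
  exact_mod_cast h4.symm

/-- the monomials -/
noncomputable def mono (S : R → R → ℕ) (κ : R × (J → Bool)) : MvPolynomial (R × J) ℂ :=
  ∏ x : R × J, X x ^ exq S κ.1 κ.2 x

/-- the small coefficients -/
noncomputable def TT' (D : ℕ) (c : R → (J → Bool) → ℂ) (σ : R → (J ≃ Fin (Fintype.card J))) (τ : ℂ)
    (κ : R × (J → Bool)) : ℂ :=
  if dfc (σ κ.1) κ.2 = 0 then 0 else c κ.1 κ.2 * τ ^ (D * (dfc (σ κ.1) κ.2).toNat)

omit [DecidableEq J] in
theorem weights (S : R → R → ℕ) (W : Matrix R R ℤ) (D : ℕ)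
    (hW : (Matrix.of fun a b => (S a b : ℤ)) * W = (D : ℤ) • (1 : Matrix R R ℤ))
    (σ : R → (J ≃ Fin (Fintype.card J))) (ρ : R) (v : J → Bool) (τ : ℂ) (hτ : τ ≠ 0) :
    (τ ^ D) ^ (nt v * nf v) * ∏ x : R × J, (τ ^ (- LL W σ x)) ^ exq S ρ v x =
      τ ^ (D * (dfc (σ ρ) v).toNat) := by
  have h1 : ∏ x : R × J, (τ ^ (- LL W σ x)) ^ exq S ρ v x =
      τ ^ (∑ x : R × J, - LL W σ x * exq S ρ v x) := by
    rw [← prod_zpow0 _ _ hτ]
    refine Finset.prod_congr rfl fun x _ => ?_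
    rw [_root_.zpow_mul, zpow_natCast]
  have h2 : ∑ x : R × J, - LL W σ x * (exq S ρ v x : ℤ) = - ((D : ℤ) * ∑ h, if v h = true then wt (σ ρ) h else 0) := by
    rw [Fintype.sum_prod_type, Finset.sum_comm, Finset.mul_sum, ← Finset.sum_neg_distrib]
    refine Finset.sum_congr rfl fun h _ => ?_
    unfold exq
    by_cases hv : v h = true
    · simp only [hv, if_true, mul_one]
      rw [← sum_LL S W D hW σ ρ h, ← Finset.sum_neg_distrib]
      exact Finset.sum_congr rfl fun g _ => by ring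
    · simp only [hv]
      simp
  have h3 : (((dfc (σ ρ) v).toNat : ℕ) : ℤ) = dfc (σ ρ) v := Int.toNat_of_nonneg (dfc_nonneg _ _)
  rw [h1, h2, ← pow_mul, ← zpow_natCast, ← zpow_add₀ hτ, ← zpow_natCast]
  congr 1
  push_cast
  rw [Int.natCast_toNat_eq_self.2 (dfc_nonneg _ _)]
  unfold dfc
  ring

theorem scl_PP (S : R → R → ℕ) (c : R → (J → Bool) → ℂ) (hc1 : ∀ ρ, c ρ (fun _ => false) = 1)
    (W : Matrix R R ℤ) (D : ℕ)
    (hW : (Matrix.of fun a b => (S a b : ℤ)) * W = (D : ℤ) • (1 : Matrix R R ℤ))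
    (σ : R → (J ≃ Fin (Fintype.card J))) (τ : ℂ) (hτ : τ ≠ 0) :
    scl (fun x => τ ^ (- LL W σ x)) (PP S c (τ ^ D)) =
      (spoly (asg S σ) (fun k => c k.1 (pfx (σ k.1) (((σ k.1 k.2 : Fin _) : ℕ) + 1))) + C (Fintype.card R : ℂ)) +
        ∑ κ, TT' D c σ τ κ • mono S κ := by
  rw [PP_eq, map_sum]
  simp_rw [map_sum]
  have h1 : ∀ ρ (v : J → Bool), scl (fun x => τ ^ (- LL W σ x)) (C (c ρ v * (τ ^ D) ^ (nt v * nf v)) *
      ∏ x : R × J, X x ^ exq S ρ v x) =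
      (if dfc (σ ρ) v = 0 then C (c ρ v) * mono S (ρ, v) else 0) + TT' D c σ τ (ρ, v) • mono S (ρ, v) := by
    intro ρ v
    rw [map_mul, map_prod]
    have e1 : ∀ x : R × J, scl (fun x => τ ^ (- LL W σ x)) (X x ^ exq S ρ v x) =
        C ((τ ^ (- LL W σ x)) ^ exq S ρ v x) * X x ^ exq S ρ v x := by
      intro x
      rw [map_pow]
      unfold scl
      rw [aeval_X, mul_pow, C_pow]
    have e2 : scl (fun x => τ ^ (- LL W σ x)) (C (c ρ v * (τ ^ D) ^ (nt v * nf v))) =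
        C (c ρ v * (τ ^ D) ^ (nt v * nf v)) := by
      unfold scl
      rw [← MvPolynomial.algebraMap_eq, AlgHom.commutes]
    simp_rw [e1]
    rw [e2, Finset.prod_mul_distrib, ← map_prod C, ← mul_assoc, ← C_mul, mul_assoc, weights S W D hW σ ρ v τ hτ]
    have e3 : (∏ x : R × J, X x ^ exq S ρ v x : MvPolynomial (R × J) ℂ) = mono S (ρ, v) := rfl
    rw [e3, smul_eq_C_mul]
    unfold TT'
    by_cases h0 : dfc (σ ρ) v = 0
    · simp only [h0, if_true, Int.toNat_zero, mul_zero, pow_zero, mul_one, C_0, zero_mul, add_zero]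
    · simp only [h0, if_false, zero_add]
  simp_rw [h1, Finset.sum_add_distrib]
  congr 1
  · have h2 : ∀ ρ, ∑ v : J → Bool, (if dfc (σ ρ) v = 0 then C (c ρ v) * mono S (ρ, v) else 0) =
        1 + ∑ h, C (c ρ (pfx (σ ρ) (((σ ρ h : Fin _) : ℕ) + 1))) * ∏ x, X x ^ asg S σ (ρ, h) x := by
      intro ρ
      rw [sum_dfc (σ ρ) (fun v => C (c ρ v) * mono S (ρ, v))]
      congr 1
      rw [hc1, C_1, one_mul]
      unfold mono
      refine Finset.prod_eq_one fun x _ => ?_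
      unfold exq
      simp
    simp_rw [h2]
    rw [Finset.sum_add_distrib, Finset.sum_const, card_univ, nsmul_eq_mul, mul_one, add_comm]
    congr 1
    unfold spoly
    rw [Fintype.sum_prod_type]
  · rw [Fintype.sum_prod_type]

/-- **The number of nondegenerate zeros.** -/
theorem exists_many [Nonempty R] [Nonempty J] (S : R → R → ℕ) (hS : (Matrix.of fun a b => (S a b : ℤ)).det ≠ 0)
    (c : R → (J → Bool) → ℂ) (hc : ∀ ρ v, c ρ v ≠ 0) (hc1 : ∀ ρ, c ρ (fun _ => false) = 1) :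
    ∃ (t : ℂ) (Z : Finset ((R × J) ⊕ Bool → ℂ)),
      Z.card = (Fintype.card J).factorial ^ Fintype.card R *
        (Matrix.of fun a b => (S a b : ℤ)).det.natAbs ^ Fintype.card J ∧
      ∀ z ∈ Z, NonDeg (fun j => LT (PP S c t) j + FT (vv S) j) z := by
  classical
  obtain ⟨W, D, hD, hW, _⟩ := exists_inv _ hS
  -- the limits
  set G : (R → (J ≃ Fin (Fintype.card J))) → MvPolynomial (R × J) ℂ := fun σ =>
    spoly (asg S σ) (fun k => c k.1 (pfx (σ k.1) (((σ k.1 k.2 : Fin _) : ℕ) + 1))) + C (Fintype.card R : ℂ) with hG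
  have hZ := fun σ => nonDeg_G S hS σ (fun k => c k.1 (pfx (σ k.1) (((σ k.1 k.2 : Fin _) : ℕ) + 1))) fun k => hc _ _
  choose Z hZc hZ using hZ
  -- persistence
  set N : ((R × J) ⊕ Bool → ℂ) → Set ((R × J) ⊕ Bool → ℂ) := fun z =>
    {z' | ∀ i : R × J, ‖z (Sum.inl i)‖ / 2 < ‖z' (Sum.inl i)‖ ∧ ‖z' (Sum.inl i)‖ < 2 * ‖z (Sum.inl i)‖} with hN
  have hNn : ∀ σ, ∀ z ∈ Z σ, N z ∈ 𝓝 z := by
    intro σ z hz
    rw [hN]
    have h1 : ∀ i : R × J, ∀ᶠ z' : (R × J) ⊕ Bool → ℂ in 𝓝 z,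
        ‖z (Sum.inl i)‖ / 2 < ‖z' (Sum.inl i)‖ ∧ ‖z' (Sum.inl i)‖ < 2 * ‖z (Sum.inl i)‖ := by
      intro i
      have hcont : Tendsto (fun z' : (R × J) ⊕ Bool → ℂ => ‖z' (Sum.inl i)‖) (𝓝 z) (𝓝 ‖z (Sum.inl i)‖) :=
        (continuous_norm.comp (continuous_apply (Sum.inl i))).tendsto z
      have hpos : 0 < ‖z (Sum.inl i)‖ := norm_pos_iff.2 ((hZ σ z hz).1 i)
      exact (hcont.eventually_const_lt (by linarith)).and (hcont.eventually_lt_const (by linarith))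
    exact Filter.eventually_all.2 h1
  have hpers := fun σ => persist_nbhd (σ := (R × J) ⊕ Bool) (τ := (R × J) ⊕ Bool) (κ := R × (J → Bool)) rfl
    (fun j => LT (G σ) j + FT (vv S) j) (fun κ j => LT (mono S κ) j) (Z σ) (fun z hz => (hZ σ z hz).2) N (hNn σ)
  choose ε hε hpers using hpers
  -- bounds
  obtain ⟨B, hB1, hB⟩ : ∃ B : ℝ, 1 ≤ B ∧ ∀ σ, ∀ z ∈ Z σ, ∀ i : R × J, ‖z (Sum.inl i)‖ ≤ B ∧ 1 ≤ B * ‖z (Sum.inl i)‖ := by
    have h1 : ∀ σ, ∃ B : ℝ, 1 ≤ B ∧ ∀ z ∈ Z σ, ∀ i : R × J, ‖z (Sum.inl i)‖ ≤ B ∧ 1 ≤ B * ‖z (Sum.inl i)‖ := by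
      intro σ
      refine ⟨1 + ∑ z ∈ Z σ, ∑ i : R × J, (‖z (Sum.inl i)‖ + ‖z (Sum.inl i)‖⁻¹), ?_, fun z hz i => ?_⟩
      · have : 0 ≤ ∑ z ∈ Z σ, ∑ i : R × J, (‖z (Sum.inl i)‖ + ‖z (Sum.inl i)‖⁻¹) :=
          Finset.sum_nonneg fun z _ => Finset.sum_nonneg fun i _ => by positivity
        linarith
      · have h2 : ‖z (Sum.inl i)‖ + ‖z (Sum.inl i)‖⁻¹ ≤
            ∑ z ∈ Z σ, ∑ i : R × J, (‖z (Sum.inl i)‖ + ‖z (Sum.inl i)‖⁻¹) :=
          (Finset.single_le_sum (f := fun i : R × J => ‖z (Sum.inl i)‖ + ‖z (Sum.inl i)‖⁻¹)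
            (fun i _ => by positivity) (mem_univ i)).trans
          (Finset.single_le_sum (f := fun z : (R × J) ⊕ Bool → ℂ => ∑ i : R × J, (‖z (Sum.inl i)‖ + ‖z (Sum.inl i)‖⁻¹))
            (fun z _ => Finset.sum_nonneg fun i _ => by positivity) hz)
        have hpos : 0 < ‖z (Sum.inl i)‖ := norm_pos_iff.2 ((hZ σ z hz).1 i)
        have hinv : 0 < ‖z (Sum.inl i)‖⁻¹ := inv_pos.2 hpos
        constructor
        · linarith
        · have h3 : ‖z (Sum.inl i)‖⁻¹ ≤ 1 + ∑ z ∈ Z σ, ∑ i : R × J, (‖z (Sum.inl i)‖ + ‖z (Sum.inl i)‖⁻¹) := by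
            linarith
          calc (1 : ℝ) = ‖z (Sum.inl i)‖⁻¹ * ‖z (Sum.inl i)‖ := (inv_mul_cancel₀ hpos.ne').symm
            _ ≤ _ := mul_le_mul_of_nonneg_right h3 hpos.le
    choose B hB1 hB using h1
    refine ⟨∑ σ, B σ, ?_, fun σ z hz i => ?_⟩
    · have σ0 : R → (J ≃ Fin (Fintype.card J)) := fun _ => Fintype.equivFin J
      exact (hB1 σ0).trans (Finset.single_le_sum (f := B) (fun σ _ => zero_le_one.trans (hB1 σ)) (mem_univ σ0))
    · have h2 : B σ ≤ ∑ σ, B σ := Finset.single_le_sum (f := B) (fun σ _ => zero_le_one.trans (hB1 σ)) (mem_univ σ)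
      exact ⟨(hB σ z hz i).1.trans h2, (hB σ z hz i).2.trans (mul_le_mul_of_nonneg_right h2 (norm_nonneg _))⟩
  have hB0 : 0 < B := zero_lt_one.trans_le hB1
  -- the choice of the parameter
  have hev : ∀ᶠ τ : ℝ in 𝓝[>] 0, 0 < τ ∧ τ < 1 ∧ 4 * B ^ 2 * τ < 1 ∧
      ∀ σ, ∀ κ, ‖TT' D c σ (τ : ℂ) κ‖ < ε σ := by
    have e1 : ∀ᶠ τ : ℝ in 𝓝[>] 0, 0 < τ := self_mem_nhdsWithin
    have e2 : ∀ᶠ τ : ℝ in 𝓝[>] 0, τ < 1 := nhdsWithin_le_nhds (Iio_mem_nhds zero_lt_one)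
    have e3 : ∀ᶠ τ : ℝ in 𝓝[>] 0, 4 * B ^ 2 * τ < 1 := by
      have : Tendsto (fun τ : ℝ => 4 * B ^ 2 * τ) (𝓝 0) (𝓝 (4 * B ^ 2 * 0)) :=
        (continuous_const.mul continuous_id).tendsto 0
      rw [mul_zero] at this
      exact nhdsWithin_le_nhds (this.eventually_lt_const zero_lt_one)
    have e4 : ∀ᶠ τ : ℝ in 𝓝[>] 0, ∀ σ, ∀ κ, ‖TT' D c σ (τ : ℂ) κ‖ < ε σ := by
      refine nhdsWithin_le_nhds ?_
      refine Filter.eventually_all.2 fun σ => Filter.eventually_all.2 fun κ => ?_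
      unfold TT'
      by_cases h0 : dfc (σ κ.1) κ.2 = 0
      · simp only [h0, if_true, norm_zero]
        exact Filter.Eventually.of_forall fun _ => hε σ
      · simp only [h0, if_false]
        have h1 : 0 < D * (dfc (σ κ.1) κ.2).toNat := by
          refine Nat.mul_pos hD ?_
          have := dfc_nonneg (σ κ.1) κ.2
          omega
        have h2 : Tendsto (fun τ : ℝ => ‖c κ.1 κ.2 * (τ : ℂ) ^ (D * (dfc (σ κ.1) κ.2).toNat)‖) (𝓝 0)
            (𝓝 ‖c κ.1 κ.2 * ((0 : ℝ) : ℂ) ^ (D * (dfc (σ κ.1) κ.2).toNat)‖) :=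
          (continuous_norm.comp (continuous_const.mul (Complex.continuous_ofReal.pow _))).tendsto 0
        rw [Complex.ofReal_zero, zero_pow h1.ne', mul_zero, norm_zero] at h2
        exact h2.eventually_lt_const (hε σ)
    filter_upwards [e1, e2, e3, e4] with τ h1 h2 h3 h4
    exact ⟨h1, h2, h3, h4⟩
  obtain ⟨τ, hτ0, hτ1, hτB, hτT⟩ := hev.exists
  have hτC : (τ : ℂ) ≠ 0 := by exact_mod_cast hτ0.ne'
  -- the zeros
  have hZ' := fun σ => hpers σ (TT' D c σ (τ : ℂ)) (hτT σ)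
  choose Z' hZ'c hZ' using hZ'
  set Φ : (R → (J ≃ Fin (Fintype.card J))) → ((R × J) ⊕ Bool → ℂ) → ((R × J) ⊕ Bool → ℂ) := fun σ z =>
    Sum.elim (fun i => (τ : ℂ) ^ (- LL W σ i) * z (Sum.inl i)) fun b => z (Sum.inr b) with hΦ
  have hΦinj : ∀ σ, Function.Injective (Φ σ) := by
    intro σ z z' h
    funext j
    rcases j with i | b
    · exact mul_left_cancel₀ (zpow_ne_zero _ hτC) (congrFun h (Sum.inl i))
    · exact congrFun h (Sum.inr b)
  refine ⟨(τ : ℂ) ^ D, univ.biUnion fun σ => (Z' σ).map ⟨Φ σ, hΦinj σ⟩, ?_, ?_⟩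
  · rw [Finset.card_biUnion]
    · simp only [Finset.card_map, hZ'c, hZc, Finset.sum_const, card_univ, smul_eq_mul]
      rw [Fintype.card_fun, Fintype.card_equiv (Fintype.equivFin J)]
    · intro σ _ σ' _ hne
      refine Finset.disjoint_left.2 ?_
      intro p hp hp'
      obtain ⟨z, hz, rfl⟩ := Finset.mem_map.1 hp
      obtain ⟨z', hz', he⟩ := Finset.mem_map.1 hp'
      obtain ⟨-, z₀, hz₀, hzN⟩ := hZ' σ z hz
      obtain ⟨-, z₀', hz₀', hzN'⟩ := hZ' σ' z' hz'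
      have hne2 : LL W σ ≠ LL W σ' := fun h => hne (LL_inj S W D hD hW σ σ' h)
      obtain ⟨i, hi⟩ := Function.ne_iff.1 hne2
      have key : ∀ (a b : ℤ) (x y : ℂ), a < b → (τ : ℂ) ^ (-a) * x = (τ : ℂ) ^ (-b) * y →
          ‖x‖ ≤ 2 * B → 1 ≤ 2 * B * ‖y‖ → False := by
        intro a b x y hab hxy hx hy
        have h1 : (τ : ℂ) ^ (b - a) * x = y := by
          have h2 : (τ : ℂ) ^ (b - a) = (τ : ℂ) ^ b * (τ : ℂ) ^ (-a) := by
            rw [← zpow_add₀ hτC]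
            rfl
          rw [h2, mul_assoc, hxy, ← mul_assoc, ← zpow_add₀ hτC, add_neg_cancel, zpow_zero, one_mul]
        have h3 : ‖y‖ ≤ τ * (2 * B) := by
          rw [← h1, norm_mul]
          refine mul_le_mul ?_ hx (norm_nonneg _) hτ0.le
          rw [norm_zpow, Complex.norm_real, Real.norm_of_nonneg hτ0.le]
          obtain ⟨m, hm⟩ := Int.eq_ofNat_of_zero_le (show 0 ≤ b - a - 1 by omega)
          have h4 : b - a = ((m + 1 : ℕ) : ℤ) := by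
            push_cast
            omega
          rw [h4, zpow_natCast, pow_succ]
          calc τ ^ m * τ ≤ 1 * τ := mul_le_mul_of_nonneg_right (pow_le_one₀ hτ0.le hτ1.le) hτ0.le
            _ = τ := one_mul _
        have h5 : 1 ≤ 2 * B * (τ * (2 * B)) := hy.trans (mul_le_mul_of_nonneg_left h3 (by positivity))
        have h6 : 2 * B * (τ * (2 * B)) = 4 * B ^ 2 * τ := by ring
        rw [h6] at h5
        exact absurd hτB (not_lt.2 h5)
      have b1 : ∀ z₁ z₂ : (R × J) ⊕ Bool → ℂ, ∀ σ'' , z₂ ∈ Z σ'' → z₁ ∈ N z₂ →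
          ‖z₁ (Sum.inl i)‖ ≤ 2 * B ∧ 1 ≤ 2 * B * ‖z₁ (Sum.inl i)‖ := by
        intro z₁ z₂ σ'' h2 h1
        obtain ⟨c1, c2⟩ := h1 i
        obtain ⟨c3, c4⟩ := hB σ'' z₂ h2 i
        constructor
        · linarith
        · have : B * ‖z₂ (Sum.inl i)‖ ≤ B * (2 * ‖z₁ (Sum.inl i)‖) :=
            mul_le_mul_of_nonneg_left (by linarith) hB0.le
          linarith
      have he' : (τ : ℂ) ^ (- LL W σ' i) * z' (Sum.inl i) = (τ : ℂ) ^ (- LL W σ i) * z (Sum.inl i) :=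
        congrFun he (Sum.inl i)
      obtain ⟨d1, d2⟩ := b1 z z₀ σ hz₀ hzN
      obtain ⟨d3, d4⟩ := b1 z' z₀' σ' hz₀' hzN'
      rcases lt_or_gt_of_ne hi with hlt | hlt
      · exact key _ _ _ _ hlt he'.symm d1 d4
      · exact key _ _ _ _ hlt he' d3 d2
  · intro p hp
    obtain ⟨σ, _, hp⟩ := Finset.mem_biUnion.1 hp
    obtain ⟨z, hz, rfl⟩ := Finset.mem_map.1 hp
    obtain ⟨hnd, -⟩ := hZ' σ z hz
    refine nonDeg_scl (PP S c ((τ : ℂ) ^ D)) (vv S) (fun i => (τ : ℂ) ^ (- LL W σ i)) (fun i => zpow_ne_zero _ hτC) z ?_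
    rw [scl_PP S c hc1 W D hW σ (τ : ℂ) hτC]
    convert hnd using 2 with j
    rw [map_add, map_sum]
    simp only [map_smul, Pi.add_apply, Finset.sum_apply, Pi.smul_apply]
    ring

end

end Clique
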