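import Pool.Agent.Helper74.Clique.DCIneq
import Pool.Agent.Helper16.CLQ.Graph3
import Pool.Agent.Helper63.Clq.Num
import Pool.Agent.Helper63.Clq.Test2

/-!
Lower bounds for the (border) determinantal complexity of polynomials whose minimal monomials are the `k`-cliques.
-/
namespace Clique
open Finset MvPolynomial Pool.Agent.Helper24.SQ

/-- Polynomials whose monomials are the `k`-cliques. -/
theorem dc_support : ∃ c : ℝ, 0 < c ∧ ∃ k0 : ℕ, ∀ (n k M : ℕ) (f : MvPolynomial (Sym2 (Fin n)) ℂ),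
    k0 ≤ k → k + k0 ≤ n → CliqueSupport k f →
    (∀ ε : ℝ, 0 < ε → ∃ P : MvPolynomial (Sym2 (Fin n)) ℂ, DetRep P M ∧ ∀ s, ‖P.coeff s - f.coeff s‖ < ε) →
    c * (((n - k : ℕ) : ℝ) * ((min k (n - k) : ℕ) : ℝ) ^ (5 / 2 : ℝ)) ≤ M := by
  obtain ⟨c, hc, k0, H⟩ := CliqueNum.main
  refine ⟨c, hc, k0, fun n k M f hk hkn hf h => H n k M hk hkn fun m q u hq hn hku => ?_⟩
  obtain ⟨co, hco, hco1, hφ⟩ := graph3 m q u k (by rw [Fintype.card_fin]; exact hn) hku f hf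
  exact dc_ineq m q M hq f h co hco hco1 hφ

/-- Identity tests for `k`-cliques, with auxiliary variables. -/
theorem dc_test : ∃ c : ℝ, 0 < c ∧ ∃ k0 : ℕ, ∀ (n k M : ℕ) (Y : Type) [Fintype Y]
    (f : MvPolynomial (Sym2 (Fin n) ⊕ Y) ℂ), k0 ≤ k → k + k0 ≤ n → CliqueTest.IsTest k f →
    (∀ ε : ℝ, 0 < ε → ∃ P : MvPolynomial (Sym2 (Fin n) ⊕ Y) ℂ, DetRep P M ∧ ∀ s, ‖P.coeff s - f.coeff s‖ < ε) →
    c * (((n - k : ℕ) : ℝ) * ((min k (n - k) : ℕ) : ℝ) ^ (5 / 2 : ℝ)) ≤ M := by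
  obtain ⟨c, hc, k0, H⟩ := dc_support
  refine ⟨c, hc, max k0 2, fun n k M Y _ f hk hkn hf h => ?_⟩
  obtain ⟨g, hg, h2⟩ := CliqueTest.test_dets k ((le_max_right _ _).trans hk) f hf
  exact H n k M g ((le_max_left _ _).trans hk) ((Nat.add_le_add_left (le_max_left _ _) k).trans hkn) hg (h2 M h)

end Clique
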