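import Mathlib

/-!
The Sylvester matrix and the corresponding `0/1` matrix.
-/
namespace Clique
open Finset Matrix

/-- the sign of `r` and `g` -/
def chi (m : ℕ) (r g : Fin m → Bool) : ℤ := ∏ i, if (r i && g i) = true then -1 else 1

theorem chi_eq (m : ℕ) (r g : Fin m → Bool) : chi m r g = 1 ∨ chi m r g = -1 := by
  unfold chi
  refine Finset.prod_induction _ (fun x : ℤ => x = 1 ∨ x = -1) ?_ (Or.inl rfl) ?_
  · rintro x y (rfl | rfl) (rfl | rfl) <;> simp
  · intro i _
    split_ifs <;> simp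

/-- the `0/1` matrix -/
def tt (m : ℕ) (r g : Fin m → Bool) : ℕ := if chi m r g = 1 then 1 else 0

theorem two_tt (m : ℕ) (r g : Fin m → Bool) : 2 * (tt m r g : ℤ) = 1 + chi m r g := by
  unfold tt
  rcases chi_eq m r g with h | h
  · rw [if_pos h, h]; norm_num
  · rw [if_neg (by rw [h]; norm_num), h]; norm_num

theorem tt_le (m : ℕ) (r g : Fin m → Bool) : tt m r g ≤ 1 := by
  unfold tt
  split_ifs <;> simp

/-- the Sylvester matrix -/
def HM (m : ℕ) : Matrix (Fin m → Bool) (Fin m → Bool) ℤ := Matrix.of (chi m)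

theorem sum_chi (m : ℕ) (r r' : Fin m → Bool) :
    ∑ g, chi m r g * chi m r' g = if r = r' then 2 ^ m else 0 := by
  unfold chi
  simp_rw [← Finset.prod_mul_distrib]
  have h := Finset.prod_univ_sum (fun _ : Fin m => (Finset.univ : Finset Bool))
    (fun i b => (if (r i && b) = true then (-1 : ℤ) else 1) * (if (r' i && b) = true then -1 else 1))
  rw [Fintype.piFinset_univ] at h
  rw [← h]
  have h2 : ∀ i, ∑ b : Bool, (if (r i && b) = true then (-1 : ℤ) else 1) *
      (if (r' i && b) = true then -1 else 1) = if r i = r' i then 2 else 0 := by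
    intro i
    rw [Fintype.sum_bool]
    cases r i <;> cases r' i <;> simp
  simp_rw [h2]
  split_ifs with hr
  · subst hr
    simp
  · obtain ⟨i, hi⟩ : ∃ i, r i ≠ r' i := by
      by_contra hcon
      push Not at hcon
      exact hr (funext hcon)
    exact Finset.prod_eq_zero (mem_univ i) (if_neg hi)

theorem HM_mul (m : ℕ) : HM m * (HM m)ᵀ = (2 ^ m : ℤ) • (1 : Matrix (Fin m → Bool) (Fin m → Bool) ℤ) := by
  ext r r'
  rw [Matrix.mul_apply]
  simp only [HM, Matrix.transpose_apply, Matrix.of_apply, Matrix.smul_apply, Matrix.one_apply]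
  rw [sum_chi]
  split_ifs <;> simp

theorem det_HM (m : ℕ) : (HM m).det ^ 2 = ((2 : ℤ) ^ m) ^ (2 ^ m) := by
  have h := congrArg Matrix.det (HM_mul m)
  rw [Matrix.det_mul, Matrix.det_transpose, Matrix.det_smul, Matrix.det_one, mul_one] at h
  rw [sq, h]
  simp

/-- the `0/1` matrix -/
def TM (m : ℕ) : Matrix (Fin m → Bool) (Fin m → Bool) ℤ := Matrix.of fun r g => (tt m r g : ℤ)

theorem det_TM (m : ℕ) : (2 : ℤ) ^ (2 ^ m) * (TM m).det = 2 * (HM m).det := by
  have h1 : (2 : ℤ) • TM m = HM m * (1 + Matrix.replicateCol Unit (Pi.single (fun _ => false) 1 : (Fin m → Bool) → ℤ) *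
      Matrix.replicateRow Unit (fun _ => (1 : ℤ))) := by
    rw [mul_add, mul_one, ← Matrix.mul_assoc]
    ext r g
    rw [Matrix.add_apply, Matrix.smul_apply, Matrix.mul_apply]
    simp only [TM, HM, Matrix.of_apply, smul_eq_mul, two_tt, Matrix.replicateRow_apply, mul_one,
      Finset.univ_unique, Finset.sum_singleton, Matrix.mul_apply, Matrix.replicateCol_apply]
    rw [Finset.sum_eq_single (fun _ => false)]
    · rw [Pi.single_eq_same, mul_one, add_comm]
      congr 1
      unfold chi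
      simp
    · intro b _ hb
      rw [Pi.single_eq_of_ne hb, mul_zero]
    · simp
  have h2 := congrArg Matrix.det h1
  rw [Matrix.det_smul, Matrix.det_mul, Matrix.det_one_add_replicateCol_mul_replicateRow] at h2
  have h3 : Fintype.card (Fin m → Bool) = 2 ^ m := by simp
  rw [h3] at h2
  rw [h2]
  have h4 : (fun _ => (1 : ℤ)) ⬝ᵥ (Pi.single (fun _ => false) 1 : (Fin m → Bool) → ℤ) = 1 := by
    rw [dotProduct_single]
    norm_num
  rw [h4]
  ring

theorem natAbs_det_TM (m : ℕ) : (TM m).det.natAbs ^ 2 * 4 ^ (2 ^ m) = 4 * (2 ^ m) ^ (2 ^ m) := by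
  have h1 := congrArg (fun x : ℤ => x ^ 2) (det_TM m)
  simp only [mul_pow] at h1
  rw [det_HM, ← pow_mul, mul_comm (2 ^ m) 2, pow_mul] at h1
  have h2 := congrArg Int.natAbs h1
  rw [Int.natAbs_mul, Int.natAbs_mul, Int.natAbs_pow, Int.natAbs_pow, Int.natAbs_pow, Int.natAbs_pow] at h2
  norm_num at h2
  rw [mul_comm] at h2
  exact_mod_cast h2

end Clique
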