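import Pool.Agent.Helper74.Clique.Poly
import Pool.Agent.Helper74.Clique.Had

/-!
The graph: two sides, each with control vertices (row, label) and bit vertices (column, unused or label); `U` is a set of
universal vertices.
-/
namespace Clique
open Finset MvPolynomial

section

variable (m : ℕ) (A U : Type)

/-- rows and columns -/
abbrev B : Type := Fin m → Bool

/-- rows (or columns) with a label -/
abbrev Y : Type := B m × A

/-- the vertices -/
abbrev V : Type := (Bool × (Y m A ⊕ (B m × Option A))) ⊕ U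

/-- the groups -/
abbrev Gp : Type := (Bool × Option (B m)) ⊕ U

variable {m A U}

/-- the group of a vertex -/
def grp : V m A U → Gp m U
  | Sum.inl (s, Sum.inl _) => Sum.inl (s, none)
  | Sum.inl (s, Sum.inr (g, _)) => Sum.inl (s, some g)
  | Sum.inr u => Sum.inr u

/-- the value of the column `g` chosen by the row with label -/
def vl (y : Y m A) (g : B m) : Option A := if tt m y.1 g = 1 then some y.2 else none

/-- a control vertex and a bit vertex which are not adjacent -/
def inc : V m A U → V m A U → Prop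
  | Sum.inl (s, Sum.inl y), Sum.inl (s', Sum.inr (g, b)) => s = s' ∧ b ≠ vl y g
  | _, _ => False

/-- not adjacent -/
def bad (v w : V m A U) : Prop := grp v = grp w ∨ inc v w ∨ inc w v

theorem bad_comm (v w : V m A U) : bad v w ↔ bad w v := by
  unfold bad
  constructor
  · rintro (h | h | h)
    · exact Or.inl h.symm
    · exact Or.inr (Or.inr h)
    · exact Or.inr (Or.inl h)
  · rintro (h | h | h)
    · exact Or.inl h.symm
    · exact Or.inr (Or.inr h)
    · exact Or.inr (Or.inl h)

/-- the variable of a pair (left bit vertex, right bit vertex) -/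
def vr : V m A U → V m A U → Option (Y m A × Y m A)
  | Sum.inl (false, Sum.inr (g, some α)), Sum.inl (true, Sum.inr (h, some β)) => some ((g, α), (h, β))
  | _, _ => none

/-- its weight -/
noncomputable def ve (v w : V m A U) : MvPolynomial (Y m A × Y m A) ℂ :=
  match vr v w with
  | some x => X x
  | none => 1

/-- the weight of a pair -/
noncomputable def pw (v w : V m A U) : MvPolynomial (Y m A × Y m A) ℂ :=
  open Classical in if bad v w then 0 else ve v w * ve w v

theorem pw_comm (v w : V m A U) : pw v w = pw w v := by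
  unfold pw
  by_cases h : bad v w
  · rw [if_pos h, if_pos ((bad_comm v w).1 h)]
  · rw [if_neg h, if_neg (fun h' => h ((bad_comm v w).2 h')), mul_comm]

/-- the weight of an edge -/
noncomputable def psi : Sym2 (V m A U) → MvPolynomial (Y m A × Y m A) ℂ := Sym2.lift ⟨pw, pw_comm⟩

/-- the choice on a side -/
def sd (κ : Y m A × Y m A) (s : Bool) : Y m A := if s then κ.2 else κ.1

/-- the section -/
def sec (κ : Y m A × Y m A) : Gp m U → V m A U
  | Sum.inl (s, none) => Sum.inl (s, Sum.inl (sd κ s))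
  | Sum.inl (s, some g) => Sum.inl (s, Sum.inr (g, vl (sd κ s) g))
  | Sum.inr u => Sum.inr u

theorem grp_sec (κ : Y m A × Y m A) (γ : Gp m U) : grp (sec κ γ) = γ := by
  rcases γ with ⟨s, _ | g⟩ | u <;> rfl

theorem sec_inj (κ : Y m A × Y m A) : Function.Injective (sec κ : Gp m U → V m A U) :=
  Function.LeftInverse.injective (grp_sec κ)

theorem not_inc_sec (κ : Y m A × Y m A) (γ γ' : Gp m U) : ¬ inc (sec κ γ) (sec κ γ' : V m A U) := by
  rcases γ with ⟨s, _ | g⟩ | u <;> rcases γ' with ⟨s', _ | g'⟩ | u' <;>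
    simp only [sec, inc, not_false_iff, not_and, not_not]
  rintro rfl
  rfl

theorem not_bad_sec (κ : Y m A × Y m A) (γ γ' : Gp m U) (h : γ ≠ γ') : ¬ bad (sec κ γ) (sec κ γ' : V m A U) := by
  rintro (h1 | h1 | h1)
  · rw [grp_sec, grp_sec] at h1
    exact h h1
  · exact not_inc_sec κ γ γ' h1
  · exact not_inc_sec κ γ' γ h1

/-- the exponents -/
def ex (κ x : Y m A × Y m A) [DecidableEq A] : ℕ :=
  (if κ.1.2 = x.1.2 then tt m κ.1.1 x.1.1 else 0) * (if κ.2.2 = x.2.2 then tt m κ.2.1 x.2.1 else 0)

end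

section

variable {m : ℕ} {A U : Type} [Fintype A] [Fintype U] [DecidableEq A] [DecidableEq U]

instance instDecEqV (m : ℕ) (A U : Type) [DecidableEq A] [DecidableEq U] : DecidableEq (V m A U) :=
  instDecidableEqSum

/-- the clique -/
def DD (U : Type) [Fintype U] (κ : Y m A × Y m A) : Finset (V m A U) := univ.map ⟨sec κ, sec_inj κ⟩

omit [Fintype A] [DecidableEq A] [DecidableEq U] in
theorem mem_DD {κ : Y m A × Y m A} {v : V m A U} : v ∈ DD U κ ↔ ∃ γ, sec κ γ = v := by
  unfold DD
  simp

omit [Fintype A] [DecidableEq A] [DecidableEq U] in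
theorem card_DD (κ : Y m A × Y m A) : (DD U κ).card = Fintype.card (Gp m U) := by
  unfold DD
  rw [card_map, card_univ]

omit [Fintype A] [DecidableEq A] [DecidableEq U] in
theorem DD_inj : Function.Injective (DD U : Y m A × Y m A → Finset (V m A U)) := by
  intro κ κ' h
  have key : ∀ s, sd κ s = sd κ' s := by
    intro s
    have h1 : sec κ (Sum.inl (s, none)) ∈ DD U κ' := by
      rw [← h]
      exact mem_DD.2 ⟨_, rfl⟩
    obtain ⟨γ, hγ⟩ := mem_DD.1 h1
    have h2 := congrArg grp hγ
    rw [grp_sec, grp_sec] at h2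
    rw [h2] at hγ
    simp only [sec, Sum.inl.injEq, Prod.mk.injEq, true_and] at hγ
    exact hγ.symm
  have h1 := key false
  have h2 := key true
  simp only [sd, Bool.false_eq_true, if_false, if_true] at h1 h2
  exact Prod.ext h1 h2

omit [Fintype A] in
/-- cliques of the right size are sections -/
theorem eq_DD {D : Finset (V m A U)} (hc : D.card = Fintype.card (Gp m U))
    (hD : ∀ v ∈ D, ∀ w ∈ D, v ≠ w → ¬ bad v w) : ∃ κ : Y m A × Y m A, D = DD U κ := by
  classical
  have hinj : Set.InjOn grp (D : Set (V m A U)) := by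
    intro v hv w hw h
    by_contra hne
    exact hD v hv w hw hne (Or.inl h)
  have himg : D.image grp = univ := by
    apply Finset.eq_univ_of_card
    rw [Finset.card_image_of_injOn hinj, hc]
  have hex : ∀ γ : Gp m U, ∃ v ∈ D, grp v = γ := by
    intro γ
    have := himg ▸ mem_univ γ
    obtain ⟨v, hv, h⟩ := mem_image.1 this
    exact ⟨v, hv, h⟩
  have hctl : ∀ s : Bool, ∃ y : Y m A, Sum.inl (s, Sum.inl y) ∈ D := by
    intro s
    obtain ⟨v, hv, h⟩ := hex (Sum.inl (s, none))
    rcases v with ⟨s', y | ⟨g, b⟩⟩ | u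
    · simp only [grp, Sum.inl.injEq, Prod.mk.injEq, and_true] at h
      subst h
      exact ⟨y, hv⟩
    · simp [grp] at h
    · simp [grp] at h
  choose y hy using hctl
  refine ⟨(y false, y true), ?_⟩
  have hsd : ∀ s, sd (y false, y true) s = y s := by
    intro s
    cases s <;> rfl
  symm
  apply Finset.eq_of_subset_of_card_le
  · intro v hv
    obtain ⟨γ, rfl⟩ := mem_DD.1 hv
    obtain ⟨w, hw, h⟩ := hex γ
    rcases γ with ⟨s, _ | g⟩ | u
    · simp only [sec, hsd]
      exact hy s
    · rcases w with ⟨s', y' | ⟨g', b⟩⟩ | u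
      · simp [grp] at h
      · simp only [grp, Sum.inl.injEq, Prod.mk.injEq, Option.some.injEq] at h
        obtain ⟨rfl, rfl⟩ := h
        have h1 := hD _ (hy s') _ hw (by simp)
        have h2 : b = vl (y s') g' := by
          by_contra hb
          exact h1 (Or.inr (Or.inl ⟨rfl, hb⟩))
        simp only [sec, hsd]
        rw [← h2]
        exact hw
      · simp [grp] at h
    · rcases w with ⟨s', y' | ⟨g', b⟩⟩ | u'
      · simp [grp] at h
      · simp [grp] at h
      · simp only [grp, Sum.inr.injEq] at h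
        subst h
        exact hw
  · rw [hc, card_DD]

/-- the edge of a variable -/
def ed (U : Type) (x : Y m A × Y m A) : Sym2 (V m A U) :=
  s(Sum.inl (false, Sum.inr (x.1.1, some x.1.2)), Sum.inl (true, Sum.inr (x.2.1, some x.2.2)))

omit [Fintype A] [DecidableEq A] [Fintype U] [DecidableEq U] in
theorem ed_inj : Function.Injective (ed U : Y m A × Y m A → Sym2 (V m A U)) := by
  rintro ⟨⟨g, α⟩, ⟨h, β⟩⟩ ⟨⟨g', α'⟩, ⟨h', β'⟩⟩ e
  simp only [ed, Sym2.eq_iff, Sum.inl.injEq, Prod.mk.injEq, Sum.inr.injEq, Option.some.injEq, true_and,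
    Bool.false_eq_true, false_and, or_false, reduceCtorEq] at e
  obtain ⟨⟨rfl, rfl⟩, ⟨rfl, rfl⟩⟩ := e
  rfl

omit [Fintype A] [Fintype U] [DecidableEq U] in
theorem ex_eq_one {κ x : Y m A × Y m A} : ex κ x = 1 ↔ vl κ.1 x.1.1 = some x.1.2 ∧ vl κ.2 x.2.1 = some x.2.2 := by
  unfold ex vl
  rw [mul_eq_one]
  refine and_congr ?_ ?_
  · split_ifs with h1 h2 h2
    · simp [h2, h1]
    · have := tt_le m κ.1.1 x.1.1
      simp [h2]
    · simp [h1]
    · simp
  · split_ifs with h1 h2 h2
    · simp [h2, h1]
    · simp [h2]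
    · simp [h1]
    · simp

omit [Fintype A] [Fintype U] [DecidableEq U] in
theorem ex_le (κ x : Y m A × Y m A) : ex κ x ≤ 1 := by
  unfold ex
  have h1 := tt_le m κ.1.1 x.1.1
  have h2 := tt_le m κ.2.1 x.2.1
  refine (Nat.mul_le_mul ?_ ?_).trans (one_mul 1).le
  · split_ifs
    · exact h1
    · exact Nat.zero_le _
  · split_ifs
    · exact h2
    · exact Nat.zero_le _

/-- the weight of the clique -/
theorem prod_psi (κ : Y m A × Y m A) : ∏ e ∈ edges (DD U κ), psi e = ∏ x, X x ^ ex κ x := by
  classical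
  have h1 : ∏ x, (X x : MvPolynomial (Y m A × Y m A) ℂ) ^ ex κ x =
      ∏ x ∈ univ.filter (fun x => ex κ x = 1), X x := by
    rw [Finset.prod_filter]
    refine Finset.prod_congr rfl fun x _ => ?_
    have := ex_le κ x
    split_ifs with h
    · rw [h, pow_one]
    · have h0 : ex κ x = 0 := by omega
      rw [h0, pow_zero]
  rw [h1]
  symm
  have h2 : ∏ x ∈ univ.filter (fun x => ex κ x = 1), (X x : MvPolynomial (Y m A × Y m A) ℂ) =
      ∏ e ∈ (univ.filter (fun x => ex κ x = 1)).image (ed U), psi e := by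
    rw [Finset.prod_image fun x _ y _ h => ed_inj h]
    refine Finset.prod_congr rfl fun x _ => ?_
    unfold ed psi
    rw [Sym2.lift_mk]
    simp only [pw]
    rw [if_neg]
    · simp [ve, vr]
    · simp [bad, grp, inc]
  rw [h2]
  apply Finset.prod_subset
  · intro e he
    obtain ⟨x, hx, rfl⟩ := mem_image.1 he
    rw [mem_filter] at hx
    obtain ⟨h3, h4⟩ := ex_eq_one.1 hx.2
    unfold ed
    rw [mem_edges]
    refine ⟨?_, ?_, by simp⟩
    · rw [mem_DD]
      refine ⟨Sum.inl (false, some x.1.1), ?_⟩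
      simp [sec, sd, h3]
    · rw [mem_DD]
      refine ⟨Sum.inl (true, some x.2.1), ?_⟩
      simp [sec, sd, h4]
  · intro e he hne
    induction e using Sym2.ind with
    | _ v w =>
      obtain ⟨hv, hw, hvw⟩ := mem_edges.1 he
      obtain ⟨γ, rfl⟩ := mem_DD.1 hv
      obtain ⟨γ', rfl⟩ := mem_DD.1 hw
      have key : ∀ γ γ' : Gp m U, s(sec κ γ, sec κ γ') ∉ (univ.filter (fun x => ex κ x = 1)).image (ed U) →
          ve (sec κ γ) (sec κ γ' : V m A U) = 1 := by
        intro γ γ' hne
        unfold ve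
        rcases hvr : vr (sec κ γ) (sec κ γ' : V m A U) with _ | x
        · rfl
        · exfalso
          apply hne
          rw [mem_image]
          have key2 : ∀ (v w : V m A U), vr v w = some x → v = Sum.inl (false, Sum.inr (x.1.1, some x.1.2)) ∧
              w = Sum.inl (true, Sum.inr (x.2.1, some x.2.2)) := by
            intro v w h
            rcases v with ⟨_ | _, y | ⟨g, _ | α⟩⟩ | u <;> rcases w with ⟨_ | _, y' | ⟨g', _ | β⟩⟩ | u' <;>
              simp only [vr, reduceCtorEq] at h
            rw [Option.some.injEq] at h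
            subst h
            exact ⟨rfl, rfl⟩
          obtain ⟨h1, h2⟩ := key2 _ _ hvr
          refine ⟨x, mem_filter.2 ⟨mem_univ _, ex_eq_one.2 ⟨?_, ?_⟩⟩, ?_⟩
          · rcases γ with ⟨s, _ | g⟩ | u
            · simp [sec] at h1
            · simp only [sec, Sum.inl.injEq, Prod.mk.injEq, Sum.inr.injEq] at h1
              obtain ⟨rfl, rfl, h3⟩ := h1
              exact h3
            · simp [sec] at h1
          · rcases γ' with ⟨s, _ | g⟩ | u
            · simp [sec] at h2
            · simp only [sec, Sum.inl.injEq, Prod.mk.injEq, Sum.inr.injEq] at h2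
              obtain ⟨rfl, rfl, h3⟩ := h2
              exact h3
            · simp [sec] at h2
          · rw [h1, h2]
            rfl
      unfold psi
      rw [Sym2.lift_mk]
      simp only [pw]
      rw [if_neg (not_bad_sec κ γ γ' fun h => hvw (by rw [h])), key γ γ' hne,
        key γ' γ (by rwa [Sym2.eq_swap]), one_mul]

/-- **The substitution.** -/
theorem aeval_graph {Ω : Type} [Fintype Ω] [DecidableEq Ω] {k : ℕ} (hk : k = Fintype.card (Gp m U)) (hk2 : 2 ≤ k)
    {f : MvPolynomial (Sym2 Ω) ℂ} (hf : CliqueSupport k f) (ι : V m A U ↪ Ω) :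
    aeval (ext ι psi) f = ∑ κ : Y m A × Y m A, C (coeff (mon ((DD U κ).map ι)) f) * ∏ x, X x ^ ex κ x := by
  classical
  rw [aeval_ext hk2 hf]
  symm
  refine Finset.sum_of_injOn (fun κ => DD U κ) (fun κ _ κ' _ h => DD_inj h) ?_ ?_ ?_
  · intro κ _
    rw [mem_coe, mem_powersetCard]
    exact ⟨subset_univ _, by rw [card_DD, hk]⟩
  · intro D hD hD'
    rw [mem_powersetCard] at hD
    have : ∃ v ∈ D, ∃ w ∈ D, v ≠ w ∧ bad v w := by
      by_contra hcon
      push Not at hcon
      obtain ⟨κ, rfl⟩ := eq_DD (hD.2.trans hk) hcon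
      exact hD' ⟨κ, mem_coe.2 (mem_univ _), rfl⟩
    obtain ⟨v, hv, w, hw, hne, hb⟩ := this
    rw [Finset.prod_eq_zero (i := s(v, w)) (mem_edges.2 ⟨hv, hw, hne⟩), mul_zero]
    unfold psi
    rw [Sym2.lift_mk]
    simp only [pw]
    rw [if_pos hb]
  · intro κ _
    rw [prod_psi]
    rfl

end

end Clique
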