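import Mathlib

/-!
Polynomials whose monomials are exactly the `k`-cliques of the complete graph, and their substitutions.
-/
namespace Clique
open Finset MvPolynomial

variable {Ω : Type*} [Fintype Ω] [DecidableEq Ω]

/-- The edges of the complete graph on `C`. -/
def edges (C : Finset Ω) : Finset (Sym2 Ω) := C.sym2.filter fun e => ¬ e.IsDiag

/-- The monomial of the clique `C`. -/
noncomputable def mon (C : Finset Ω) : Sym2 Ω →₀ ℕ := ∑ e ∈ edges C, Finsupp.single e 1

/-- The monomials of `f` are exactly the `k`-cliques of the complete graph on `Ω`. -/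
def CliqueSupport {R : Type*} [CommSemiring R] (k : ℕ) (f : MvPolynomial (Sym2 Ω) R) : Prop :=
  ∀ s, coeff s f ≠ 0 ↔ ∃ C : Finset Ω, C.card = k ∧ s = mon C

omit [Fintype Ω] in
theorem mem_edges {C : Finset Ω} {v w : Ω} : s(v, w) ∈ edges C ↔ v ∈ C ∧ w ∈ C ∧ v ≠ w := by
  unfold edges
  rw [mem_filter, Finset.mk_mem_sym2_iff, Sym2.mk_isDiag_iff, and_assoc]

omit [Fintype Ω] in
theorem mon_apply (C : Finset Ω) (e : Sym2 Ω) : mon C e = if e ∈ edges C then 1 else 0 := by
  unfold mon
  rw [Finsupp.finsetSum_apply]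
  split_ifs with h
  · rw [Finset.sum_eq_single e]
    · simp
    · intro b _ hb
      rw [Finsupp.single_apply, if_neg hb]
    · intro h'
      exact absurd h h'
  · refine Finset.sum_eq_zero fun b hb => ?_
    rw [Finsupp.single_apply, if_neg]
    rintro rfl
    exact h hb

omit [Fintype Ω] in
theorem mon_inj {k : ℕ} (hk : 2 ≤ k) {C C' : Finset Ω} (hC : C.card = k) (hC' : C'.card = k)
    (h : mon C = mon C') : C = C' := by
  have key : ∀ {C C' : Finset Ω}, C.card = k → mon C = mon C' → C ⊆ C' := by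
    intro C C' hC h v hv
    obtain ⟨w, hw, hvw⟩ : ∃ w ∈ C, w ≠ v := by
      have : 1 < C.card := by omega
      obtain ⟨w, hw, hne⟩ := Finset.exists_mem_ne this v
      exact ⟨w, hw, hne⟩
    have h1 : s(v, w) ∈ edges C := mem_edges.2 ⟨hv, hw, hvw.symm⟩
    have h2 := DFunLike.congr_fun h s(v, w)
    rw [mon_apply, mon_apply, if_pos h1] at h2
    have h3 : s(v, w) ∈ edges C' := by
      by_contra hcon
      rw [if_neg hcon] at h2
      exact one_ne_zero h2
    exact (mem_edges.1 h3).1
  exact Finset.Subset.antisymm (key hC h) (key hC' h.symm)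

/-- expansion of a polynomial with clique support -/
theorem eq_sum {R : Type*} [CommSemiring R] {k : ℕ} (hk : 2 ≤ k) {f : MvPolynomial (Sym2 Ω) R}
    (hf : CliqueSupport k f) :
    f = ∑ C ∈ powersetCard k (univ : Finset Ω), monomial (mon C) (coeff (mon C) f) := by
  classical
  have h1 : f.support = (powersetCard k (univ : Finset Ω)).image mon := by
    ext s
    rw [mem_support_iff, hf, mem_image]
    constructor
    · rintro ⟨C, hC, rfl⟩
      exact ⟨C, mem_powersetCard.2 ⟨subset_univ _, hC⟩, rfl⟩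
    · rintro ⟨C, hC, rfl⟩
      exact ⟨C, (mem_powersetCard.1 hC).2, rfl⟩
  conv_lhs => rw [f.as_sum, h1]
  rw [Finset.sum_image]
  intro C hC C' hC' h
  exact mon_inj hk (mem_powersetCard.1 hC).2 (mem_powersetCard.1 hC').2 h

/-- substitution in a polynomial with clique support -/
theorem aeval_eq {R S : Type*} [CommSemiring R] [CommSemiring S] [Algebra R S] {k : ℕ} (hk : 2 ≤ k)
    {f : MvPolynomial (Sym2 Ω) R} (hf : CliqueSupport k f) (φ : Sym2 Ω → S) :
    aeval φ f = ∑ C ∈ powersetCard k (univ : Finset Ω),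
      algebraMap R S (coeff (mon C) f) * ∏ e ∈ edges C, φ e := by
  conv_lhs => rw [eq_sum hk hf]
  rw [map_sum]
  refine Finset.sum_congr rfl fun C _ => ?_
  rw [aeval_monomial]
  congr 1
  unfold mon
  rw [← Finsupp.prod_finsetSum_index]
  · refine Finset.prod_congr rfl fun e _ => ?_
    rw [Finsupp.prod_single_index]
    · rw [pow_one]
    · rw [pow_zero]
  · intro e
    rw [pow_zero]
  · intro e a b
    rw [pow_add]

section Ext

variable {Ω V : Type*}

/-- weights of the edges of `V` carried to `Ω` -/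
noncomputable def ext {S : Type*} [Zero S] (ι : V ↪ Ω) (ψ : Sym2 V → S) (e : Sym2 Ω) : S :=
  open Classical in if h : ∃ e', Sym2.map ι e' = e then ψ h.choose else 0

theorem ext_map {S : Type*} [Zero S] (ι : V ↪ Ω) (ψ : Sym2 V → S) (e : Sym2 V) :
    ext ι ψ (Sym2.map ι e) = ψ e := by
  unfold ext
  have h : ∃ e', Sym2.map ι e' = Sym2.map ι e := ⟨e, rfl⟩
  rw [dif_pos h]
  congr 1
  exact Sym2.map.injective ι.injective h.choose_spec

theorem ext_ne_zero {S : Type*} [Zero S] (ι : V ↪ Ω) (ψ : Sym2 V → S) {v w : Ω}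
    (h : ext ι ψ s(v, w) ≠ 0) : ∃ v' w', ι v' = v ∧ ι w' = w ∧ ψ s(v', w') ≠ 0 := by
  have h1 : ∃ e', Sym2.map ι e' = s(v, w) := by
    by_contra hcon
    unfold ext at h
    rw [dif_neg hcon] at h
    exact h rfl
  obtain ⟨e', he'⟩ := h1
  rw [← he', ext_map] at h
  induction e' using Sym2.ind with
  | _ a b =>
    rw [Sym2.map_mk] at he'
    rcases Sym2.eq_iff.1 he' with ⟨h4, h5⟩ | ⟨h4, h5⟩
    · exact ⟨a, b, h4, h5, h⟩
    · exact ⟨b, a, h5, h4, by rwa [Sym2.eq_swap]⟩

end Ext

section Embed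

variable {V : Type*} [Fintype V] [DecidableEq V]

omit [Fintype Ω] [Fintype V] in
theorem edges_map (ι : V ↪ Ω) (D : Finset V) : edges (D.map ι) = (edges D).map ⟨Sym2.map ι, Sym2.map.injective ι.injective⟩ := by
  ext e
  induction e using Sym2.ind with
  | _ v w =>
    constructor
    · intro he
      obtain ⟨hv, hw, hvw⟩ := mem_edges.1 he
      refine mem_map.2 ?_
      obtain ⟨v', hv', rfl⟩ := mem_map.1 hv
      obtain ⟨w', hw', rfl⟩ := mem_map.1 hw
      exact ⟨s(v', w'), mem_edges.2 ⟨hv', hw', fun h => hvw (by rw [h])⟩, rfl⟩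
    · intro he
      obtain ⟨e', he', h⟩ := mem_map.1 he
      refine mem_edges.2 ?_
      induction e' using Sym2.ind with
      | _ a b =>
        obtain ⟨ha, hb, hab⟩ := mem_edges.1 he'
        simp only [Function.Embedding.coeFn_mk, Sym2.map_mk] at h
        rcases Sym2.eq_iff.1 h with ⟨h4, h5⟩ | ⟨h4, h5⟩
        · subst h4; subst h5
          exact ⟨mem_map_of_mem _ ha, mem_map_of_mem _ hb, fun h => hab (ι.injective h)⟩
        · subst h4; subst h5
          exact ⟨mem_map_of_mem _ hb, mem_map_of_mem _ ha, fun h => hab (ι.injective h).symm⟩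

/-- substitution supported on an embedded vertex set -/
theorem aeval_ext {R S : Type*} [CommSemiring R] [CommSemiring S] [Algebra R S] {k : ℕ} (hk : 2 ≤ k)
    {f : MvPolynomial (Sym2 Ω) R} (hf : CliqueSupport k f) (ι : V ↪ Ω) (ψ : Sym2 V → S) :
    aeval (ext ι ψ) f = ∑ D ∈ powersetCard k (univ : Finset V),
      algebraMap R S (coeff (mon (D.map ι)) f) * ∏ e ∈ edges D, ψ e := by
  classical
  rw [aeval_eq hk hf]
  symm
  refine Finset.sum_of_injOn (fun D => D.map ι) ?_ ?_ ?_ ?_
  · intro D _ D' _ h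
    exact Finset.map_injective ι h
  · intro D hD
    rw [mem_coe, mem_powersetCard] at hD ⊢
    exact ⟨subset_univ _, by rw [card_map]; exact hD.2⟩
  · intro C hC hC'
    rw [mem_powersetCard] at hC
    -- a vertex outside of the range
    obtain ⟨v, hv, hvι⟩ : ∃ v ∈ C, v ∉ Set.range ι := by
      by_contra hcon
      push Not at hcon
      apply hC'
      refine ⟨univ.filter fun v => ι v ∈ C, ?_, ?_⟩
      · rw [mem_coe, mem_powersetCard]
        refine ⟨subset_univ _, ?_⟩
        rw [← hC.2, ← card_map ι]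
        congr 1
        ext w
        rw [mem_map]
        constructor
        · rintro ⟨v, hv, rfl⟩
          exact (mem_filter.1 hv).2
        · intro hw
          obtain ⟨v, rfl⟩ := hcon w hw
          exact ⟨v, mem_filter.2 ⟨mem_univ _, hw⟩, rfl⟩
      · ext w
        simp only [mem_map]
        constructor
        · rintro ⟨v, hv, rfl⟩
          exact (mem_filter.1 hv).2
        · intro hw
          obtain ⟨v, rfl⟩ := hcon w hw
          exact ⟨v, mem_filter.2 ⟨mem_univ _, hw⟩, rfl⟩
    obtain ⟨w, hw, hne⟩ := Finset.exists_mem_ne (by omega : 1 < C.card) v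
    rw [Finset.prod_eq_zero (i := s(v, w)) (mem_edges.2 ⟨hv, hw, hne.symm⟩), mul_zero]
    by_contra h
    obtain ⟨v', _, h1, _⟩ := ext_ne_zero ι ψ h
    exact hvι ⟨v', h1⟩
  · intro D _
    congr 1
    rw [edges_map, Finset.prod_map]
    refine Finset.prod_congr rfl fun e _ => ?_
    exact (ext_map ι ψ e).symm

end Embed

end Clique
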