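import Pool.Agent.Helper74.Clique.TorU
import Pool.Agent.Helper74.Clique.CSys
import Pool.Agent.Helper24.SQ.Pad

/-!
Determinants: the torus critical points of `∑ x ^ (a k) - |X|`, with limits.
-/
namespace Clique
open Finset MvPolynomial Pool.Agent.Helper24.SQ Circ TorU

/-- numerical consequence of `tcrit_card` -/
theorem tnum (S m N : ℕ) (h : ∀ α β : ℕ,
    S * (α ^ (2 * m + N) * β ^ (N + 1)) * (N.factorial * (2 * m + N + 1).factorial) ≤
      ((2 * m + N).factorial * (N + 1).factorial) * (α ^ N * (α + 2 * β) ^ (2 * m + N + 1))) :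
    (S : ℝ) ≤ (2 * Real.exp 1 * (2 * m + N + 1) / (N + 1 : ℕ)) ^ (N + 1) := by
  set M := N + 1 with hM
  set q := 2 * m + N + 1 with hq
  have h := h (2 * q) M
  have hqp : (0 : ℝ) < q := by rw [hq]; positivity
  have hMp : (0 : ℝ) < M := by rw [hM]; positivity
  have h1 : S * q * ((2 * q) ^ (2 * m + N) * M ^ M) ≤ M * ((2 * q) ^ N * (2 * q + 2 * M) ^ q) := by
    have hpos : 0 < N.factorial * (2 * m + N).factorial := by positivity
    refine le_of_mul_le_mul_right ?_ hpos
    have e1 : q.factorial = q * (2 * m + N).factorial := by rw [hq, Nat.factorial_succ]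
    have e2 : M.factorial = M * N.factorial := by rw [hM, Nat.factorial_succ]
    rw [e1, e2] at h
    calc S * q * ((2 * q) ^ (2 * m + N) * M ^ M) * (N.factorial * (2 * m + N).factorial)
        = S * ((2 * q) ^ (2 * m + N) * M ^ M) * (N.factorial * (q * (2 * m + N).factorial)) := by ring
      _ ≤ _ := h
      _ = _ := by ring
  have h' : (S : ℝ) * q * ((2 * q : ℝ) ^ (2 * m + N) * (M : ℝ) ^ M) ≤
      M * ((2 * q : ℝ) ^ N * (2 * q + 2 * M : ℝ) ^ q) := by
    exact_mod_cast h1
  have e1 : (2 * q + 2 * M : ℝ) ^ q = (2 * q : ℝ) ^ (2 * m + N) * (2 * q) * (1 + M / q : ℝ) ^ q := by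
    rw [← pow_succ, ← hq, ← mul_pow]
    congr 1
    field_simp
  have e2 : (1 + M / q : ℝ) ^ q ≤ Real.exp 1 ^ M := by
    have h3 : (1 + M / q : ℝ) ≤ Real.exp (M / q : ℝ) := by
      have := Real.add_one_le_exp (M / q : ℝ)
      linarith
    calc (1 + M / q : ℝ) ^ q ≤ (Real.exp (M / q : ℝ)) ^ q := by gcongr
      _ = Real.exp M := by
          rw [← Real.exp_nat_mul]
          congr 1
          field_simp
      _ = Real.exp 1 ^ M := by
          rw [← Real.exp_nat_mul, mul_one]
  rw [e1] at h'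
  have hpos : (0 : ℝ) < (2 * q : ℝ) ^ (2 * m + N) := by positivity
  have h4 : (S : ℝ) * q * (M : ℝ) ^ M ≤ M * (2 * q : ℝ) ^ M * (1 + M / q : ℝ) ^ q := by
    refine le_of_mul_le_mul_left ?_ hpos
    calc (2 * q : ℝ) ^ (2 * m + N) * ((S : ℝ) * q * (M : ℝ) ^ M)
        = (S : ℝ) * q * ((2 * q : ℝ) ^ (2 * m + N) * (M : ℝ) ^ M) := by ring
      _ ≤ M * ((2 * q : ℝ) ^ N * ((2 * q : ℝ) ^ (2 * m + N) * (2 * q) * (1 + M / q : ℝ) ^ q)) := h'
      _ = _ := by rw [hM, pow_succ]; ring
  have h5 : (S : ℝ) * q * (M : ℝ) ^ M ≤ q * ((2 * q : ℝ) ^ M * Real.exp 1 ^ M) := by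
    have hMq : (M : ℝ) ≤ q := by
      have : M ≤ q := by omega
      exact_mod_cast this
    calc (S : ℝ) * q * (M : ℝ) ^ M ≤ M * (2 * q : ℝ) ^ M * (1 + M / q : ℝ) ^ q := h4
      _ ≤ q * (2 * q : ℝ) ^ M * Real.exp 1 ^ M := by gcongr
      _ = _ := by ring
  have h6 : (S : ℝ) * (M : ℝ) ^ M ≤ (2 * q : ℝ) ^ M * Real.exp 1 ^ M := by
    refine le_of_mul_le_mul_left ?_ hqp
    calc (q : ℝ) * (S * (M : ℝ) ^ M) = (S : ℝ) * q * (M : ℝ) ^ M := by ring
      _ ≤ _ := h5
  rw [div_pow, le_div_iff₀ (by positivity)]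
  refine h6.trans (le_of_eq ?_)
  rw [← mul_pow]
  congr 1
  have : ((q : ℕ) : ℝ) = 2 * m + N + 1 := by rw [hq]; push_cast; ring
  rw [this]
  ring

section

variable {X : Type} [Fintype X] [DecidableEq X]

omit [Fintype X] [DecidableEq X] in
theorem dl_rename (Z w : X ⊕ Bool → ℂ) (Q : MvPolynomial X ℂ) :
    dl Z w (rename Sum.inl Q) = dl (fun i => Z (Sum.inl i)) (fun i => w (Sum.inl i)) Q := by
  unfold dl
  congr 2
  have h : (Bez.ln Z w).comp (rename Sum.inl) = Bez.ln (fun i => Z (Sum.inl i)) (fun i => w (Sum.inl i)) := by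
    ext i
    simp [Bez.ln]
  exact DFunLike.congr_fun h Q

theorem dl_eq {σ : Type} [Fintype σ] [DecidableEq σ] (z v : σ → ℂ) (g : MvPolynomial σ ℂ) :
    dl z v g = ∑ j, eval z (pderiv j g) * v j := Bez.ln_deriv z v g

omit [Fintype X] [DecidableEq X] in
theorem eval_rename' (Z : X ⊕ Bool → ℂ) (Q : MvPolynomial X ℂ) :
    eval Z (rename Sum.inl Q) = eval (fun i => Z (Sum.inl i)) Q := by
  rw [eval_rename]
  rfl

/-- the linear part of the system -/
noncomputable def LT : MvPolynomial X ℂ →ₗ[ℂ] (X ⊕ Bool → MvPolynomial (X ⊕ Bool) ℂ) :=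
  LinearMap.pi fun j => match j with
    | Sum.inl i => (rename Sum.inl).toLinearMap.comp
        ((LinearMap.mulLeft ℂ (MvPolynomial.X i)).comp (pderiv i).toLinearMap)
    | Sum.inr false => (rename Sum.inl).toLinearMap
    | Sum.inr true => 0

/-- the constant part of the system -/
noncomputable def FT (v : X → ℂ) : X ⊕ Bool → MvPolynomial (X ⊕ Bool) ℂ
  | Sum.inl i => - (C (v i) * MvPolynomial.X (Sum.inr false))
  | Sum.inr false => 0
  | Sum.inr true => MvPolynomial.X (Sum.inr false) * MvPolynomial.X (Sum.inr true) - C 1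

omit [Fintype X] [DecidableEq X] in
theorem LT_inl (P : MvPolynomial X ℂ) (i : X) : LT P (Sum.inl i) = rename Sum.inl (MvPolynomial.X i * pderiv i P) := rfl

omit [Fintype X] [DecidableEq X] in
theorem LT_false (P : MvPolynomial X ℂ) : LT P (Sum.inr false) = rename Sum.inl P := rfl

omit [Fintype X] [DecidableEq X] in
theorem LT_true (P : MvPolynomial X ℂ) : LT P (Sum.inr true) = 0 := rfl

/-- the linear equations -/
theorem nonDeg_iff (P : MvPolynomial X ℂ) (v : X → ℂ) (Z : X ⊕ Bool → ℂ) :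
    NonDeg (fun j => LT P j + FT v j) Z ↔
      ((∀ i, Z (Sum.inl i) * eval (fun i => Z (Sum.inl i)) (pderiv i P) = v i * Z (Sum.inr false)) ∧
        eval (fun i => Z (Sum.inl i)) P = 0 ∧ Z (Sum.inr false) * Z (Sum.inr true) = 1) ∧
      ∀ w : X ⊕ Bool → ℂ, (∀ i, w (Sum.inl i) * eval (fun i => Z (Sum.inl i)) (pderiv i P) +
        Z (Sum.inl i) * ∑ j, eval (fun i => Z (Sum.inl i)) (pderiv j (pderiv i P)) * w (Sum.inl j) =
          v i * w (Sum.inr false)) →
        ∑ i, eval (fun i => Z (Sum.inl i)) (pderiv i P) * w (Sum.inl i) = 0 →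
        w (Sum.inr false) * Z (Sum.inr true) + Z (Sum.inr false) * w (Sum.inr true) = 0 → w = 0 := by
  have d1 : ∀ (w : X ⊕ Bool → ℂ) (i : X), dl Z w (LT P (Sum.inl i) + FT v (Sum.inl i)) =
      (w (Sum.inl i) * eval (fun i => Z (Sum.inl i)) (pderiv i P) +
        Z (Sum.inl i) * ∑ j, eval (fun i => Z (Sum.inl i)) (pderiv j (pderiv i P)) * w (Sum.inl j)) -
          v i * w (Sum.inr false) := by
    intro w i
    rw [LT_inl, FT, ← sub_eq_add_neg, dl_sub, dl_C_mul, dl_X, dl_rename, dl_mul, dl_X, eval_X, dl_eq]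
  have d2 : ∀ (w : X ⊕ Bool → ℂ), dl Z w (LT P (Sum.inr false) + FT v (Sum.inr false)) =
      ∑ i, eval (fun i => Z (Sum.inl i)) (pderiv i P) * w (Sum.inl i) := by
    intro w
    rw [LT_false, FT, add_zero, dl_rename, dl_eq]
  have d3 : ∀ (w : X ⊕ Bool → ℂ), dl Z w (LT P (Sum.inr true) + FT v (Sum.inr true)) =
      w (Sum.inr false) * Z (Sum.inr true) + Z (Sum.inr false) * w (Sum.inr true) := by
    intro w
    rw [LT_true, FT, zero_add, dl_sub, dl_C, sub_zero, dl_mul, dl_X, dl_X, eval_X, eval_X]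
  have hd : ∀ w : X ⊕ Bool → ℂ, (∀ j, ∑ i, eval Z (pderiv i (LT P j + FT v j)) * w i = 0) ↔
      ((∀ i, w (Sum.inl i) * eval (fun i => Z (Sum.inl i)) (pderiv i P) +
        Z (Sum.inl i) * ∑ j, eval (fun i => Z (Sum.inl i)) (pderiv j (pderiv i P)) * w (Sum.inl j) =
          v i * w (Sum.inr false)) ∧
        ∑ i, eval (fun i => Z (Sum.inl i)) (pderiv i P) * w (Sum.inl i) = 0 ∧
        w (Sum.inr false) * Z (Sum.inr true) + Z (Sum.inr false) * w (Sum.inr true) = 0) := by
    intro w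
    simp_rw [← dl_eq Z w]
    constructor
    · intro h
      refine ⟨fun i => ?_, ?_, ?_⟩
      · have h1 := h (Sum.inl i)
        rw [d1] at h1
        exact sub_eq_zero.1 h1
      · have h1 := h (Sum.inr false)
        rwa [d2] at h1
      · have h1 := h (Sum.inr true)
        rwa [d3] at h1
    · rintro ⟨h1, h2, h3⟩ (i | _ | _)
      · rw [d1]
        exact sub_eq_zero.2 (h1 i)
      · rwa [d2]
      · rwa [d3]
  have c1 : ∀ i : X, eval Z (LT P (Sum.inl i) + FT v (Sum.inl i)) =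
      Z (Sum.inl i) * eval (fun i => Z (Sum.inl i)) (pderiv i P) - v i * Z (Sum.inr false) := by
    intro i
    rw [LT_inl, FT, map_add, map_neg, eval_rename', map_mul, eval_X, map_mul, eval_C, eval_X, ← sub_eq_add_neg]
  have c2 : eval Z (LT P (Sum.inr false) + FT v (Sum.inr false)) = eval (fun i => Z (Sum.inl i)) P := by
    rw [LT_false, FT, add_zero, eval_rename']
  have c3 : eval Z (LT P (Sum.inr true) + FT v (Sum.inr true)) = Z (Sum.inr false) * Z (Sum.inr true) - 1 := by
    rw [LT_true, FT, zero_add, map_sub, map_mul, eval_X, eval_X, eval_C]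
  have he : (∀ j, eval Z (LT P j + FT v j) = 0) ↔
      ((∀ i, Z (Sum.inl i) * eval (fun i => Z (Sum.inl i)) (pderiv i P) = v i * Z (Sum.inr false)) ∧
        eval (fun i => Z (Sum.inl i)) P = 0 ∧ Z (Sum.inr false) * Z (Sum.inr true) = 1) := by
    constructor
    · intro h
      refine ⟨fun i => ?_, ?_, ?_⟩
      · have h1 := h (Sum.inl i)
        rw [c1] at h1
        exact sub_eq_zero.1 h1
      · have h1 := h (Sum.inr false)
        rwa [c2] at h1
      · have h1 := h (Sum.inr true)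
        rw [c3] at h1
        exact sub_eq_zero.1 h1
    · rintro ⟨h1, h2, h3⟩ (i | _ | _)
      · rw [c1]
        exact sub_eq_zero.2 (h1 i)
      · rwa [c2]
      · rw [c3]
        exact sub_eq_zero.2 h3
  unfold NonDeg
  rw [he]
  refine and_congr Iff.rfl (forall_congr' fun w => ?_)
  rw [hd]
  constructor
  · intro h h1 h2 h3
    exact h ⟨h1, h2, h3⟩
  · rintro h ⟨h1, h2, h3⟩
    exact h h1 h2 h3

/-- from nondegenerate zeros to torus critical points -/
theorem tcrit_of_nonDeg (P : MvPolynomial X ℂ) (v : X → ℂ) (Z : X ⊕ Bool → ℂ)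
    (h : NonDeg (fun j => LT P j + FT v j) Z) : TCrit P v (fun i => Z (Sum.inl i)) := by
  obtain ⟨⟨h1, h2, h3⟩, h4⟩ := (nonDeg_iff P v Z).1 h
  have hf : Z (Sum.inr false) ≠ 0 := by
    intro h0
    rw [h0, zero_mul] at h3
    exact zero_ne_one h3
  refine ⟨h2, ⟨Z (Sum.inr false), hf, fun i => by rw [h1 i, mul_comm]⟩, fun u c' hu hu' => ?_⟩
  have h5 := h4 (Sum.elim u fun b => if b then -(c' * Z (Sum.inr true) / Z (Sum.inr false)) else c')
    (fun i => by
      simp only [Sum.elim_inl, Sum.elim_inr, Bool.false_eq_true, if_false]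
      rw [hu i, mul_comm])
    (by simpa only [Sum.elim_inl] using hu')
    (by
      simp only [Sum.elim_inr, Bool.false_eq_true, if_false, if_true]
      field_simp
      ring)
  funext i
  exact congrFun h5 (Sum.inl i)

/-- the polynomial -/
noncomputable def tpoly (a : X → X → ℕ) : MvPolynomial X ℂ := spoly a 1 - C (Fintype.card X : ℂ)

/-- nondegenerate zeros at the torsion points -/
theorem nonDeg_tpoly [Nonempty X] (a : X → X → ℕ) (hA : (Matrix.of fun k i => (a k i : ℤ)).det ≠ 0) (z : X → ℂ)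
    (hz : ∀ i, z i ≠ 0) (h : ∀ k, ∏ i, z i ^ a k i = 1) :
    NonDeg (fun j => LT (tpoly a) j + FT (fun i => ∑ k, (a k i : ℂ)) j) (Sum.elim z fun _ => 1) := by
  have hdet : (Matrix.of fun k i => (a k i : ℂ)).det ≠ 0 := by
    have h1 : (Matrix.of fun k i => (a k i : ℂ)) = (Matrix.of fun k i => (a k i : ℤ)).map (Int.castRingHom ℂ) := by
      ext k i
      simp
    rw [h1, ← RingHom.mapMatrix_apply, ← RingHom.map_det]
    simpa using hA
  have hpd : ∀ i, pderiv i (tpoly a) = pderiv i (spoly a 1) := by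
    intro i
    rw [tpoly, map_sub, pderiv_C, sub_zero]
  have hX : ∀ i, z i * eval z (pderiv i (tpoly a)) = ∑ k, (a k i : ℂ) := by
    intro i
    rw [hpd]
    have h1 : z i * eval z (pderiv i (spoly a 1)) = eval z (TT (spoly a 1) i) := by
      rw [TT_apply, map_mul, eval_X]
    rw [h1, TT_spoly, map_sum]
    refine Finset.sum_congr rfl fun k _ => ?_
    rw [eval_mono (a k) _ z (h k), Pi.one_apply, mul_one]
  have hD : ∀ (u : X → ℂ) (i : X), u i * eval z (pderiv i (tpoly a)) +
      z i * ∑ j, eval z (pderiv j (pderiv i (tpoly a))) * u j = ∑ k, (a k i : ℂ) * ∑ j, (a k j : ℂ) * (u j / z j) := by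
    intro u i
    have h1 : u i * eval z (pderiv i (tpoly a)) + z i * ∑ j, eval z (pderiv j (pderiv i (tpoly a))) * u j =
        dl z u (TT (tpoly a) i) := by
      rw [TT_apply, dl_mul, dl_X, eval_X, dl_eq]
    have h2 : TT (tpoly a) i = TT (spoly a 1) i := by rw [TT_apply, TT_apply, hpd]
    rw [h1, h2, TT_spoly, dl_sum]
    refine Finset.sum_congr rfl fun k _ => ?_
    rw [dl_eq, Finset.mul_sum]
    refine Finset.sum_congr rfl fun j _ => ?_
    rw [eval_pderiv_mono (a k) _ z hz (h k), Pi.one_apply]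
    ring
  rw [nonDeg_iff]
  simp only [Sum.elim_inl, Sum.elim_inr]
  refine ⟨⟨fun i => by rw [hX i, mul_one], ?_, mul_one 1⟩, ?_⟩
  · rw [tpoly, map_sub, eval_C, spoly_eq, map_sum]
    rw [Finset.sum_congr rfl fun k _ => eval_mono (a k) _ z (h k)]
    simp
  · intro w hw1 hw2 hw3
    have hw4 : ∀ i, ∑ k, (a k i : ℂ) * ((∑ j, (a k j : ℂ) * (w (Sum.inl j) / z j)) - w (Sum.inr false)) = 0 := by
      intro i
      have e := hw1 i
      rw [hD (fun j => w (Sum.inl j)) i] at e
      simp only [mul_sub, Finset.sum_sub_distrib, e]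
      rw [Finset.sum_mul, sub_self]
    have h2 : (fun k => (∑ j, (a k j : ℂ) * (w (Sum.inl j) / z j)) - w (Sum.inr false)) = 0 := by
      have hT : (Matrix.of fun k i => (a k i : ℂ)).transpose.det ≠ 0 := by rwa [Matrix.det_transpose]
      apply Matrix.eq_zero_of_mulVec_eq_zero hT
      funext i
      exact hw4 i
    have h3 : ∀ k, ∑ j, (a k j : ℂ) * (w (Sum.inl j) / z j) = w (Sum.inr false) := fun k =>
      sub_eq_zero.1 (congrFun h2 k)
    have h4 : w (Sum.inr false) = 0 := by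
      have e : ∑ i, eval z (pderiv i (tpoly a)) * w (Sum.inl i) =
          ∑ k, ∑ j, (a k j : ℂ) * (w (Sum.inl j) / z j) := by
        rw [Finset.sum_comm]
        refine Finset.sum_congr rfl fun i _ => ?_
        rw [← Finset.sum_mul, ← hX i]
        have := hz i
        field_simp
      rw [e] at hw2
      simp only [h3, Finset.sum_const, Finset.card_univ, nsmul_eq_mul] at hw2
      refine (mul_eq_zero.1 hw2).resolve_left ?_
      exact_mod_cast Fintype.card_ne_zero
    have h5 : (fun j => w (Sum.inl j) / z j) = 0 := by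
      apply Matrix.eq_zero_of_mulVec_eq_zero hdet
      funext k
      exact (h3 k).trans h4
    funext j
    rcases j with i | _ | _
    · exact (div_eq_zero_iff.1 (congrFun h5 i)).resolve_right (hz i)
    · exact h4
    · rw [h4, zero_mul, zero_add, one_mul] at hw3
      exact hw3

end

/-- **The counting inequality for determinants.** -/
theorem tor_le {σ X : Type} [Fintype σ] [Fintype X] [DecidableEq X] [Nonempty X] (p : MvPolynomial σ ℂ) (M : ℕ)
    (h : ∀ ε : ℝ, 0 < ε → ∃ P : MvPolynomial σ ℂ, DetRep P M ∧ ∀ s, ‖P.coeff s - p.coeff s‖ < ε)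
    (f : σ → MvPolynomial X ℂ) (hf : ∀ s, (f s).totalDegree ≤ 1) (a : X → X → ℕ)
    (hp : aeval f p = tpoly a) :
    ((Matrix.of fun k i => (a k i : ℤ)).det.natAbs : ℝ) ≤
      (2 * Real.exp 1 * (2 * M + Fintype.card X + 1) / (Fintype.card X + 1 : ℕ)) ^ (Fintype.card X + 1) := by
  by_cases hA : (Matrix.of fun k i => (a k i : ℤ)).det = 0
  · rw [hA]
    simp only [Int.natAbs_zero, Nat.cast_zero]
    positivity
  obtain ⟨Z, hZc, hZ⟩ := exists_tors a hA
  set v : X → ℂ := fun i => ∑ k, (a k i : ℂ) with hv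
  have hv0 : ∀ i, v i ≠ 0 := by
    intro i h0
    apply hA
    refine Matrix.det_eq_zero_of_column_eq_zero i fun k => ?_
    have h1 : ∑ k, a k i = 0 := by
      have : ((∑ k, a k i : ℕ) : ℂ) = 0 := by
        push_cast
        exact h0
      exact_mod_cast this
    rw [Matrix.of_apply]
    exact_mod_cast Finset.sum_eq_zero_iff.1 h1 k (mem_univ k)
  have hinj : Function.Injective fun z : X → ℂ => (Sum.elim z fun _ : Bool => (1 : ℂ)) := by
    intro z z' h
    funext i
    exact congrFun h (Sum.inl i)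
  obtain ⟨P, Z', hP, hZ', h2⟩ := exists_near_sys (τ := X ⊕ Bool) rfl p (fun P => DetRep P M) M
    (fun P hP => hP.totalDegree_le) h (LT.comp (aeval f).toLinearMap) (FT v)
    (Z.map ⟨_, hinj⟩) (by
      intro z hz
      obtain ⟨z', hz', rfl⟩ := Finset.mem_map.1 hz
      simp only [LinearMap.comp_apply, AlgHom.toLinearMap_apply, hp]
      exact nonDeg_tpoly a hA z' (hZ z' hz').1 (hZ z' hz').2)
  rw [Finset.card_map, hZc] at hZ'
  rw [← hZ']
  obtain ⟨A₀, L, hdet⟩ := hP.subst f hf
  have hT : ∀ z ∈ Z', TCrit (aeval f P) v fun i => z (Sum.inl i) := fun z hz => tcrit_of_nonDeg _ _ _ (h2 z hz)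
  have hinj2 : Function.Injective fun (z : Z') (i : X) => (z : X ⊕ Bool → ℂ) (Sum.inl i) := by
    rintro ⟨z, hz⟩ ⟨z', hz'⟩ he
    have he' : ∀ i, z (Sum.inl i) = z' (Sum.inl i) := fun i => congrFun he i
    have he2 : (fun i => z (Sum.inl i)) = fun i => z' (Sum.inl i) := he
    obtain ⟨⟨h1, _, h3⟩, _⟩ := (nonDeg_iff _ v z).1 (h2 z hz)
    obtain ⟨⟨h1', _, h3'⟩, _⟩ := (nonDeg_iff _ v z').1 (h2 z' hz')
    have i0 : X := Classical.arbitrary X
    have e1 : z (Sum.inr false) = z' (Sum.inr false) := by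
      have e2 := h1 i0
      have e3 := h1' i0
      rw [he2, he' i0, e3] at e2
      exact (mul_left_cancel₀ (hv0 i0) e2).symm
    have hne : z (Sum.inr false) ≠ 0 := by
      intro h0
      rw [h0, zero_mul] at h3
      exact zero_ne_one h3
    have e2 : z (Sum.inr true) = z' (Sum.inr true) := by
      rw [← e1] at h3'
      exact mul_left_cancel₀ hne (h3.trans h3'.symm)
    ext j
    rcases j with i | _ | _
    · exact he' i
    · exact e1
    · exact e2
  have hb := tcrit_card A₀ L (aeval f P) (fun x => (hdet x).symm) v hv0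
    (fun (z : Z') (i : X) => (z : X ⊕ Bool → ℂ) (Sum.inl i)) hinj2 (fun z => hT z z.2)
  have hn := tnum (Fintype.card Z') M (Fintype.card X) (by
    intro α β
    have := hb α β
    rwa [Fintype.card_fin] at this)
  rwa [Fintype.card_coe] at hn

end Clique
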