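import Pool.Agent.Helper74.Bez.Final2

/-!
Determinantal representations `det (A0 + ∑ x_i L_i) = G(x)` and torus critical points: `G(z) = 0`, `z_i ∂_i G(z) = λ v_i`.
-/
namespace TorU
open Finset Matrix Bez

variable {K : Type*} [Field K] {μ ν : Type*} [Fintype μ] [DecidableEq μ] [Fintype ν] [DecidableEq ν]

/-- linearised system: only the zero solution -/
theorem lin_zero_t [Infinite K] (A0 : Matrix μ μ K) (L : ν → Matrix μ μ K)
    (G : MvPolynomial ν K) (hdet : ∀ x, (pen A0 L x).det = MvPolynomial.eval x G)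
    (z y v : ν → K) (k h w : μ → K) (c : K) (hzy : ∀ i, z i * y i = 1) (i0 : ν) (hi0 : v i0 ≠ 0)
    (hH : ∀ (u : ν → K) (c' : K), (∀ i, u i * MvPolynomial.eval z (MvPolynomial.pderiv i G) +
      z i * ∑ j, MvPolynomial.eval z (MvPolynomial.pderiv j (MvPolynomial.pderiv i G)) * u j = c' * v i) →
      ∑ i, MvPolynomial.eval z (MvPolynomial.pderiv i G) * u i = 0 → u = 0)
    (hadj : (pen A0 L z).adjugate = c • vecMulVec k h)
    (hk : pen A0 L z *ᵥ k = 0) (hh : h ᵥ* pen A0 L z = 0)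
    (hker : ∀ k', pen A0 L z *ᵥ k' = 0 → ∃ a : K, k' = a • k)
    (hker' : ∀ h', h' ᵥ* pen A0 L z = 0 → ∃ b : K, h' = b • h)
    (hL : ∀ i, h ⬝ᵥ (L i *ᵥ k) = v i * y i) (hw : w ⬝ᵥ k = 1)
    (ξ υ : ν → K) (s' : K) (k' h' : μ → K)
    (e1 : (∑ i, ξ i • L i) *ᵥ k + pen A0 L z *ᵥ k' = 0)
    (e2 : h ᵥ* (∑ i, ξ i • L i) + h' ᵥ* pen A0 L z = s' • w)
    (e3 : ∀ i, h' ⬝ᵥ (L i *ᵥ k) + h ⬝ᵥ (L i *ᵥ k') = v i * υ i)
    (e4 : w ⬝ᵥ k' = 0) (e5 : ∀ i, ξ i * y i + z i * υ i = 0) :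
    ξ = 0 ∧ υ = 0 ∧ s' = 0 ∧ k' = 0 ∧ h' = 0 := by
  set A := pen A0 L z with hA
  have hgrad : ∀ i, MvPolynomial.eval z (MvPolynomial.pderiv i G) = c * (v i * y i) := by
    intro i
    rw [← tr_L A0 L G hdet, ← hA, hadj, Matrix.smul_mul, vecMulVec_mul, trace_smul, trace_vecMulVec,
      dotProduct_comm, ← dotProduct_mulVec, hL, smul_eq_mul]
  have hsum : h ⬝ᵥ ((∑ i, ξ i • L i) *ᵥ k) = ∑ i, ξ i * (v i * y i) := by
    rw [sum_mulVec, dotProduct_sum]
    refine Finset.sum_congr rfl fun i _ => ?_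
    rw [smul_mulVec, dotProduct_smul, hL, smul_eq_mul]
  have hhA : ∀ z, h ⬝ᵥ (A *ᵥ z) = 0 := by
    intro z
    rw [dotProduct_mulVec, hh, zero_dotProduct]
  have hs0 : h ⬝ᵥ ((∑ i, ξ i • L i) *ᵥ k) = 0 := by
    have := congrArg (fun z => h ⬝ᵥ z) e1
    simp only [dotProduct_add, dotProduct_zero, hhA, add_zero] at this
    exact this
  -- `s' = 0`
  have hs' : s' = 0 := by
    have := congrArg (fun z => z ⬝ᵥ k) e2
    simp only [add_dotProduct, smul_dotProduct, hw, smul_eq_mul, mul_one] at this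
    rw [← dotProduct_mulVec, hs0, ← dotProduct_mulVec, hk, dotProduct_zero, add_zero] at this
    exact this.symm
  subst hs'
  simp only [zero_smul] at e2
  -- the derivative of the adjugate
  set D := dadj A (∑ i, ξ i • L i) with hD
  have htr : (A.adjugate * ∑ i, ξ i • L i).trace = 0 := by
    rw [hadj, Matrix.smul_mul, vecMulVec_mul, trace_smul, trace_vecMulVec, dotProduct_comm,
      ← dotProduct_mulVec, hs0, smul_zero]
  have hDA := dadj_mul A (∑ i, ξ i • L i)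
  have hAD := mul_dadj A (∑ i, ξ i • L i)
  rw [htr, zero_smul] at hDA hAD
  set B := D - c • (vecMulVec k' h + vecMulVec k h') with hB
  have hAB : A * B = 0 := by
    rw [hB, Matrix.mul_sub, Matrix.mul_smul, Matrix.mul_add, mul_vecMulVec, mul_vecMulVec, hk,
      zero_vecMulVec, add_zero]
    have h1 : A * D = -(c • vecMulVec ((∑ i, ξ i • L i) *ᵥ k) h) := by
      rw [← mul_vecMulVec, ← Matrix.mul_smul, ← hadj]
      exact eq_neg_of_add_eq_zero_left hAD
    have h2 : A *ᵥ k' = -((∑ i, ξ i • L i) *ᵥ k) := eq_neg_of_add_eq_zero_right e1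
    rw [h1, h2, neg_vecMulVec, smul_neg, sub_self]
  have hBA : B * A = 0 := by
    rw [hB, Matrix.sub_mul, Matrix.smul_mul, Matrix.add_mul, vecMulVec_mul, vecMulVec_mul, hh,
      vecMulVec_zero, zero_add]
    have h1 : D * A = -(c • vecMulVec k (h ᵥ* (∑ i, ξ i • L i))) := by
      rw [← vecMulVec_mul, ← Matrix.smul_mul, ← hadj]
      exact eq_neg_of_add_eq_zero_left hDA
    have h2 : h' ᵥ* A = -(h ᵥ* (∑ i, ξ i • L i)) := eq_neg_of_add_eq_zero_right e2
    rw [h1, h2, vecMulVec_neg, smul_neg, sub_self]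
  -- `B = k z` with `z` in the left kernel
  have hcol : ∀ j, ∃ z : K, (fun i => B i j) = z • k := by
    intro j
    apply hker
    ext i
    have := congrFun (congrFun hAB i) j
    rw [mul_apply] at this
    exact this
  choose q hq using hcol
  have hBc : B = vecMulVec k q := by
    ext i j
    have := congrFun (hq j) i
    simp only [Pi.smul_apply, smul_eq_mul] at this
    rw [this, vecMulVec_apply, mul_comm]
  have hk0 : k ≠ 0 := by
    rintro rfl
    simp at hw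
  have hqA : q ᵥ* A = 0 := by
    obtain ⟨i0, hi0⟩ := Function.ne_iff.1 hk0
    rw [hBc, vecMulVec_mul] at hBA
    ext j
    have := congrFun (congrFun hBA i0) j
    rw [vecMulVec_apply, Matrix.zero_apply] at this
    exact (mul_eq_zero.1 this).resolve_left hi0
  obtain ⟨b, hb⟩ := hker' q hqA
  -- Hessian
  have hξ : ξ = 0 := by
    apply hH ξ b
    · intro i
      have h0 := tr_dadj A0 L G hdet z ξ i
      rw [← hA, ← hD] at h0
      rw [← h0]
      have hDB : D = B + c • (vecMulVec k' h + vecMulVec k h') := by rw [hB, sub_add_cancel]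
      rw [hDB, hBc, hb, Matrix.add_mul, Matrix.smul_mul, Matrix.add_mul, vecMulVec_mul, vecMulVec_mul,
        vecMulVec_mul, trace_add, trace_smul, trace_add, trace_vecMulVec, trace_vecMulVec,
        trace_vecMulVec, smul_vecMul, dotProduct_smul, dotProduct_comm, ← dotProduct_mulVec, hL,
        dotProduct_comm, ← dotProduct_mulVec, dotProduct_comm k,
        ← dotProduct_mulVec, add_comm (h ⬝ᵥ _), e3 i, hgrad i]
      simp only [smul_eq_mul]
      have h5 := e5 i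
      have h6 := hzy i
      linear_combination (c * v i) * h5 + (b * v i) * h6
    · have h7 : ∑ i, MvPolynomial.eval z (MvPolynomial.pderiv i G) * ξ i = c * ∑ i, ξ i * (v i * y i) := by
        rw [Finset.mul_sum]
        refine Finset.sum_congr rfl fun i _ => ?_
        rw [hgrad i]
        ring
      rw [h7, ← hsum, hs0, mul_zero]
  subst hξ
  simp only [Pi.zero_apply, zero_smul, Finset.sum_const_zero, zero_mulVec, vecMul_zero, zero_add, zero_mul] at e1 e2 e5
  obtain ⟨a, ha⟩ := hker k' e1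
  have ha0 : a = 0 := by
    rw [ha, dotProduct_smul, hw, smul_eq_mul, mul_one] at e4
    exact e4
  have hυ : υ = 0 := by
    funext i
    have hz : z i ≠ 0 := by
      intro h0
      have := hzy i
      rw [h0, zero_mul] at this
      exact zero_ne_one this
    exact (mul_eq_zero.1 (e5 i)).resolve_left hz
  obtain ⟨b', hb'⟩ := hker' h' e2
  have hk'0 : k' = 0 := by rw [ha, ha0, zero_smul]
  have hb0 : b' = 0 := by
    have h8 := e3 i0
    rw [hk'0, hυ, hb', mulVec_zero, dotProduct_zero, add_zero, smul_dotProduct, hL, smul_eq_mul, Pi.zero_apply,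
      mul_zero] at h8
    have hy : y i0 ≠ 0 := by
      intro h0
      have := hzy i0
      rw [h0, mul_zero] at this
      exact zero_ne_one this
    exact (mul_eq_zero.1 h8).resolve_right (mul_ne_zero hi0 hy)
  exact ⟨rfl, hυ, rfl, hk'0, by rw [hb', hb0, zero_smul]⟩

/-- entries of the pencil as polynomials -/
noncomputable def PA (A0 : Matrix μ μ K) (L : ν → Matrix μ μ K) (a b : μ) :
    MvPolynomial (ν ⊕ (Option (μ ⊕ μ) ⊕ ν)) K :=
  MvPolynomial.C (A0 a b) + ∑ o, MvPolynomial.C (L o a b) * MvPolynomial.X (Sum.inl o)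

/-- the quadratic form `h M k` as a polynomial -/
noncomputable def QF (M : Matrix μ μ K) : MvPolynomial (ν ⊕ (Option (μ ⊕ μ) ⊕ ν)) K :=
  ∑ a, ∑ b, MvPolynomial.C (M a b) *
    (MvPolynomial.X (Sum.inr (Sum.inl (some (Sum.inr a)))) * MvPolynomial.X (Sum.inr (Sum.inl (some (Sum.inl b)))))

/-- the bilinear system -/
noncomputable def sys (A0 : Matrix μ μ K) (L : ν → Matrix μ μ K) (w : μ → K) (v : ν → K) :
    ((μ ⊕ μ) ⊕ ν) ⊕ Option ν → MvPolynomial (ν ⊕ (Option (μ ⊕ μ) ⊕ ν)) K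
  | Sum.inl (Sum.inl (Sum.inl a)) => ∑ b, PA A0 L a b * MvPolynomial.X (Sum.inr (Sum.inl (some (Sum.inl b))))
  | Sum.inl (Sum.inl (Sum.inr b)) => (∑ a, MvPolynomial.X (Sum.inr (Sum.inl (some (Sum.inr a)))) * PA A0 L a b) -
      MvPolynomial.X (Sum.inr (Sum.inl none)) * MvPolynomial.C (w b)
  | Sum.inl (Sum.inr i) => MvPolynomial.X (Sum.inl i) * MvPolynomial.X (Sum.inr (Sum.inr i)) - MvPolynomial.C 1
  | Sum.inr none => (∑ b, MvPolynomial.C (w b) * MvPolynomial.X (Sum.inr (Sum.inl (some (Sum.inl b))))) -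
      MvPolynomial.C 1
  | Sum.inr (some i) => QF (L i) - MvPolynomial.C (v i) * MvPolynomial.X (Sum.inr (Sum.inr i))

/-- the point of the system -/
def pt (z y : ν → K) (k h : μ → K) : ν ⊕ (Option (μ ⊕ μ) ⊕ ν) → K
  | Sum.inl o => z o
  | Sum.inr (Sum.inl none) => 0
  | Sum.inr (Sum.inl (some (Sum.inl b))) => k b
  | Sum.inr (Sum.inl (some (Sum.inr a))) => h a
  | Sum.inr (Sum.inr i) => y i

theorem PA_mem (A0 : Matrix μ μ K) (L : ν → Matrix μ μ K) (a b : μ) :
    PA A0 L a b ∈ Wb K ν (Option (μ ⊕ μ) ⊕ ν) 1 0 := by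
  have h0 : (MvPolynomial.C (A0 a b) : MvPolynomial (ν ⊕ (Option (μ ⊕ μ) ⊕ ν)) K) ∈
      Wb K ν (Option (μ ⊕ μ) ⊕ ν) 1 0 := Wb_mono (Nat.zero_le 1) le_rfl (Wb_C _)
  have h1 : ∀ (c : K) (i : ν), (MvPolynomial.C c * MvPolynomial.X (Sum.inl i) :
      MvPolynomial (ν ⊕ (Option (μ ⊕ μ) ⊕ ν)) K) ∈ Wb K ν (Option (μ ⊕ μ) ⊕ ν) 1 0 :=
    fun c i => Wb_mono le_rfl le_rfl (Wb_mul (Wb_C c) (Wb_Xl i))
  unfold PA
  exact Submodule.add_mem _ h0 (Submodule.sum_mem _ fun o _ => h1 _ _)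

theorem QF_mem (M : Matrix μ μ K) : (QF M : MvPolynomial (ν ⊕ (Option (μ ⊕ μ) ⊕ ν)) K) ∈
    Wb K ν (Option (μ ⊕ μ) ⊕ ν) 0 2 := by
  have m : ∀ (c : K) (i j : Option (μ ⊕ μ) ⊕ ν), (MvPolynomial.C c * (MvPolynomial.X (Sum.inr i) *
      MvPolynomial.X (Sum.inr j)) : MvPolynomial (ν ⊕ (Option (μ ⊕ μ) ⊕ ν)) K) ∈
      Wb K ν (Option (μ ⊕ μ) ⊕ ν) 0 2 := fun c i j =>
    Wb_mul (d1 := 0) (d2 := 0) (e1 := 0) (e2 := 2) (Wb_C _)
      (Wb_mul (d1 := 0) (d2 := 1) (e1 := 0) (e2 := 1) (Wb_Xr _) (Wb_Xr _))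
  exact Submodule.sum_mem _ fun a _ => Submodule.sum_mem _ fun b _ => m _ _ _

theorem sys_mem1 (A0 : Matrix μ μ K) (L : ν → Matrix μ μ K) (w : μ → K) (v : ν → K) (i : (μ ⊕ μ) ⊕ ν) :
    sys A0 L w v (Sum.inl i) ∈ Wb K ν (Option (μ ⊕ μ) ⊕ ν) 1 1 := by
  have m1 : ∀ (a b : μ) (j : Option (μ ⊕ μ) ⊕ ν), PA A0 L a b * MvPolynomial.X (Sum.inr j) ∈
      Wb K ν (Option (μ ⊕ μ) ⊕ ν) 1 1 := fun a b j =>
    Wb_mul (d1 := 1) (d2 := 0) (e1 := 0) (e2 := 1) (PA_mem A0 L a b) (Wb_Xr j)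
  have m2 : ∀ (a b : μ) (j : Option (μ ⊕ μ) ⊕ ν), MvPolynomial.X (Sum.inr j) * PA A0 L a b ∈
      Wb K ν (Option (μ ⊕ μ) ⊕ ν) 1 1 := fun a b j =>
    Wb_mul (d1 := 0) (d2 := 1) (e1 := 1) (e2 := 0) (Wb_Xr j) (PA_mem A0 L a b)
  have m3 : ∀ (c : K) (j : Option (μ ⊕ μ) ⊕ ν), (MvPolynomial.X (Sum.inr j) * MvPolynomial.C c :
      MvPolynomial (ν ⊕ (Option (μ ⊕ μ) ⊕ ν)) K) ∈ Wb K ν (Option (μ ⊕ μ) ⊕ ν) 1 1 := fun c j =>
    Wb_mono (Nat.zero_le _) le_rfl (Wb_mul (d1 := 0) (d2 := 1) (e1 := 0) (e2 := 0) (Wb_Xr j) (Wb_C c))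
  have m4 : ∀ (i : ν) (j : Option (μ ⊕ μ) ⊕ ν), (MvPolynomial.X (Sum.inl i) * MvPolynomial.X (Sum.inr j) :
      MvPolynomial (ν ⊕ (Option (μ ⊕ μ) ⊕ ν)) K) ∈ Wb K ν (Option (μ ⊕ μ) ⊕ ν) 1 1 := fun i j =>
    Wb_mul (d1 := 1) (d2 := 0) (e1 := 0) (e2 := 1) (Wb_Xl i) (Wb_Xr j)
  have m5 : ∀ c : K, (MvPolynomial.C c : MvPolynomial (ν ⊕ (Option (μ ⊕ μ) ⊕ ν)) K) ∈
      Wb K ν (Option (μ ⊕ μ) ⊕ ν) 1 1 := fun c => Wb_mono (Nat.zero_le _) (Nat.zero_le _) (Wb_C c)
  rcases i with (a | b) | i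
  · exact Submodule.sum_mem _ fun b _ => m1 _ _ _
  · exact Submodule.sub_mem _ (Submodule.sum_mem _ fun a _ => m2 _ _ _) (m3 _ _)
  · exact Submodule.sub_mem _ (m4 _ _) (m5 _)

theorem sys_mem2 (A0 : Matrix μ μ K) (L : ν → Matrix μ μ K) (w : μ → K) (v : ν → K)
    (j : Option ν) : sys A0 L w v (Sum.inr j) ∈ Wb K ν (Option (μ ⊕ μ) ⊕ ν) 0 2 := by
  have hX : ∀ (c : K) (i : Option (μ ⊕ μ) ⊕ ν), (MvPolynomial.C c * MvPolynomial.X (Sum.inr i) :
      MvPolynomial (ν ⊕ (Option (μ ⊕ μ) ⊕ ν)) K) ∈ Wb K ν (Option (μ ⊕ μ) ⊕ ν) 0 2 := fun c i =>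
    Wb_mono le_rfl (by norm_num) (Wb_mul (d1 := 0) (d2 := 0) (e1 := 0) (e2 := 1) (Wb_C _) (Wb_Xr _))
  rcases j with _ | i
  · exact Submodule.sub_mem _ (Submodule.sum_mem _ fun b _ => hX _ _) (Wb_mono le_rfl (Nat.zero_le _) (Wb_C _))
  · exact Submodule.sub_mem _ (QF_mem _) (hX _ _)

omit [Fintype μ] [DecidableEq μ] [DecidableEq ν] in
theorem eval_PA (A0 : Matrix μ μ K) (L : ν → Matrix μ μ K) (z y : ν → K)
    (k h : μ → K) (a b : μ) : MvPolynomial.eval (pt z y k h) (PA A0 L a b) = pen A0 L z a b := by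
  simp only [PA, pen, pt, map_add, map_sum, map_mul, MvPolynomial.eval_C, MvPolynomial.eval_X,
    Matrix.add_apply, Matrix.sum_apply, Matrix.smul_apply, smul_eq_mul]
  congr 1
  exact Finset.sum_congr rfl fun v _ => mul_comm _ _

omit [DecidableEq μ] [Fintype ν] [DecidableEq ν] in
theorem eval_QF (M : Matrix μ μ K) (z y : ν → K) (k h : μ → K) :
    MvPolynomial.eval (pt z y k h) (QF M) = h ⬝ᵥ (M *ᵥ k) := by
  simp only [QF, map_sum, map_mul, MvPolynomial.eval_C, MvPolynomial.eval_X, pt, dotProduct, mulVec,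
    Finset.mul_sum]
  exact Finset.sum_congr rfl fun a _ => Finset.sum_congr rfl fun b _ => by ring

omit [DecidableEq μ] [DecidableEq ν] in
theorem eval_sys (A0 : Matrix μ μ K) (L : ν → Matrix μ μ K) (w : μ → K) (v : ν → K)
    (z y : ν → K) (k h : μ → K) (hzy : ∀ i, z i * y i = 1) (hk : pen A0 L z *ᵥ k = 0) (hh : h ᵥ* pen A0 L z = 0)
    (hL : ∀ i, h ⬝ᵥ (L i *ᵥ k) = v i * y i) (hw : w ⬝ᵥ k = 1)
    (i : ((μ ⊕ μ) ⊕ ν) ⊕ Option ν) : MvPolynomial.eval (pt z y k h) (sys A0 L w v i) = 0 := by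
  rcases i with ((a | b) | i) | (_ | i)
  · simp only [sys, map_sum, map_mul, eval_PA, MvPolynomial.eval_X]
    exact congrFun hk a
  · simp only [sys, map_sub, map_sum, map_mul, eval_PA, MvPolynomial.eval_X]
    have := congrFun hh b
    simp only [vecMul, dotProduct, Pi.zero_apply] at this
    simp only [pt, zero_mul, sub_zero]
    exact this
  · simp only [sys, map_sub, map_mul, MvPolynomial.eval_X, MvPolynomial.eval_C, pt]
    exact sub_eq_zero.2 (hzy i)
  · simp only [sys, map_sub, map_sum, map_mul, MvPolynomial.eval_X, MvPolynomial.eval_C, pt]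
    exact sub_eq_zero.2 hw
  · simp only [sys, map_sub, map_mul, eval_QF, hL, MvPolynomial.eval_C, MvPolynomial.eval_X, pt, sub_self]

section der

variable {σ : Type*} (P V : σ → K)

theorem der_mul (f g : MvPolynomial σ K) :
    (Polynomial.derivative (ln P V (f * g))).eval 0 =
      (Polynomial.derivative (ln P V f)).eval 0 * MvPolynomial.eval P g +
      MvPolynomial.eval P f * (Polynomial.derivative (ln P V g)).eval 0 := by
  rw [map_mul, Polynomial.derivative_mul, Polynomial.eval_add, Polynomial.eval_mul, Polynomial.eval_mul,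
    ln_eval, ln_eval]

theorem der_X (i : σ) : (Polynomial.derivative (ln P V (MvPolynomial.X i))).eval 0 = V i := by
  simp [ln]

theorem der_C (c : K) : (Polynomial.derivative (ln P V (MvPolynomial.C c))).eval 0 = 0 := by
  simp [ln]

theorem der_sum {ι : Type*} (s : Finset ι) (f : ι → MvPolynomial σ K) :
    (Polynomial.derivative (ln P V (∑ i ∈ s, f i))).eval 0 =
      ∑ i ∈ s, (Polynomial.derivative (ln P V (f i))).eval 0 := by
  rw [map_sum, Polynomial.derivative_sum, Polynomial.eval_finsetSum]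

theorem der_sub (f g : MvPolynomial σ K) :
    (Polynomial.derivative (ln P V (f - g))).eval 0 =
      (Polynomial.derivative (ln P V f)).eval 0 - (Polynomial.derivative (ln P V g)).eval 0 := by
  rw [map_sub, Polynomial.derivative_sub, Polynomial.eval_sub]

theorem der_add (f g : MvPolynomial σ K) :
    (Polynomial.derivative (ln P V (f + g))).eval 0 =
      (Polynomial.derivative (ln P V f)).eval 0 + (Polynomial.derivative (ln P V g)).eval 0 := by
  rw [map_add, Polynomial.derivative_add, Polynomial.eval_add]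

end der

omit [Fintype μ] [DecidableEq μ] [DecidableEq ν] in
theorem der_PA (A0 : Matrix μ μ K) (L : ν → Matrix μ μ K) (P V : ν ⊕ (Option (μ ⊕ μ) ⊕ ν) → K)
    (a b : μ) : (Polynomial.derivative (ln P V (PA A0 L a b))).eval 0 =
      (∑ o, V (Sum.inl o) • L o) a b := by
  simp only [PA, der_add, der_C, der_sum, der_mul, der_X, MvPolynomial.eval_C, zero_mul, zero_add,
    Matrix.sum_apply, Matrix.smul_apply, smul_eq_mul]
  exact Finset.sum_congr rfl fun v _ => mul_comm _ _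

omit [DecidableEq μ] [Fintype ν] [DecidableEq ν] in
theorem der_QF (M : Matrix μ μ K) (z y : ν → K) (k h : μ → K) (V : ν ⊕ (Option (μ ⊕ μ) ⊕ ν) → K) :
    (Polynomial.derivative (ln (pt z y k h) V (QF M))).eval 0 =
      (fun a => V (Sum.inr (Sum.inl (some (Sum.inr a))))) ⬝ᵥ (M *ᵥ k) +
        h ⬝ᵥ (M *ᵥ (fun b => V (Sum.inr (Sum.inl (some (Sum.inl b)))))) := by
  simp only [QF, der_sum, der_mul, der_X, der_C]
  simp only [MvPolynomial.eval_C, MvPolynomial.eval_X, map_mul, pt,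
    dotProduct, mulVec, Finset.mul_sum, ← Finset.sum_add_distrib]
  exact Finset.sum_congr rfl fun a _ => Finset.sum_congr rfl fun b _ => by ring

/-- surjectivity of the Jacobian of the system at a nondegenerate torus critical point -/
theorem sys_surj [Infinite K] (A0 : Matrix μ μ K) (L : ν → Matrix μ μ K)
    (G : MvPolynomial ν K) (hdet : ∀ x, (pen A0 L x).det = MvPolynomial.eval x G)
    (z y v : ν → K) (k h w : μ → K) (c : K) (hzy : ∀ i, z i * y i = 1) (i0 : ν) (hi0 : v i0 ≠ 0)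
    (hH : ∀ (u : ν → K) (c' : K), (∀ i, u i * MvPolynomial.eval z (MvPolynomial.pderiv i G) +
      z i * ∑ j, MvPolynomial.eval z (MvPolynomial.pderiv j (MvPolynomial.pderiv i G)) * u j = c' * v i) →
      ∑ i, MvPolynomial.eval z (MvPolynomial.pderiv i G) * u i = 0 → u = 0)
    (hadj : (pen A0 L z).adjugate = c • vecMulVec k h)
    (hk : pen A0 L z *ᵥ k = 0) (hh : h ᵥ* pen A0 L z = 0)
    (hker : ∀ k', pen A0 L z *ᵥ k' = 0 → ∃ a : K, k' = a • k)
    (hker' : ∀ h', h' ᵥ* pen A0 L z = 0 → ∃ b : K, h' = b • h)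
    (hL : ∀ i, h ⬝ᵥ (L i *ᵥ k) = v i * y i) (hw : w ⬝ᵥ k = 1) :
    Function.Surjective (jac (sys A0 L w v) (pt z y k h)) := by
  refine jac_surj_of_inj _ _ ?_ ?_
  · simp only [Fintype.card_sum, Fintype.card_option]
    ring
  intro V hV
  have hV' : ∀ i, (Polynomial.derivative (ln (pt z y k h) V (sys A0 L w v i))).eval 0 = 0 := by
    intro i
    rw [← jac_eq_ln]
    exact congrFun hV i
  have key := lin_zero_t A0 L G hdet z y v k h w c hzy i0 hi0 hH hadj hk hh hker hker' hL hw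
    (fun o => V (Sum.inl o)) (fun o => V (Sum.inr (Sum.inr o))) (V (Sum.inr (Sum.inl none)))
    (fun b => V (Sum.inr (Sum.inl (some (Sum.inl b))))) (fun a => V (Sum.inr (Sum.inl (some (Sum.inr a)))))
    ?_ ?_ ?_ ?_ ?_
  · obtain ⟨z1, z2, z3, z4, z5⟩ := key
    funext i
    rcases i with o | ((_ | (b | a)) | o)
    · exact congrFun z1 o
    · exact z3
    · exact congrFun z4 b
    · exact congrFun z5 a
    · exact congrFun z2 o
  · ext a
    have := hV' (Sum.inl (Sum.inl (Sum.inl a)))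
    simp only [sys, der_sum, der_mul, der_PA, der_X, eval_PA, MvPolynomial.eval_X, pt,
      Finset.sum_add_distrib] at this
    simp only [Pi.add_apply, mulVec, dotProduct, Pi.zero_apply]
    exact this
  · ext b
    have := hV' (Sum.inl (Sum.inl (Sum.inr b)))
    simp only [sys, der_sub, der_sum, der_mul, der_PA, der_X, der_C, eval_PA, MvPolynomial.eval_X,
      MvPolynomial.eval_C, pt, Finset.sum_add_distrib, mul_zero, add_zero] at this
    simp only [Pi.add_apply, vecMul, dotProduct, Pi.smul_apply, smul_eq_mul]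
    rw [add_comm]
    exact sub_eq_zero.1 this
  · intro i
    have := hV' (Sum.inr (some i))
    simp only [sys, der_sub, der_QF, der_mul, der_C, der_X, zero_mul, zero_add, MvPolynomial.eval_C] at this
    exact sub_eq_zero.1 this
  · have := hV' (Sum.inr none)
    simp only [sys, der_sub, der_sum, der_mul, der_X, der_C, MvPolynomial.eval_C, zero_mul, zero_add,
      sub_zero] at this
    simp only [dotProduct]
    exact this
  · intro i
    have := hV' (Sum.inl (Sum.inr i))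
    simp only [sys, der_sub, der_mul, der_X, der_C, MvPolynomial.eval_X, pt, sub_zero] at this
    exact this

/-- torus critical points -/
structure TCrit (G : MvPolynomial ν K) (v : ν → K) (z : ν → K) : Prop where
  zero : MvPolynomial.eval z G = 0
  crit : ∃ c : K, c ≠ 0 ∧ ∀ i, z i * MvPolynomial.eval z (MvPolynomial.pderiv i G) = c * v i
  nd : ∀ (u : ν → K) (c' : K), (∀ i, u i * MvPolynomial.eval z (MvPolynomial.pderiv i G) +
      z i * ∑ j, MvPolynomial.eval z (MvPolynomial.pderiv j (MvPolynomial.pderiv i G)) * u j = c' * v i) →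
      ∑ i, MvPolynomial.eval z (MvPolynomial.pderiv i G) * u i = 0 → u = 0

/-- torus (U) -/
theorem tcrit_card [Infinite K] [Nonempty ν] (A0 : Matrix μ μ K) (L : ν → Matrix μ μ K)
    (G : MvPolynomial ν K) (hdet : ∀ x, (pen A0 L x).det = MvPolynomial.eval x G) (v : ν → K) (hv : ∀ i, v i ≠ 0)
    {ι : Type*} [Fintype ι] (z : ι → ν → K) (hz : Function.Injective z)
    (h0 : ∀ p, TCrit G v (z p)) (α β : ℕ) :
    Fintype.card ι * (α ^ (2 * Fintype.card μ + Fintype.card ν) * β ^ (Fintype.card ν + 1)) *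
        ((Fintype.card ν).factorial * (2 * Fintype.card μ + Fintype.card ν + 1).factorial) ≤
      ((2 * Fintype.card μ + Fintype.card ν).factorial * (Fintype.card ν + 1).factorial) *
        (α ^ Fintype.card ν * (α + 2 * β) ^ (2 * Fintype.card μ + Fintype.card ν + 1)) := by
  classical
  have i0 : ν := Classical.arbitrary ν
  choose c hc hcr using fun p => (h0 p).crit
  have hzi : ∀ p i, z p i ≠ 0 := by
    intro p i h
    have := hcr p i
    rw [h, zero_mul] at this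
    exact mul_ne_zero (hc p) (hv i) this.symm
  have hgr : ∀ p i, MvPolynomial.eval (z p) (MvPolynomial.pderiv i G) = c p * (v i * (z p i)⁻¹) := by
    intro p i
    rw [← mul_assoc, ← hcr p i, mul_comm (z p i), mul_assoc, mul_inv_cancel₀ (hzi p i), mul_one]
  have hs : ∀ p, ∃ k h : μ → K, (pen A0 L (z p)).adjugate = vecMulVec k h ∧
      pen A0 L (z p) *ᵥ k = 0 ∧ h ᵥ* pen A0 L (z p) = 0 ∧
      (∀ k', pen A0 L (z p) *ᵥ k' = 0 → ∃ a : K, k' = a • k) ∧
      (∀ h', h' ᵥ* pen A0 L (z p) = 0 → ∃ b : K, h' = b • h) ∧ k ≠ 0 := by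
    intro p
    refine kernel_struct _ ((MvPolynomial.eval (z p) (MvPolynomial.pderiv i0 G))⁻¹ • L i0) ?_ ?_
    · rw [hdet, (h0 p).zero]
    · rw [Matrix.mul_smul, trace_smul, tr_L A0 L G hdet, smul_eq_mul]
      apply inv_mul_cancel₀
      rw [hgr]
      exact mul_ne_zero (hc p) (mul_ne_zero (hv i0) (inv_ne_zero (hzi p i0)))
  choose k h hadj hk hh hker hker' hk0 using hs
  obtain ⟨w, hw⟩ := exists_generic k hk0
  -- normalisation
  set k1 : ι → μ → K := fun p => (w ⬝ᵥ k p)⁻¹ • k p with hk1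
  set h1 : ι → μ → K := fun p => ((c p)⁻¹ * (w ⬝ᵥ k p)) • h p with hh1
  have hadj1 : ∀ p, (pen A0 L (z p)).adjugate = c p • vecMulVec (k1 p) (h1 p) := by
    intro p
    rw [hadj, hk1, hh1]
    ext i j
    simp only [vecMulVec_apply, Pi.smul_apply, smul_eq_mul, Matrix.smul_apply]
    have := hw p
    have := hc p
    field_simp
  have hkk : ∀ p, pen A0 L (z p) *ᵥ k1 p = 0 := by
    intro p
    rw [hk1]
    simp only [mulVec_smul, hk, smul_zero]
  have hhh : ∀ p, h1 p ᵥ* pen A0 L (z p) = 0 := by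
    intro p
    rw [hh1]
    simp only [smul_vecMul, hh, smul_zero]
  have hkr : ∀ p, ∀ k', pen A0 L (z p) *ᵥ k' = 0 → ∃ a : K, k' = a • k1 p := by
    intro p k' hk'
    obtain ⟨a, ha⟩ := hker p k' hk'
    refine ⟨a * (w ⬝ᵥ k p), ?_⟩
    rw [hk1]
    simp only [smul_smul]
    rw [mul_assoc, mul_inv_cancel₀ (hw p), mul_one]
    exact ha
  have hkr' : ∀ p, ∀ h', h' ᵥ* pen A0 L (z p) = 0 → ∃ b : K, h' = b • h1 p := by
    intro p h' hh'
    obtain ⟨b, hb⟩ := hker' p h' hh'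
    refine ⟨b * ((c p)⁻¹ * (w ⬝ᵥ k p))⁻¹, ?_⟩
    rw [hh1]
    simp only [smul_smul]
    rw [mul_assoc, inv_mul_cancel₀ (mul_ne_zero (inv_ne_zero (hc p)) (hw p)), mul_one]
    exact hb
  have hquad : ∀ p (M : Matrix μ μ K), c p * (h1 p ⬝ᵥ (M *ᵥ k1 p)) =
      ((pen A0 L (z p)).adjugate * M).trace := by
    intro p M
    rw [hadj1, Matrix.smul_mul, trace_smul, vecMulVec_mul, trace_vecMulVec, dotProduct_comm (k1 p),
      ← dotProduct_mulVec, smul_eq_mul]
  have hL : ∀ p i, h1 p ⬝ᵥ (L i *ᵥ k1 p) = v i * (z p i)⁻¹ := by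
    intro p i
    have := hquad p (L i)
    rw [tr_L A0 L G hdet, hgr] at this
    exact mul_left_cancel₀ (hc p) this
  have hw1 : ∀ p, w ⬝ᵥ k1 p = 1 := by
    intro p
    rw [hk1]
    simp only [dotProduct_smul, smul_eq_mul]
    exact inv_mul_cancel₀ (hw p)
  have hb := bez (sys A0 L w v) (fun p => pt (z p) (fun i => (z p i)⁻¹) (k1 p) (h1 p)) ?_
    (fun p i => eval_sys A0 L w v (z p) _ (k1 p) (h1 p) (fun i => mul_inv_cancel₀ (hzi p i)) (hkk p) (hhh p)
      (hL p) (hw1 p) i)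
    (fun p => sys_surj A0 L G hdet (z p) _ v (k1 p) (h1 p) w (c p) (fun i => mul_inv_cancel₀ (hzi p i)) i0 (hv i0)
      (h0 p).nd (hadj1 p) (hkk p) (hhh p) (hkr p) (hkr' p) (hL p) (hw1 p))
    (sys_mem1 A0 L w v) (sys_mem2 A0 L w v) ?_ α β
  · simp only [Fintype.card_sum, Fintype.card_option] at hb
    have e2 : Fintype.card μ + Fintype.card μ = 2 * Fintype.card μ := by ring
    have e3 : 2 * Fintype.card μ + 1 + Fintype.card ν = 2 * Fintype.card μ + Fintype.card ν + 1 := by ring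
    rw [e2, e3] at hb
    exact hb
  · intro p q hpq
    apply hz
    funext o
    exact congrFun hpq (Sum.inl o)
  · simp only [Fintype.card_sum, Fintype.card_option]
    ring

end TorU
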